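import Pool.Agent.H212R4.Kes.Stmts

set_option autoImplicit false

open MeasureTheory Filter Topology
open scoped FourierTransform

noncomputable section

namespace Pool.Agent.H212R4.Kes.ACT

open Pool.Agent.H212R4.Kes

lemma meas_ind (D : ℝ) : Measurable (ind D) := by
  unfold ind
  refine Measurable.ite ?_ measurable_const measurable_const
  exact measurableSet_lt measurable_fract measurable_const

lemma meas_S (D γ : ℝ) (r : ℕ) : Measurable (S D γ r) := by
  unfold S
  refine Finset.measurable_sum _ fun i _ => ?_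
  exact (meas_ind D).comp (measurable_id.add_const _)

lemma meas_Z (D γ a b : ℝ) (r : ℕ) : Measurable (Z D γ a b r) := by
  unfold Z
  refine measurable_const.add (Measurable.mul measurable_const ?_)
  exact (measurable_from_nat (f := fun n : ℕ => (n : ℝ))).comp (meas_S D γ r)

lemma intg (D γ a b : ℝ) (r : ℕ) (f : ℝ → ℂ) (hf : Continuous f) (C : ℝ)
    (hC : ∀ z, ‖f z‖ ≤ C / (1 + z ^ 2)) :
    IntervalIntegrable (fun y => f (Z D γ a b r y)) volume 0 1 := by
  have hC0 : 0 ≤ C := by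
    have := hC 0
    have h2 := norm_nonneg (f 0)
    simp at this
    linarith
  have hb : ∀ z, ‖f z‖ ≤ C := by
    intro z
    refine (hC z).trans ?_
    apply div_le_self hC0
    nlinarith [sq_nonneg z]
  rw [intervalIntegrable_iff]
  refine Measure.integrableOn_of_bounded (M := C) ?_ ?_ ?_
  · simp
  · exact (hf.measurable.comp (meas_Z D γ a b r)).aestronglyMeasurable
  · exact Eventually.of_forall fun y => hb _

lemma bnd_summable (c C : ℝ) (hc : 0 < c) (hC : 0 ≤ C) :
    Summable fun r : ℕ => C / (1 + (c * ((r + 1 : ℕ) : ℝ)) ^ 2) := by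
  have h1 : Summable fun r : ℕ => C / c ^ 2 * (1 / ((r + 1 : ℕ) : ℝ) ^ 2) := by
    apply Summable.mul_left
    exact (summable_nat_add_iff 1).mpr (Real.summable_one_div_nat_pow.mpr one_lt_two)
  refine Summable.of_nonneg_of_le (fun r => by positivity) (fun r => ?_) h1
  have hr : (0:ℝ) < ((r + 1 : ℕ) : ℝ) := by positivity
  rw [div_mul_div_comm, mul_one]
  apply div_le_div_of_nonneg_left hC (by positivity)
  rw [mul_pow]
  linarith

theorem ac : TaskACr → TaskPS → TaskRB → TaskAC := by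
  intro hACr hPS hRB D γ x₀ a b x hD0 hD1 hγ ha hb hx f hf
  obtain ⟨hfc, C, hC⟩ := hf
  set c : ℝ := min a b with hc
  have hc0 : 0 < c := lt_min ha hb
  have hgap : ∀ n, c ≤ x (n + 1) - x n := by
    intro n
    rw [hx.2 n]
    split_ifs
    · exact min_le_right _ _
    · exact min_le_left _ _
  have hC0 : 0 ≤ C := by
    have := hC 0
    have h2 := norm_nonneg (f 0)
    simp at this
    linarith
  have hCn : ∀ z, ‖f (-z)‖ ≤ C / (1 + z ^ 2) := by
    intro z
    have := hC (-z)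
    simpa using this
  set F : ℝ → ℕ → ℂ := fun T r =>
    (rsum x f (r + 1) T + rsum x (fun z => f (-z)) (r + 1) T) / ((2 * T : ℝ) : ℂ) with hF
  set g : ℕ → ℂ := fun r => (1 / (gap D a b : ℂ)) * ∫ y in (0 : ℝ)..1,
    (f (Z D γ a b (r + 1) y) + f (-(Z D γ a b (r + 1) y))) with hg
  have hlim : ∀ r, Tendsto (fun T => F T r) atTop (𝓝 (g r)) := by
    intro r
    have h1 := hACr D γ x₀ a b x hD0 hD1 hγ ha hb hx f (r + 1)
    have h2 := hACr D γ x₀ a b x hD0 hD1 hγ ha hb hx (fun z => f (-z)) (r + 1)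
    have h3 := h1.add h2
    have e1 : (fun T => F T r) = fun T : ℝ => rsum x f (r + 1) T / ((2 * T : ℝ) : ℂ) +
        rsum x (fun z => f (-z)) (r + 1) T / ((2 * T : ℝ) : ℂ) := by
      funext T
      simp only [hF, add_div]
    have e2 : g r = (1 / (gap D a b : ℂ)) * (∫ y in (0 : ℝ)..1, f (Z D γ a b (r + 1) y)) +
        (1 / (gap D a b : ℂ)) * ∫ y in (0 : ℝ)..1, f (-(Z D γ a b (r + 1) y)) := by
      simp only [hg]
      rw [intervalIntegral.integral_add, mul_add]
      · exact intg D γ a b (r + 1) f hfc C hC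
      · exact intg D γ a b (r + 1) (fun z => f (-z)) (hfc.comp continuous_neg) C hCn
    rw [e1, e2]
    exact h3
  have hbound : ∀ᶠ T : ℝ in atTop, ∀ r, ‖F T r‖ ≤
      (2 * (1 / c + 1 / 2)) * (C / (1 + (c * ((r + 1 : ℕ) : ℝ)) ^ 2)) := by
    filter_upwards [eventually_ge_atTop (1 : ℝ)] with T hT r
    have hT0 : 0 < T := by linarith
    have h1 := hRB x c hc0 hgap f C hC (r + 1) T hT0.le
    have h2 := hRB x c hc0 hgap (fun z => f (-z)) C hCn (r + 1) T hT0.le
    simp only [hF]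
    rw [norm_div]
    have hn : ‖((2 * T : ℝ) : ℂ)‖ = 2 * T := by
      rw [Complex.norm_real, Real.norm_of_nonneg (by linarith)]
    rw [hn, div_le_iff₀ (by linarith)]
    have hq : 0 ≤ C / (1 + (c * ((r + 1 : ℕ) : ℝ)) ^ 2) := by positivity
    have h4 : 2 * T / c + 1 ≤ (1 / c + 1 / 2) * (2 * T) := by
      have : (1 / c + 1 / 2) * (2 * T) = 2 * T / c + T := by ring
      rw [this]; linarith
    calc ‖rsum x f (r + 1) T + rsum x (fun z => f (-z)) (r + 1) T‖
        ≤ ‖rsum x f (r + 1) T‖ + ‖rsum x (fun z => f (-z)) (r + 1) T‖ := norm_add_le _ _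
      _ ≤ (2 * T / c + 1) * (C / (1 + (c * ((r + 1 : ℕ) : ℝ)) ^ 2)) +
          (2 * T / c + 1) * (C / (1 + (c * ((r + 1 : ℕ) : ℝ)) ^ 2)) := add_le_add h1 h2
      _ = 2 * ((2 * T / c + 1) * (C / (1 + (c * ((r + 1 : ℕ) : ℝ)) ^ 2))) := by ring
      _ ≤ 2 * (((1 / c + 1 / 2) * (2 * T)) * (C / (1 + (c * ((r + 1 : ℕ) : ℝ)) ^ 2))) := by
          gcongr
      _ = 2 * (1 / c + 1 / 2) * (C / (1 + (c * ((r + 1 : ℕ) : ℝ)) ^ 2)) * (2 * T) := by ring
  have hmain : Tendsto (fun T => ∑' r, F T r) atTop (𝓝 (∑' r, g r)) :=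
    tendsto_tsum_of_dominated_convergence ((bnd_summable c C hc0 hC0).mul_left _) hlim hbound
  have h0 : Tendsto (fun T : ℝ => rsum x f 0 T / ((2 * T : ℝ) : ℂ)) atTop
      (𝓝 ((1 / (gap D a b : ℂ)) * f 0)) := by
    have := hACr D γ x₀ a b x hD0 hD1 hγ ha hb hx f 0
    simpa [Z, S] using this
  have hsum := h0.add hmain
  have e1 : (fun T : ℝ => pairSum x f T / ((2 * T : ℝ) : ℂ)) =
      fun T : ℝ => rsum x f 0 T / ((2 * T : ℝ) : ℂ) + ∑' r, F T r := by
    funext T
    rw [(hPS x c hc0 hgap f ⟨hfc, C, hC⟩ T).2, add_div]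
    congr 1
    simp only [hF]
    rw [tsum_div_const]
  have e2 : AF D γ a b f = (1 / (gap D a b : ℂ)) * f 0 + ∑' r, g r := by
    simp only [hg]
    rw [tsum_mul_left, ← mul_add]
    rfl
  rw [e1, e2]
  exact hsum

end Pool.Agent.H212R4.Kes.ACT

namespace Pool.Agent.H212R4.Kes

theorem ac : TaskACr → TaskPS → TaskRB → TaskAC := ACT.ac

end Pool.Agent.H212R4.Kes
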