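import Pool.Agent.H212R4.Kes.Stmts

set_option autoImplicit false

/-! Task ACR of project KESTEN (helper610). -/

open MeasureTheory Filter Topology

noncomputable section

namespace Pool.Agent.H212R4.Kes

namespace ACrAux

theorem step {D γ x₀ a b : ℝ} {x : ℤ → ℝ} (hx : IsSeq D γ x₀ a b x) (n : ℤ) (r : ℕ) :
    x (n + r) - x n = Z D γ a b r (x₀ + n * γ) := by
  induction r with
  | zero => simp [Z, S]
  | succ r ih =>
    have h := hx.2 (n + r)
    have e : x (n + ((r + 1 : ℕ) : ℤ)) = x (n + r + 1) := by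
      congr 1
      push_cast
      ring
    rw [e]
    have e1 : x (n + r + 1) - x n = (x (n + r + 1) - x (n + r)) + (x (n + r) - x n) := by ring
    rw [e1, ih, h]
    unfold Z S
    rw [Finset.sum_range_succ]
    have e2 : x₀ + n * γ + r * γ = x₀ + ((n + r : ℤ) : ℝ) * γ := by
      push_cast
      ring
    rw [e2]
    unfold ind
    split_ifs <;> push_cast <;> ring

theorem smono {D γ x₀ a b : ℝ} {x : ℤ → ℝ} (ha : 0 < a) (hb : 0 < b)
    (hx : IsSeq D γ x₀ a b x) : StrictMono x := by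
  refine strictMono_int_of_lt_succ fun n => ?_
  have := hx.2 n
  split_ifs at this <;> linarith

theorem int_ind {D : ℝ} (h0 : 0 < D) (h1 : D < 1) :
    ∫ x in (0 : ℝ)..1, ((ind D x : ℕ) : ℝ) = D := by
  have hi : ∀ u v : ℝ, IntervalIntegrable (fun x => ((ind D x : ℕ) : ℝ)) volume u v := by
    intro u v
    have hm : Measurable (fun x => ((ind D x : ℕ) : ℝ)) := by
      unfold ind
      have : Measurable fun x : ℝ => (if Int.fract x < D then (1 : ℕ) else 0) :=
        Measurable.ite (measurableSet_lt measurable_fract measurable_const) measurable_const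
          measurable_const
      exact measurable_from_top.comp this
    refine IntervalIntegrable.mono_fun (g := fun x => ((ind D x : ℕ) : ℝ))
      (f := fun _ => (1 : ℝ)) intervalIntegrable_const hm.aestronglyMeasurable ?_
    refine Eventually.of_forall fun x => ?_
    unfold ind
    dsimp only
    split_ifs <;> simp
  rw [← intervalIntegral.integral_add_adjacent_intervals (hi 0 D) (hi D 1)]
  have e1 : ∫ x in (0 : ℝ)..D, ((ind D x : ℕ) : ℝ) = ∫ x in (0 : ℝ)..D, (1 : ℝ) := by
    refine intervalIntegral.integral_congr_ae ?_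
    have hne : ∀ᵐ x : ℝ, x ≠ D := by simp [ae_iff, measure_singleton]
    filter_upwards [hne] with x hx hxI
    rw [Set.uIoc_of_le h0.le] at hxI
    have hlt : x < D := lt_of_le_of_ne hxI.2 hx
    have hf : Int.fract x = x := Int.fract_eq_self.2 ⟨hxI.1.le, by linarith⟩
    unfold ind
    rw [hf, if_pos hlt]
    simp
  have e2 : ∫ x in D..1, ((ind D x : ℕ) : ℝ) = ∫ x in D..1, (0 : ℝ) := by
    refine intervalIntegral.integral_congr_ae ?_
    have hne : ∀ᵐ x : ℝ, x ≠ 1 := by simp [ae_iff, measure_singleton]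
    filter_upwards [hne] with x hx hxI
    rw [Set.uIoc_of_le h1.le] at hxI
    have hlt : x < 1 := lt_of_le_of_ne hxI.2 hx
    have hf : Int.fract x = x := Int.fract_eq_self.2 ⟨by linarith [hxI.1], hlt⟩
    unfold ind
    rw [hf, if_neg (by linarith [hxI.1])]
    simp
  rw [e1, e2]
  simp

theorem avg (W : TaskWeyl) {D θ : ℝ} (h0 : 0 < D) (h1 : D < 1) (hθ : Irrational θ) (x₀ : ℝ) :
    Tendsto (fun N : ℕ => (∑ n ∈ Finset.range N, ((ind D (x₀ + n * θ) : ℕ) : ℝ)) / (N : ℝ)) atTop
      (𝓝 D) := by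
  have h := W D θ θ x₀ 1 (fun j => (j : ℂ)) h0 h1 hθ
  have h2 := (Complex.continuous_re.tendsto _).comp h
  have e1 : ∀ y, S D θ 1 y = ind D y := by
    intro y
    simp [S]
  have e2 : (∫ x in (0 : ℝ)..1, ((S D θ 1 x : ℕ) : ℂ)).re = D := by
    have : (∫ x in (0 : ℝ)..1, ((S D θ 1 x : ℕ) : ℂ)) =
        ((∫ x in (0 : ℝ)..1, ((ind D x : ℕ) : ℝ) : ℝ) : ℂ) := by
      rw [← intervalIntegral.integral_ofReal]
      refine intervalIntegral.integral_congr fun x _ => ?_
      simp only [e1]
      push_cast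
      rfl
    rw [this, Complex.ofReal_re, int_ind h0 h1]
  rw [e2] at h2
  refine h2.congr fun N => ?_
  simp only [Function.comp_apply, e1]
  have : (∑ n ∈ Finset.range N, ((ind D (x₀ + n * θ) : ℕ) : ℂ)) / (N : ℂ) =
      (((∑ n ∈ Finset.range N, ((ind D (x₀ + n * θ) : ℕ) : ℝ)) / (N : ℝ) : ℝ) : ℂ) := by
    push_cast
    rfl
  rw [this, Complex.ofReal_re]

theorem lim_pos (W : TaskWeyl) {D γ x₀ a b : ℝ} {x : ℤ → ℝ} (h0 : 0 < D) (h1 : D < 1)
    (hγ : Irrational γ) (hx : IsSeq D γ x₀ a b x) :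
    Tendsto (fun N : ℕ => x N / (N : ℝ)) atTop (𝓝 (gap D a b)) := by
  have h := avg W h0 h1 hγ x₀
  have h2 : Tendsto (fun N : ℕ => a + (b - a) *
      ((∑ n ∈ Finset.range N, ((ind D (x₀ + n * γ) : ℕ) : ℝ)) / (N : ℝ))) atTop
      (𝓝 (a + (b - a) * D)) := (h.const_mul (b - a)).const_add a
  have e : a + (b - a) * D = gap D a b := by
    unfold gap
    ring
  rw [e] at h2
  refine h2.congr' ?_
  filter_upwards [eventually_gt_atTop 0] with N hN
  have hs := step hx 0 N
  rw [hx.1, sub_zero, zero_add] at hs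
  rw [hs]
  unfold Z S
  have hN' : (N : ℝ) ≠ 0 := by exact_mod_cast hN.ne'
  simp only [Int.cast_zero, zero_mul, add_zero]
  push_cast
  field_simp
  simp only [mul_comm γ]

theorem lim_neg (W : TaskWeyl) {D γ x₀ a b : ℝ} {x : ℤ → ℝ} (h0 : 0 < D) (h1 : D < 1)
    (hγ : Irrational γ) (hx : IsSeq D γ x₀ a b x) :
    Tendsto (fun N : ℕ => (-x (-(N : ℤ))) / (N : ℝ)) atTop (𝓝 (gap D a b)) := by
  have h := avg W h0 h1 hγ.neg (x₀ - γ)
  have h2 : Tendsto (fun N : ℕ => a + (b - a) *
      ((∑ n ∈ Finset.range N, ((ind D (x₀ - γ + n * (-γ)) : ℕ) : ℝ)) / (N : ℝ))) atTop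
      (𝓝 (a + (b - a) * D)) := (h.const_mul (b - a)).const_add a
  have e : a + (b - a) * D = gap D a b := by
    unfold gap
    ring
  rw [e] at h2
  refine h2.congr' ?_
  filter_upwards [eventually_gt_atTop 0] with N hN
  have hs := step hx (-(N : ℤ)) N
  have e0 : (-(N : ℤ) + (N : ℤ)) = 0 := by ring
  rw [e0, hx.1, zero_sub] at hs
  rw [hs]
  unfold Z S
  have hN' : (N : ℝ) ≠ 0 := by exact_mod_cast hN.ne'
  have hr : ∑ n ∈ Finset.range N, ((ind D (x₀ - γ + n * (-γ)) : ℕ) : ℝ) =
      ((∑ i ∈ Finset.range N, ind D (x₀ + ((-(N : ℤ) : ℤ) : ℝ) * γ + i * γ) : ℕ) : ℝ) := by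
    rw [← Finset.sum_range_reflect]
    push_cast
    refine Finset.sum_congr rfl fun i hi => ?_
    congr 2
    have hi' : i < N := Finset.mem_range.1 hi
    have e3 : ((N - 1 - i : ℕ) : ℝ) = (N : ℝ) - 1 - i := by
      rw [Nat.cast_sub (by omega), Nat.cast_sub (by omega)]
      simp
    rw [e3]
    ring
  rw [hr]
  field_simp

theorem shift {w : ℕ → ℝ} {g : ℝ} (k : ℕ) (h : Tendsto (fun n : ℕ => w n / (n : ℝ)) atTop (𝓝 g)) :
    Tendsto (fun n : ℕ => w (n + k) / (n : ℝ)) atTop (𝓝 g) := by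
  have h1 : Tendsto (fun n : ℕ => w (n + k) / ((n + k : ℕ) : ℝ)) atTop (𝓝 g) :=
    h.comp (tendsto_add_atTop_nat k)
  have h2 : Tendsto (fun n : ℕ => ((n : ℝ) / ((n : ℝ) + (k : ℝ)))⁻¹) atTop (𝓝 1⁻¹) :=
    (tendsto_natCast_div_add_atTop (k : ℝ)).inv₀ one_ne_zero
  have h3 := h1.mul h2
  rw [inv_one, mul_one] at h3
  refine h3.congr' ?_
  filter_upwards [eventually_gt_atTop 0] with n hn
  have hn' : (n : ℝ) ≠ 0 := by exact_mod_cast hn.ne'
  have hn2 : ((n : ℝ) + k) ≠ 0 := by positivity
  push_cast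
  field_simp

theorem cnt {u : ℕ → ℝ} (hu : Monotone u) {g : ℝ} (hg : 0 < g)
    (hl : Tendsto (fun n : ℕ => u n / (n : ℝ)) atTop (𝓝 g)) :
    ∃ N : ℝ → ℕ, (∀ T n, n < N T ↔ u n ≤ T) ∧ Tendsto N atTop atTop ∧
      Tendsto (fun T => (N T : ℝ) / T) atTop (𝓝 (1 / g)) := by
  classical
  have hinf : Tendsto u atTop atTop := by
    have h1 := hl.pos_mul_atTop hg tendsto_natCast_atTop_atTop
    refine h1.congr' ?_
    filter_upwards [eventually_gt_atTop 0] with n hn
    have hn' : (n : ℝ) ≠ 0 := by exact_mod_cast hn.ne'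
    field_simp
  have hex : ∀ T : ℝ, ∃ n, T < u n := fun T => (hinf.eventually_gt_atTop T).exists
  have hN : ∀ T n, n < Nat.find (hex T) ↔ u n ≤ T := by
    intro T n
    rw [Nat.lt_find_iff]
    constructor
    · intro h
      exact not_lt.1 (h n le_rfl)
    · intro h m hm
      exact not_lt.2 ((hu hm).trans h)
  set N : ℝ → ℕ := fun T => Nat.find (hex T) with hNdef
  have hNinf : Tendsto N atTop atTop := by
    refine tendsto_atTop.2 fun K => ?_
    filter_upwards [eventually_ge_atTop (u K)] with T hT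
    exact ((hN T K).2 hT).le
  refine ⟨N, hN, hNinf, ?_⟩
  have hup : Tendsto (fun T => u (N T) / (N T : ℝ)) atTop (𝓝 g) := hl.comp hNinf
  have hlow0 : Tendsto (fun n : ℕ => u (n - 1) / (n : ℝ)) atTop (𝓝 g) := by
    rw [← tendsto_add_atTop_iff_nat 1]
    have h1 := hl.mul (tendsto_natCast_div_add_atTop (1 : ℝ))
    rw [mul_one] at h1
    refine h1.congr' ?_
    filter_upwards [eventually_gt_atTop 0] with n hn
    have hn' : (n : ℝ) ≠ 0 := by exact_mod_cast hn.ne'
    have hn2 : ((n : ℝ) + 1) ≠ 0 := by positivity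
    rw [Nat.add_sub_cancel]
    push_cast
    field_simp
  have hlow : Tendsto (fun T => u (N T - 1) / (N T : ℝ)) atTop (𝓝 g) := hlow0.comp hNinf
  have hmid : Tendsto (fun T => T / (N T : ℝ)) atTop (𝓝 g) := by
    refine tendsto_of_tendsto_of_tendsto_of_le_of_le' hlow hup ?_ ?_
    · filter_upwards [hNinf.eventually_ge_atTop 1] with T hT
      have : u (N T - 1) ≤ T := (hN T (N T - 1)).1 (by
        change N T - 1 < N T
        omega)
      gcongr
    · filter_upwards [hNinf.eventually_ge_atTop 1] with T hT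
      have : T ≤ u (N T) := by
        by_contra hc
        push Not at hc
        have := (hN T (N T)).2 hc.le
        change N T < N T at this
        omega
      gcongr
  have := hmid.inv₀ hg.ne'
  rw [one_div]
  exact this.congr fun T => inv_div _ _

theorem comb {h : ℕ → ℂ} {I : ℂ} {g : ℝ}
    (hI : Tendsto (fun N : ℕ => (∑ n ∈ Finset.range N, h n) / (N : ℂ)) atTop (𝓝 I))
    {N : ℝ → ℕ} (hN : Tendsto N atTop atTop)
    (hT : Tendsto (fun T => (N T : ℝ) / T) atTop (𝓝 (1 / g))) :
    Tendsto (fun T : ℝ => (∑ n ∈ Finset.range (N T), h n) / ((2 * T : ℝ) : ℂ)) atTop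
      (𝓝 (I * ((1 / g : ℝ) : ℂ) / 2)) := by
  have h1 := (hI.comp hN).mul ((Complex.continuous_ofReal.tendsto _).comp hT)
  have h2 := h1.div_const 2
  refine h2.congr' ?_
  filter_upwards [hN.eventually_ge_atTop 1, eventually_gt_atTop 0] with T hT1 hT0
  have hn : ((N T : ℕ) : ℂ) ≠ 0 := by
    exact_mod_cast (by omega : N T ≠ 0)
  have hT' : (T : ℂ) ≠ 0 := by exact_mod_cast hT0.ne'
  simp only [Function.comp_apply]
  push_cast
  field_simp

end ACrAux

open ACrAux in
theorem acr : TaskWeyl → TaskACr := by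
  classical
  intro W D γ x₀ a b x h0 h1 hγ ha hb hx f r
  have hmono := smono ha hb hx
  have hg : 0 < gap D a b := by
    unfold gap
    have : 0 < 1 - D := by linarith
    positivity
  -- the two counting functions
  have hu : Monotone fun n : ℕ => x ((n : ℤ) + r) := by
    intro n m hnm
    refine hmono.monotone ?_
    have : (n : ℤ) ≤ m := by exact_mod_cast hnm
    linarith
  have hul : Tendsto (fun n : ℕ => x ((n : ℤ) + r) / (n : ℝ)) atTop (𝓝 (gap D a b)) := by
    have := shift (w := fun n : ℕ => x n) r (lim_pos W h0 h1 hγ hx)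
    refine this.congr fun n => ?_
    simp
  obtain ⟨B, hB, hBinf, hBl⟩ := cnt hu hg hul
  have hv : Monotone fun n : ℕ => -x (Int.negSucc n) := by
    intro n m hnm
    have : Int.negSucc m ≤ Int.negSucc n := by
      rw [Int.negSucc_eq, Int.negSucc_eq]
      have : (n : ℤ) ≤ m := by exact_mod_cast hnm
      linarith
    have := hmono.monotone this
    simp only
    linarith
  have hvl : Tendsto (fun n : ℕ => (-x (Int.negSucc n)) / (n : ℝ)) atTop (𝓝 (gap D a b)) := by
    have := shift (w := fun n : ℕ => -x (-(n : ℤ))) 1 (lim_neg W h0 h1 hγ hx)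
    refine this.congr fun n => ?_
    rw [Int.negSucc_eq]
    simp
  obtain ⟨A, hA, hAinf, hAl⟩ := cnt hv hg hvl
  -- the averages
  set g : ℕ → ℂ := fun j => f (a * r + (b - a) * j) with hgdef
  have hI1 := W D γ γ x₀ r g h0 h1 hγ
  have hI2 := W D γ (-γ) (x₀ - γ) r g h0 h1 hγ.neg
  set I : ℂ := ∫ y in (0 : ℝ)..1, f (Z D γ a b r y) with hIdef
  have hI1' : Tendsto (fun N : ℕ => (∑ n ∈ Finset.range N,
      f (x ((n : ℤ) + r) - x (n : ℤ))) / (N : ℂ)) atTop (𝓝 I) := by
    refine hI1.congr fun N => ?_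
    congr 1
    refine Finset.sum_congr rfl fun n _ => ?_
    rw [step hx (n : ℤ) r]
    rfl
  have hI2' : Tendsto (fun N : ℕ => (∑ n ∈ Finset.range N,
      f (x (Int.negSucc n + r) - x (Int.negSucc n))) / (N : ℂ)) atTop (𝓝 I) := by
    refine hI2.congr fun N => ?_
    congr 1
    refine Finset.sum_congr rfl fun n _ => ?_
    rw [step hx (Int.negSucc n) r, Int.negSucc_eq]
    have : x₀ - γ + n * (-γ) = x₀ + ((-((n : ℤ) + 1) : ℤ) : ℝ) * γ := by
      push_cast
      ring
    rw [this]
    rfl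
  have hlim := (comb hI1' hBinf hBl).add (comb hI2' hAinf hAl)
  have e : I * ((1 / gap D a b : ℝ) : ℂ) / 2 + I * ((1 / gap D a b : ℝ) : ℂ) / 2 =
      (1 / (gap D a b : ℂ)) * I := by
    push_cast
    ring
  rw [e] at hlim
  refine hlim.congr' ?_
  filter_upwards [eventually_ge_atTop (x r), eventually_ge_atTop 0] with T hT hT0
  rw [← add_div]
  congr 1
  -- the window
  have hset : {n : ℤ | |x n| ≤ T ∧ |x (n + r)| ≤ T} =
      ↑((Finset.range (B T)).image (fun n : ℕ => (n : ℤ)) ∪
        (Finset.range (A T)).image (fun n : ℕ => Int.negSucc n)) := by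
    ext n
    rw [Set.mem_ofPred_eq, Finset.mem_coe, Finset.mem_union, Finset.mem_image, Finset.mem_image]
    rcases n with n | n
    · have hx0 : 0 ≤ x (n : ℤ) := by
        have := hmono.monotone (show (0 : ℤ) ≤ n by positivity)
        rwa [hx.1] at this
      have hx1 : x (n : ℤ) ≤ x ((n : ℤ) + r) := hmono.monotone (by linarith [Int.natCast_nonneg r])
      simp only [Int.ofNat_eq_natCast]
      rw [abs_of_nonneg hx0, abs_of_nonneg (hx0.trans hx1)]
      constructor
      · intro h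
        exact Or.inl ⟨n, Finset.mem_range.2 ((hB T n).2 h.2), rfl⟩
      · rintro (⟨m, hm, hmn⟩ | ⟨m, hm, hmn⟩)
        · have : m = n := by exact_mod_cast hmn
          subst this
          have := (hB T m).1 (Finset.mem_range.1 hm)
          exact ⟨hx1.trans this, this⟩
        · exact absurd hmn (by omega)
    · have hx0 : x (Int.negSucc n) ≤ 0 := by
        have := hmono.monotone (show Int.negSucc n ≤ (0 : ℤ) by omega)
        rwa [hx.1] at this
      have hx1 : x (Int.negSucc n) ≤ x (Int.negSucc n + r) :=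
        hmono.monotone (by linarith [Int.natCast_nonneg r])
      have hx2 : x (Int.negSucc n + r) ≤ x r := hmono.monotone (by omega)
      constructor
      · intro h
        refine Or.inr ⟨n, Finset.mem_range.2 ((hA T n).2 ?_), rfl⟩
        have := h.1
        rwa [abs_of_nonpos hx0] at this
      · rintro (⟨m, hm, hmn⟩ | ⟨m, hm, hmn⟩)
        · exact absurd hmn (by omega)
        · have : m = n := by
            have := Int.negSucc.inj hmn
            exact this
          subst this
          have := (hA T m).1 (Finset.mem_range.1 hm)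
          refine ⟨by rwa [abs_of_nonpos hx0], ?_⟩
          rw [abs_le]
          constructor
          · linarith
          · linarith
  have hr : rsum x f r T = ∑' n : ({n : ℤ | |x n| ≤ T ∧ |x (n + r)| ≤ T} : Set ℤ),
      f (x (n.1 + r) - x n.1) := rfl
  rw [hr, hset, Finset.tsum_subtype' _ (fun n : ℤ => f (x (n + r) - x n)), Finset.sum_union,
    Finset.sum_image, Finset.sum_image]
  · intro m _ n _ h
    exact Int.negSucc.inj h
  · intro m _ n _ h
    simpa using h
  · rw [Finset.disjoint_left]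
    intro n hn hn'
    rw [Finset.mem_image] at hn hn'
    obtain ⟨m, -, rfl⟩ := hn
    obtain ⟨k, -, hk⟩ := hn'
    omega

end Pool.Agent.H212R4.Kes
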