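import Pool.Agent.H212R4.Kes.Stmts

/-! TASK DENS (helper62) -/

open MeasureTheory Filter Topology
open scoped FourierTransform

noncomputable section

namespace Pool.Agent.H212R4.Kes.DensProof

open Pool.Agent.H212R4.Kes

theorem lower {x : ℤ → ℝ} {c : ℝ} (hx : ∀ n, c ≤ x (n + 1) - x n) (n : ℤ) (k : ℕ) :
    x n + c * k ≤ x (n + k) := by
  induction k with
  | zero => simp
  | succ k ih =>
    have h := hx (n + k)
    have e : n + ((k + 1 : ℕ) : ℤ) = n + k + 1 := by push_cast; ring
    rw [e]
    push_cast
    linarith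

theorem win_finite {x : ℤ → ℝ} {c : ℝ} (hc : 0 < c) (hx : ∀ n, c ≤ x (n + 1) - x n) (T : ℝ) :
    (win x T).Finite := by
  obtain ⟨M, hM⟩ := exists_nat_gt ((T + |x 0|) / c)
  refine (Set.finite_Icc (-(M : ℤ)) M).subset ?_
  intro n hn
  have hn' : |x n| ≤ T := hn
  rw [div_lt_iff₀ hc] at hM
  have h0 := neg_le_abs (x 0)
  have h1 := le_abs_self (x 0)
  rw [abs_le] at hn'
  rcases le_total 0 n with h | h
  · obtain ⟨k, rfl⟩ := Int.eq_ofNat_of_zero_le h
    have := lower hx 0 k
    rw [zero_add] at this
    have h2 : c * k < c * M := by nlinarith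
    have h3 : (k : ℝ) < M := lt_of_mul_lt_mul_left h2 hc.le
    have h4 : k < M := by exact_mod_cast h3
    constructor <;> omega
  · obtain ⟨k, hk⟩ := Int.eq_ofNat_of_zero_le (neg_nonneg.2 h)
    have := lower hx n k
    have e : n + (k : ℤ) = 0 := by omega
    rw [e] at this
    have h2 : c * k < c * M := by nlinarith
    have h3 : (k : ℝ) < M := lt_of_mul_lt_mul_left h2 hc.le
    have h4 : k < M := by exact_mod_cast h3
    constructor <;> omega

theorem dens_ok : TaskDens := by
  intro x c hc hx T hT
  have hfin := win_finite hc hx T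
  let _ : Fintype (win x T) := hfin.fintype
  have hd : ∀ s, dens x T s = ‖∑ n : win x T,
      Complex.exp (-(2 * Real.pi * x n * s : ℝ) * Complex.I)‖ ^ 2 / (2 * T) := by
    intro s
    rw [dens, tsum_fintype]
  have hne : ∀ t : ℝ, ‖Complex.exp (-(t : ℂ) * Complex.I)‖ = 1 := by
    intro t
    have := Complex.norm_exp_ofReal_mul_I (-t)
    simpa using this
  refine ⟨?_, ⟨(Fintype.card (win x T) : ℝ) ^ 2 / (2 * T), ?_⟩, ?_⟩
  · have : dens x T = fun s => ‖∑ n : win x T,
      Complex.exp (-(2 * Real.pi * x n * s : ℝ) * Complex.I)‖ ^ 2 / (2 * T) := funext hd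
    rw [this]
    fun_prop
  · intro s
    rw [hd]
    have h1 : ‖∑ n : win x T, Complex.exp (-(2 * Real.pi * x n * s : ℝ) * Complex.I)‖ ≤
        (Fintype.card (win x T) : ℝ) := by
      refine (norm_sum_le _ _).trans ?_
      rw [Finset.sum_congr rfl fun n _ => hne _]
      simp
    gcongr
  · intro φ hφ
    have hcd : ∀ s, (dens x T s : ℂ) = (∑ m : win x T, ∑ n : win x T,
        Complex.exp (((-2 * Real.pi * s * (x m - x n) : ℝ) : ℂ) * Complex.I)) /
          ((2 * T : ℝ) : ℂ) := by
      intro s
      rw [hd]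
      push_cast
      congr 1
      rw [← Complex.mul_conj', map_sum, Finset.sum_mul_sum]
      refine Finset.sum_congr rfl fun m _ => Finset.sum_congr rfl fun n _ => ?_
      rw [← Complex.exp_conj, ← Complex.exp_add]
      congr 1
      simp only [map_mul, map_neg, Complex.conj_I, Complex.conj_ofReal, map_ofNat]
      push_cast
      ring
    have hint : ∀ w : ℝ, Integrable (fun s : ℝ =>
        φ s * Complex.exp (((-2 * Real.pi * s * w : ℝ) : ℂ) * Complex.I)) := by
      intro w
      refine Integrable.mono' hφ.norm ?_ ?_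
      · refine hφ.aestronglyMeasurable.mul ?_
        exact Continuous.aestronglyMeasurable (by fun_prop)
      · filter_upwards with s
        rw [norm_mul, Complex.norm_exp_ofReal_mul_I, mul_one]
    have hF : ∀ w : ℝ, 𝓕 φ w = ∫ s : ℝ,
        φ s * Complex.exp (((-2 * Real.pi * s * w : ℝ) : ℂ) * Complex.I) := by
      intro w
      rw [Real.fourier_real_eq_integral_exp_smul]
      refine integral_congr_ae (Filter.Eventually.of_forall fun s => ?_)
      simp only [smul_eq_mul]
      rw [mul_comm]
    have hp : pairSum x (𝓕 φ) T = ∑ m : win x T, ∑ n : win x T, 𝓕 φ (x m - x n) := by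
      rw [pairSum, tsum_fintype, Fintype.sum_prod_type]
    rw [hp]
    calc ∫ s, φ s * (dens x T s : ℂ)
        = ∫ s, (∑ m : win x T, ∑ n : win x T,
            φ s * Complex.exp (((-2 * Real.pi * s * (x m - x n) : ℝ) : ℂ) * Complex.I)) /
              ((2 * T : ℝ) : ℂ) := by
          refine integral_congr_ae (Filter.Eventually.of_forall fun s => ?_)
          simp only [hcd, Finset.mul_sum, mul_div_assoc]
          rw [← mul_div_assoc, Finset.mul_sum]
          simp only [Finset.mul_sum]
      _ = (∫ s, (∑ m : win x T, ∑ n : win x T,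
            φ s * Complex.exp (((-2 * Real.pi * s * (x m - x n) : ℝ) : ℂ) * Complex.I))) /
              ((2 * T : ℝ) : ℂ) := integral_div _ _
      _ = _ := by
          congr 1
          rw [integral_finset_sum _ fun m _ => integrable_finset_sum _ fun n _ => hint _]
          refine Finset.sum_congr rfl fun m _ => ?_
          rw [integral_finset_sum _ fun n _ => hint _]
          refine Finset.sum_congr rfl fun n _ => ?_
          rw [hF]

end Pool.Agent.H212R4.Kes.DensProof
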