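import Mathlib

/-!
Project KESTEN (MP_23b0f8_an Q1, robust disproof).  Definitions and task statements.
-/

open MeasureTheory Filter Topology
open scoped FourierTransform

noncomputable section

namespace Pool.Agent.H212R4.Kes

/-- indicator of the arc `[0, D)` (as a natural number) -/
def ind (D x : ℝ) : ℕ := if Int.fract x < D then 1 else 0

/-- number of `i < r` such that `x + i γ mod 1` is in `[0, D)` -/
def S (D γ : ℝ) (r : ℕ) (x : ℝ) : ℕ := ∑ i ∈ Finset.range r, ind D (x + i * γ)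

/-- distance of the `r`-th next point from a point with circle coordinate `x` -/
def Z (D γ a b : ℝ) (r : ℕ) (x : ℝ) : ℝ := a * r + (b - a) * S D γ r x

/-- mean gap -/
def gap (D a b : ℝ) : ℝ := a * (1 - D) + b * D

/-- the two-sided sequence of points with gap `b` if `x₀ + n γ mod 1` is in `[0, D)`, else `a` -/
def IsSeq (D γ x₀ a b : ℝ) (x : ℤ → ℝ) : Prop :=
  x 0 = 0 ∧ ∀ n : ℤ, x (n + 1) - x n = if Int.fract (x₀ + n * γ) < D then b else a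

/-- continuous with quadratic decay -/
def Dec (f : ℝ → ℂ) : Prop := Continuous f ∧ ∃ C : ℝ, ∀ z, ‖f z‖ ≤ C / (1 + z ^ 2)

def win (x : ℤ → ℝ) (T : ℝ) : Set ℤ := {n | |x n| ≤ T}

def pairSum (x : ℤ → ℝ) (f : ℝ → ℂ) (T : ℝ) : ℂ :=
  ∑' q : win x T × win x T, f (x q.1 - x q.2)

/-- the integral of `f` with respect to the autocorrelation -/
def AF (D γ a b : ℝ) (f : ℝ → ℂ) : ℂ :=
  (1 / (gap D a b : ℂ)) * (f 0 + ∑' r : ℕ, ∫ x in (0 : ℝ)..1,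
    (f (Z D γ a b (r + 1) x) + f (-(Z D γ a b (r + 1) x))))

/-- triangular window with frequency `s` -/
def tri (R s z : ℝ) : ℂ :=
  ((max 0 (1 - |z| / R) / R : ℝ) : ℂ) * Complex.exp (-(2 * Real.pi * s * z : ℝ) * Complex.I)

/-- TASK WEYL -/
def TaskWeyl : Prop := ∀ (D γ θ x₀ : ℝ) (r : ℕ) (g : ℕ → ℂ), 0 < D → D < 1 → Irrational θ →
  Tendsto (fun N : ℕ => (∑ n ∈ Finset.range N, g (S D γ r (x₀ + n * θ))) / (N : ℂ)) atTop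
    (𝓝 (∫ x in (0 : ℝ)..1, g (S D γ r x)))

/-- TASK AC -/
def TaskAC : Prop := ∀ (D γ x₀ a b : ℝ) (x : ℤ → ℝ), 0 < D → D < 1 → Irrational γ →
  0 < a → 0 < b → IsSeq D γ x₀ a b x → ∀ f, Dec f →
    Tendsto (fun T : ℝ => pairSum x f T / ((2 * T : ℝ) : ℂ)) atTop (𝓝 (AF D γ a b f))

/-- TASK ETA -/
def TaskEta : Prop := ∀ D γ a b : ℝ, 0 < D → D < 1 → 0 < a → 0 < b →
  ∃ η : Measure ℝ, IsLocallyFiniteMeasure η ∧
    ∀ f, Dec f → Integrable f η ∧ ∫ z, f z ∂η = AF D γ a b f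

/-- TASK MU -/
def TaskMu : Prop := ∀ (x : ℤ → ℝ) (c : ℝ) (η : Measure ℝ), 0 < c →
  (∀ n, c ≤ x (n + 1) - x n) →
  (∀ f, Dec f → Integrable f η ∧
    Tendsto (fun T : ℝ => pairSum x f T / ((2 * T : ℝ) : ℂ)) atTop (𝓝 (∫ z, f z ∂η))) →
  ∃ μ : Measure ℝ, IsLocallyFiniteMeasure μ ∧
    ∀ φ : ℝ → ℂ, Dec φ → Dec (𝓕 φ) → Integrable φ μ ∧ ∫ s, φ s ∂μ = ∫ z, 𝓕 φ z ∂η

/-- TASK TRI -/
def TaskTri : Prop := ∀ (η μ : Measure ℝ), IsLocallyFiniteMeasure μ →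
  (∀ φ : ℝ → ℂ, Dec φ → Dec (𝓕 φ) → Integrable φ μ ∧ ∫ s, φ s ∂μ = ∫ z, 𝓕 φ z ∂η) →
  ∀ s : ℝ, Tendsto (fun R : ℝ => ∫ z, tri R s z ∂η) atTop (𝓝 (((μ {s}).toReal : ℝ) : ℂ))

/-- TASK EIG -/
def TaskEig : Prop := ∀ (D γ a b s : ℝ) (h : ℝ → ℂ), 0 < D → D < 1 → Irrational γ →
  0 < a → 0 < b → Measurable h → (∀ x, h (x + 1) = h x) → (∀ x, ‖h x‖ = 1) →
  (∀ᵐ x : ℝ, h (x + γ) =
    Complex.exp (-(2 * Real.pi * s * (if Int.fract x < D then b else a) : ℝ) * Complex.I) * h x) →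
  ∀ L : ℝ, Tendsto (fun R : ℝ => AF D γ a b (tri R s)) atTop (𝓝 (L : ℂ)) →
    ‖∫ x in (0 : ℝ)..1, h x‖ ^ 2 / (gap D a b) ^ 2 ≤ L

/-- approximation property of `γ` and `D` -/
def Appr (γ D : ℝ) : Prop := ∃ (K : ℕ → ℕ) (L P : ℕ → ℤ) (Q : ℕ → ℕ),
  (∀ n, Even (K n)) ∧ (∀ n, Even (L n)) ∧ (∀ n, 0 < Q n) ∧
  (∀ n, K (n + 1) = K n + 4 * Q n) ∧ (∀ n, L (n + 1) = L n + 4 * P n) ∧
  Tendsto (fun n => K n * γ - L n) atTop (𝓝 D) ∧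
  Summable (fun n => (Q n : ℝ) * |Q n * γ - P n|)

/-- TASK NUM -/
def TaskNum : Prop := ∃ γ : ℝ, 0 < γ ∧ γ < 1 ∧ Irrational γ ∧
  (∀ j m : ℤ, (1 + 2 * γ) / (1 + 4 * γ) ≠ j * γ + m) ∧ Appr γ ((1 + 2 * γ) / (1 + 4 * γ))

/-- TASK V -/
def TaskV : Prop := ∀ γ D : ℝ, 0 < D → D < 1 → Appr γ D →
  ∃ v : ℝ → ℝ, Measurable v ∧ (∀ x, v x = 1 ∨ v x = -1) ∧ (∀ x, v (x + 1) = v x) ∧
    ∀ᵐ x : ℝ, v (x + γ) * v x = if Int.fract x < D then -1 else 1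

/-- TASK FOUR -/
def TaskFour : Prop := ∀ (γ D : ℝ) (v : ℝ → ℝ), 1 / 2 < D → D < 1 → Measurable v →
  (∀ x, v x = 1 ∨ v x = -1) → (∀ x, v (x + 1) = v x) →
  (∀ᵐ x : ℝ, v (x + γ) * v x = if Int.fract x < D then -1 else 1) →
  {k : ℤ | Odd k ∧ ∫ x in (0 : ℝ)..1,
    Complex.exp (-(2 * Real.pi * k * x : ℝ) * Complex.I) * (v x : ℂ) ≠ 0}.Infinite

/-! Sub-tasks -/

/-- TASK MEAN (assumes `TaskWeyl`) -/
def TaskMean : Prop := ∀ D γ : ℝ, 0 < D → D < 1 → Irrational γ →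
  Tendsto (fun r : ℕ => ∫ x in (0 : ℝ)..1, |(S D γ r x : ℝ) / r - D|) atTop (𝓝 0)

/-- TASK FEJER -/
def TaskFejer : Prop := ∀ (γ : ℝ) (h : ℝ → ℂ), Measurable h → (∀ x, h (x + 1) = h x) →
  (∀ x, ‖h x‖ = 1) → ∀ N : ℕ, 0 < N →
  ‖∫ x in (0 : ℝ)..1, h x‖ ^ 2 ≤ (1 / (N : ℝ)) * (1 + ∑ r ∈ Finset.range N,
    (1 - ((r : ℝ) + 1) / N) *
      (2 * (∫ x in (0 : ℝ)..1, h (x + ((r : ℝ) + 1) * γ) * (starRingEnd ℂ) (h x)).re))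

/-- TASK ERR (assumes `TaskMean`): replacing the window in `z` by a window in `r` -/
def TaskErr : Prop := ∀ D γ a b s : ℝ, 0 < D → D < 1 → Irrational γ → 0 < a → 0 < b →
  Tendsto (fun N : ℕ => AF D γ a b (tri (gap D a b * N) s) -
    (1 / (gap D a b : ℂ)) * (1 / ((gap D a b * N : ℝ) : ℂ)) *
      (1 + ∑ r ∈ Finset.range N, ((1 - ((r : ℝ) + 1) / N : ℝ) : ℂ) *
        ∫ x in (0 : ℝ)..1,
          (Complex.exp (-(2 * Real.pi * s * Z D γ a b (r + 1) x : ℝ) * Complex.I) +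
           Complex.exp ((2 * Real.pi * s * Z D γ a b (r + 1) x : ℝ) * Complex.I)))) atTop (𝓝 0)

/-- sum over the pairs of points in `[-T, T]` which are `r` steps apart -/
def rsum (x : ℤ → ℝ) (f : ℝ → ℂ) (r : ℕ) (T : ℝ) : ℂ :=
  ∑' n : {n : ℤ // |x n| ≤ T ∧ |x (n + r)| ≤ T}, f (x (n.1 + r) - x n.1)

/-- TASK ACR (assumes `TaskWeyl`) -/
def TaskACr : Prop := ∀ (D γ x₀ a b : ℝ) (x : ℤ → ℝ), 0 < D → D < 1 → Irrational γ →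
  0 < a → 0 < b → IsSeq D γ x₀ a b x → ∀ (f : ℝ → ℂ) (r : ℕ),
    Tendsto (fun T : ℝ => rsum x f r T / ((2 * T : ℝ) : ℂ)) atTop
      (𝓝 ((1 / (gap D a b : ℂ)) * ∫ y in (0 : ℝ)..1, f (Z D γ a b r y)))

/-- TASK PS -/
def TaskPS : Prop := ∀ (x : ℤ → ℝ) (c : ℝ), 0 < c → (∀ n, c ≤ x (n + 1) - x n) →
  ∀ f : ℝ → ℂ, Dec f → ∀ T : ℝ,
    Summable (fun r : ℕ => rsum x f (r + 1) T + rsum x (fun z => f (-z)) (r + 1) T) ∧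
    pairSum x f T = rsum x f 0 T +
      ∑' r : ℕ, (rsum x f (r + 1) T + rsum x (fun z => f (-z)) (r + 1) T)

/-- TASK RB -/
def TaskRB : Prop := ∀ (x : ℤ → ℝ) (c : ℝ), 0 < c → (∀ n, c ≤ x (n + 1) - x n) →
  ∀ (f : ℝ → ℂ) (C : ℝ), (∀ z, ‖f z‖ ≤ C / (1 + z ^ 2)) → ∀ (r : ℕ) (T : ℝ), 0 ≤ T →
    ‖rsum x f r T‖ ≤ (2 * T / c + 1) * (C / (1 + (c * r) ^ 2))

/-- density of the diffraction of `Λ ∩ [-T, T]` -/
def dens (x : ℤ → ℝ) (T s : ℝ) : ℝ :=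
  ‖∑' n : win x T, Complex.exp (-(2 * Real.pi * x n * s : ℝ) * Complex.I)‖ ^ 2 / (2 * T)

/-- TASK DENS -/
def TaskDens : Prop := ∀ (x : ℤ → ℝ) (c : ℝ), 0 < c → (∀ n, c ≤ x (n + 1) - x n) →
  ∀ T : ℝ, 0 < T → Continuous (dens x T) ∧ (∃ B, ∀ s, dens x T s ≤ B) ∧
    ∀ φ : ℝ → ℂ, Integrable φ →
      ∫ s, φ s * (dens x T s : ℂ) = pairSum x (𝓕 φ) T / ((2 * T : ℝ) : ℂ)

/-- TASK LB (assumes `TaskDens`, `TaskPS`, `TaskRB`): uniform local bound -/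
def TaskLB : Prop := ∀ (x : ℤ → ℝ) (c : ℝ), 0 < c → (∀ n, c ≤ x (n + 1) - x n) →
  ∃ B : ℝ, ∀ T : ℝ, 1 ≤ T → ∀ t : ℝ, ∫ s in Set.Icc t (t + 1), dens x T s ≤ B

/-! The final statement -/

/-- the staircase of the problem: `p 0 = 0` and the step from `p n` to `p (n + 1)` is
`e₂` if `x₀ + n γ mod 1` is in `[0, D)`, otherwise `e₁` -/
def IsStaircase (D γ x₀ : ℝ) (p : ℤ → ℤ × ℤ) : Prop :=
  p 0 = 0 ∧ ∀ n : ℤ, p (n + 1) - p n = if Int.fract (x₀ + n * γ) < D then (0, 1) else (1, 0)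

/-- coordinate of the orthogonal projection to the line through `0` and `(1 - D, D)`
(with respect to the unit vector of the line) -/
def proj (D : ℝ) (q : ℤ × ℤ) : ℝ :=
  ((1 - D) * q.1 + D * q.2) / Real.sqrt ((1 - D) ^ 2 + D ^ 2)

/-- `Π(H)` -/
def ProjSet (D : ℝ) (p : ℤ → ℤ × ℤ) : Set ℝ := Set.range fun n => proj D (p n)

/-- `η` is the autocorrelation of `Λ`: the vague limit of
`(2 T)⁻¹ ∑_{x, y ∈ Λ ∩ [-T, T]} δ_{x - y}` -/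
def IsAutocorrelation (Λ : Set ℝ) (η : Measure ℝ) : Prop :=
  IsLocallyFiniteMeasure η ∧ ∀ f : ℝ → ℝ, Continuous f → HasCompactSupport f →
    Tendsto (fun T : ℝ =>
      (∑' q : ↥(Λ ∩ Set.Icc (-T) T) × ↥(Λ ∩ Set.Icc (-T) T), f ((q.1 : ℝ) - q.2)) / (2 * T))
      atTop (𝓝 (∫ z, f z ∂η))

/-- `μ` is the Fourier transform of `η` (as tempered distributions) -/
def IsFourier (η μ : Measure ℝ) : Prop :=
  IsLocallyFiniteMeasure μ ∧ ∀ φ : SchwartzMap ℝ ℂ, Integrable (φ : ℝ → ℂ) μ ∧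
    Integrable (𝓕 (φ : ℝ → ℂ)) η ∧ ∫ s, φ s ∂μ = ∫ z, 𝓕 (φ : ℝ → ℂ) z ∂η

/-- the diffraction condition: the diffraction measure has countably infinitely many atoms -/
def DiffractionCondition (Λ : Set ℝ) : Prop :=
  ∃ η μ : Measure ℝ, IsAutocorrelation Λ η ∧ IsFourier η μ ∧
    {s : ℝ | μ {s} ≠ 0}.Countable ∧ {s : ℝ | μ {s} ≠ 0}.Infinite

/-- the final theorem -/
def Final : Prop := ∃ D γ : ℝ, 0 < D ∧ D < 1 ∧ Irrational γ ∧ Irrational D ∧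
  (∀ j m : ℤ, D ≠ j * γ + m) ∧
  ∀ x₀ : ℝ, (∃ p, IsStaircase D γ x₀ p) ∧
    ∀ p, IsStaircase D γ x₀ p → DiffractionCondition (ProjSet D p)

end Pool.Agent.H212R4.Kes
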