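import Mathlib
import Pool.Agent.H212R4.Kes.Stmts

/-!
Project KESTEN, task Eig (helper174).
-/

open MeasureTheory Filter Topology

noncomputable section

namespace Pool.Agent.H212R4.Kes

theorem eig_shift {P : ℝ → Prop} (hP : ∀ᵐ x : ℝ, P x) (c : ℝ) : ∀ᵐ x : ℝ, P (x + c) :=
  (measurePreserving_add_right volume c).quasiMeasurePreserving.ae hP

theorem eig_Z_succ (D γ a b : ℝ) (r : ℕ) (x : ℝ) :
    Z D γ a b (r + 1) x = Z D γ a b r x + (if Int.fract (x + r * γ) < D then b else a) := by
  unfold Z S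
  rw [Finset.sum_range_succ]
  unfold ind
  split_ifs <;> push_cast <;> ring

theorem eig_iter {D γ a b s : ℝ} {h : ℝ → ℂ} {x : ℝ}
    (hx : ∀ i : ℕ, h (x + i * γ + γ) =
      Complex.exp (-(2 * Real.pi * s * (if Int.fract (x + i * γ) < D then b else a) : ℝ) *
        Complex.I) * h (x + i * γ)) (r : ℕ) :
    h (x + r * γ) =
      Complex.exp (-(2 * Real.pi * s * Z D γ a b r x : ℝ) * Complex.I) * h x := by
  induction r with
  | zero => simp [Z, S]
  | succ r ih =>
    have h1 : x + ((r + 1 : ℕ) : ℝ) * γ = x + r * γ + γ := by push_cast; ring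
    rw [h1, hx r, ih, eig_Z_succ, ← mul_assoc, ← Complex.exp_add]
    congr 2
    push_cast
    ring

theorem eig_exp_eq {D γ a b s : ℝ} {h : ℝ → ℂ} {x : ℝ} (h1 : ∀ x, ‖h x‖ = 1)
    (hx : ∀ i : ℕ, h (x + i * γ + γ) =
      Complex.exp (-(2 * Real.pi * s * (if Int.fract (x + i * γ) < D then b else a) : ℝ) *
        Complex.I) * h (x + i * γ)) (r : ℕ) :
    Complex.exp (-(2 * Real.pi * s * Z D γ a b (r + 1) x : ℝ) * Complex.I) +
      Complex.exp ((2 * Real.pi * s * Z D γ a b (r + 1) x : ℝ) * Complex.I) =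
    ((2 * (h (x + ((r : ℝ) + 1) * γ) * (starRingEnd ℂ) (h x)).re : ℝ) : ℂ) := by
  have e1 := eig_iter hx (r + 1)
  have e2 : h x * (starRingEnd ℂ) (h x) = 1 := by
    rw [Complex.mul_conj, Complex.normSq_eq_norm_sq, h1 x]; simp
  have e3 : h (x + ((r : ℝ) + 1) * γ) * (starRingEnd ℂ) (h x) =
      Complex.exp (-(2 * Real.pi * s * Z D γ a b (r + 1) x : ℝ) * Complex.I) := by
    have : x + ((r : ℝ) + 1) * γ = x + ((r + 1 : ℕ) : ℝ) * γ := by push_cast; ring
    rw [this, e1, mul_assoc, e2, mul_one]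
  rw [e3]
  have e4 : Complex.exp ((2 * Real.pi * s * Z D γ a b (r + 1) x : ℝ) * Complex.I) =
      (starRingEnd ℂ) (Complex.exp
        (-(2 * Real.pi * s * Z D γ a b (r + 1) x : ℝ) * Complex.I)) := by
    rw [← Complex.exp_conj]
    congr 1
    rw [map_mul, map_neg, Complex.conj_ofReal, Complex.conj_I]
    ring
  rw [e4, Complex.add_conj]

theorem eig : TaskFejer → TaskErr → TaskEig := by
  intro hF hE D γ a b s h hD0 hD1 hγ ha hb hm hper h1 hrel L hL
  have hg : 0 < gap D a b := by
    unfold gap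
    have : 0 < a * (1 - D) := mul_pos ha (by linarith)
    have : 0 < b * D := mul_pos hb hD0
    linarith
  -- the a.e. relation along the whole orbit
  have hall : ∀ᵐ x : ℝ, ∀ i : ℕ, h (x + i * γ + γ) =
      Complex.exp (-(2 * Real.pi * s * (if Int.fract (x + i * γ) < D then b else a) : ℝ) *
        Complex.I) * h (x + i * γ) := by
    rw [ae_all_iff]
    intro i
    exact eig_shift hrel (i * γ)
  -- the integrals
  have hint : ∀ r : ℕ, ∫ x in (0 : ℝ)..1,
          (Complex.exp (-(2 * Real.pi * s * Z D γ a b (r + 1) x : ℝ) * Complex.I) +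
           Complex.exp ((2 * Real.pi * s * Z D γ a b (r + 1) x : ℝ) * Complex.I)) =
      ((2 * (∫ x in (0 : ℝ)..1, h (x + ((r : ℝ) + 1) * γ) *
        (starRingEnd ℂ) (h x)).re : ℝ) : ℂ) := by
    intro r
    have i1 : ∫ x in (0 : ℝ)..1,
          (Complex.exp (-(2 * Real.pi * s * Z D γ a b (r + 1) x : ℝ) * Complex.I) +
           Complex.exp ((2 * Real.pi * s * Z D γ a b (r + 1) x : ℝ) * Complex.I)) =
        ∫ x in (0 : ℝ)..1, ((2 * (h (x + ((r : ℝ) + 1) * γ) *
          (starRingEnd ℂ) (h x)).re : ℝ) : ℂ) := by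
      apply intervalIntegral.integral_congr_ae
      filter_upwards [hall] with x hx _
      exact eig_exp_eq h1 hx r
    rw [i1, intervalIntegral.integral_ofReal, intervalIntegral.integral_const_mul]
    congr 2
    have hgi : Integrable (fun x => h (x + ((r : ℝ) + 1) * γ) * (starRingEnd ℂ) (h x))
        (volume.restrict (Set.Ioc (0 : ℝ) 1)) := by
      apply Integrable.of_bound (C := 1)
      · apply Measurable.aestronglyMeasurable
        have m1 : Measurable (fun x => h (x + ((r : ℝ) + 1) * γ)) :=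
          hm.comp (measurable_id.add_const _)
        have m2 : Measurable (fun x => (starRingEnd ℂ) (h x)) :=
          Complex.continuous_conj.measurable.comp hm
        exact m1.mul m2
      · refine Eventually.of_forall fun x => ?_
        rw [norm_mul, h1, RCLike.norm_conj, h1]
        norm_num
    rw [intervalIntegral.integral_of_le zero_le_one, intervalIntegral.integral_of_le zero_le_one]
    have := integral_re hgi
    simpa using this
  -- the main term is real
  set M : ℕ → ℝ := fun N => (1 / gap D a b) * (1 / (gap D a b * N)) *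
    (1 + ∑ r ∈ Finset.range N, (1 - ((r : ℝ) + 1) / N) *
      (2 * (∫ x in (0 : ℝ)..1, h (x + ((r : ℝ) + 1) * γ) * (starRingEnd ℂ) (h x)).re)) with hM
  have hmain : ∀ N : ℕ, (1 / (gap D a b : ℂ)) * (1 / ((gap D a b * N : ℝ) : ℂ)) *
      (1 + ∑ r ∈ Finset.range N, ((1 - ((r : ℝ) + 1) / N : ℝ) : ℂ) *
        ∫ x in (0 : ℝ)..1,
          (Complex.exp (-(2 * Real.pi * s * Z D γ a b (r + 1) x : ℝ) * Complex.I) +
           Complex.exp ((2 * Real.pi * s * Z D γ a b (r + 1) x : ℝ) * Complex.I))) =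
      ((M N : ℝ) : ℂ) := by
    intro N
    simp only [hM, hint]
    push_cast
    rfl
  have hlow : ∀ N : ℕ, 0 < N → ‖∫ x in (0 : ℝ)..1, h x‖ ^ 2 / (gap D a b) ^ 2 ≤ M N := by
    intro N hN
    have hF' := hF γ h hm hper h1 N hN
    have hNr : (0 : ℝ) < N := by exact_mod_cast hN
    have hMN : M N = ((1 / (N : ℝ)) * (1 + ∑ r ∈ Finset.range N,
      (1 - ((r : ℝ) + 1) / N) *
      (2 * (∫ x in (0 : ℝ)..1, h (x + ((r : ℝ) + 1) * γ) * (starRingEnd ℂ) (h x)).re))) /
        (gap D a b) ^ 2 := by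
      simp only [hM]
      generalize (1 + ∑ r ∈ Finset.range N, (1 - ((r : ℝ) + 1) / N) *
        (2 * (∫ x in (0 : ℝ)..1, h (x + ((r : ℝ) + 1) * γ) * (starRingEnd ℂ) (h x)).re)) = A
      field_simp
    rw [hMN]
    exact div_le_div_of_nonneg_right hF' (by positivity)
  have hN : Tendsto (fun N : ℕ => gap D a b * (N : ℝ)) atTop atTop :=
    tendsto_natCast_atTop_atTop.const_mul_atTop hg
  have hAF := hL.comp hN
  have hE' := hE D γ a b s hD0 hD1 hγ ha hb
  have hMlim : Tendsto (fun N : ℕ => ((M N : ℝ) : ℂ)) atTop (𝓝 (L : ℂ)) := by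
    have := hAF.sub hE'
    rw [sub_zero] at this
    refine this.congr fun N => ?_
    simp only [Function.comp]
    rw [hmain N]
    ring
  have hMre : Tendsto M atTop (𝓝 L) := by
    have := (Complex.continuous_re.tendsto _).comp hMlim
    simpa [Function.comp_def] using this
  refine ge_of_tendsto hMre ?_
  filter_upwards [eventually_gt_atTop 0] with N hN
  exact hlow N hN

end Pool.Agent.H212R4.Kes
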