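import Pool.Agent.H212R4.Kes.Stmts

open MeasureTheory Filter Topology

noncomputable section

namespace Pool.Agent.H212R4.Kes.ErrH632

open Pool.Agent.H212R4.Kes

lemma measurable_ind (D : ℝ) : Measurable (ind D) := by
  unfold ind
  exact Measurable.ite (measurableSet_lt measurable_fract measurable_const) measurable_const
    measurable_const

lemma measurable_S (D γ : ℝ) (r : ℕ) : Measurable (S D γ r) := by
  unfold S
  refine Finset.measurable_fun_sum _ (fun i _ => ?_)
  exact (measurable_ind D).comp (measurable_id.add_const _)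

lemma S_le (D γ : ℝ) (r : ℕ) (x : ℝ) : S D γ r x ≤ r := by
  unfold S
  refine (Finset.sum_le_card_nsmul _ _ 1 (fun i _ => ?_)).trans (by simp)
  unfold ind; split_ifs <;> omega

lemma measurable_Z (D γ a b : ℝ) (r : ℕ) : Measurable (Z D γ a b r) := by
  unfold Z
  have h : Measurable (fun x => (S D γ r x : ℝ)) :=
    (measurable_of_countable (fun n : ℕ => (n : ℝ))).comp (measurable_S D γ r)
  exact (h.const_mul _).const_add _

lemma Z_lower (D γ a b : ℝ) (r : ℕ) (x : ℝ) : min a b * r ≤ Z D γ a b r x := by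
  unfold Z
  have h1 : (S D γ r x : ℝ) ≤ r := by exact_mod_cast S_le D γ r x
  have h2 : (0 : ℝ) ≤ S D γ r x := Nat.cast_nonneg _
  have h3 := min_le_left a b
  have h4 := min_le_right a b
  nlinarith

lemma ii_of_bdd {E : Type*} [NormedAddCommGroup E] {f : ℝ → E} (C : ℝ)
    (hf : AEStronglyMeasurable f (volume.restrict (Set.uIoc (0:ℝ) 1))) (hb : ∀ x, ‖f x‖ ≤ C) :
    IntervalIntegrable f volume 0 1 :=
  IntervalIntegrable.mono_fun' (intervalIntegrable_const (c := C)) hf (ae_of_all _ hb)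

/-- the sum of the two exponentials -/
def EE (D γ a b s : ℝ) (r : ℕ) (x : ℝ) : ℂ :=
  Complex.exp (-(2 * Real.pi * s * Z D γ a b r x : ℝ) * Complex.I) +
    Complex.exp ((2 * Real.pi * s * Z D γ a b r x : ℝ) * Complex.I)

lemma EE_norm (D γ a b s : ℝ) (r : ℕ) (x : ℝ) : ‖EE D γ a b s r x‖ ≤ 2 := by
  unfold EE
  refine (norm_add_le _ _).trans ?_
  have h1 : ‖Complex.exp (-(2 * Real.pi * s * Z D γ a b r x : ℝ) * Complex.I)‖ = 1 := by
    rw [← Complex.ofReal_neg]; exact Complex.norm_exp_ofReal_mul_I _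
  have h2 : ‖Complex.exp ((2 * Real.pi * s * Z D γ a b r x : ℝ) * Complex.I)‖ = 1 :=
    Complex.norm_exp_ofReal_mul_I _
  rw [h1, h2]; norm_num

lemma EE_meas (D γ a b s : ℝ) (r : ℕ) : Measurable (EE D γ a b s r) := by
  unfold EE
  have hz := measurable_Z D γ a b r
  have h1 : Measurable (fun x => ((2 * Real.pi * s * Z D γ a b r x : ℝ) : ℂ)) :=
    Complex.measurable_ofReal.comp (hz.const_mul _)
  exact ((h1.neg.mul_const _).cexp).add ((h1.mul_const _).cexp)

lemma max_lip (u w : ℝ) : |max 0 (1 - u) - max 0 (1 - w)| ≤ |u - w| := by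
  have h := abs_max_sub_max_le_abs (1 - u) (1 - w) 0
  rw [max_comm 0 (1 - u), max_comm 0 (1 - w)]
  refine h.trans (le_of_eq ?_)
  rw [show (1 - u) - (1 - w) = -(u - w) by ring, abs_neg]

theorem err : TaskMean → TaskErr := by
  intro hmean D γ a b s hD0 hD1 hγ ha hb
  set g : ℝ := gap D a b with hg
  set m : ℝ := min a b with hm
  have hm0 : 0 < m := lt_min ha hb
  have hgm : m ≤ g := by
    rw [hg, gap]
    have h3 : m ≤ a := min_le_left a b
    have h4 : m ≤ b := min_le_right a b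
    nlinarith
  have hg0 : 0 < g := lt_of_lt_of_le hm0 hgm
  obtain ⟨M, hM⟩ := exists_nat_ge (g / m)
  have hM1 : (1 : ℝ) ≤ M := le_trans (by rw [le_div_iff₀ hm0]; linarith) hM
  have hMm : g ≤ M * m := by rwa [div_le_iff₀ hm0] at hM
  set θ : ℕ → ℝ := fun r => ∫ x in (0 : ℝ)..1, |(S D γ r x : ℝ) / r - D| with hθ
  have hθ0 : ∀ r, 0 ≤ θ r := fun r =>
    intervalIntegral.integral_nonneg (by norm_num) (fun x _ => abs_nonneg _)
  have hθlim : Tendsto θ atTop (𝓝 0) := hmean D γ hD0 hD1 hγ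
  have hces := ((tendsto_add_atTop_iff_nat 1).2 hθlim).cesaro
  have hMN : Tendsto (fun N : ℕ => M * N) atTop atTop := by
    have hM1' : 1 ≤ M := by exact_mod_cast hM1
    exact tendsto_atTop_mono (fun N => Nat.le_mul_of_pos_left N hM1') tendsto_id
  have hces2 := hces.comp hMN
  have hlim : Tendsto (fun N : ℕ => (2 * |b - a| * M ^ 2 / g ^ 3) *
      ((((M * N : ℕ) : ℝ)⁻¹) * ∑ i ∈ Finset.range (M * N), θ (i + 1))) atTop (𝓝 0) := by
    have := hces2.const_mul (2 * |b - a| * M ^ 2 / g ^ 3)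
    rw [mul_zero] at this
    exact this
  refine squeeze_zero_norm' ?_ hlim
  filter_upwards [eventually_ge_atTop 1] with N hN
  have hNr : (1 : ℝ) ≤ N := by exact_mod_cast hN
  have hN0 : (0 : ℝ) < N := by linarith
  set R : ℝ := g * N with hR
  have hR0 : 0 < R := by positivity
  set K : ℕ := M * N with hK
  -- the window in `r`
  set w : ℕ → ℝ := fun r => max 0 (1 - ((r : ℝ) + 1) / N) with hw
  set F : ℕ → ℝ → ℂ := fun r x =>
    tri R s (Z D γ a b (r + 1) x) + tri R s (-(Z D γ a b (r + 1) x)) with hF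
  have hFE : ∀ r x, F r x = ((max 0 (1 - Z D γ a b (r + 1) x / R) / R : ℝ) : ℂ) *
      EE D γ a b s (r + 1) x := by
    intro r x
    have hz : 0 ≤ Z D γ a b (r + 1) x := by
      have := Z_lower D γ a b (r + 1) x
      have h2 : 0 ≤ min a b * ((r + 1 : ℕ) : ℝ) := by positivity
      linarith
    simp only [hF, tri, EE, abs_neg, abs_of_nonneg hz]
    rw [mul_add]
    congr 2
    rw [show (2 * Real.pi * s * -Z D γ a b (r + 1) x : ℝ) =
      -(2 * Real.pi * s * Z D γ a b (r + 1) x) by ring, Complex.ofReal_neg, neg_neg]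
  have hvan : ∀ r, K ≤ r → ∀ x, F r x = 0 := by
    intro r hr x
    rw [hFE]
    have h1 : max 0 (1 - Z D γ a b (r + 1) x / R) = 0 := by
      apply max_eq_left
      have h2 : R ≤ Z D γ a b (r + 1) x := by
        have h3 := Z_lower D γ a b (r + 1) x
        have h4 : R ≤ m * ((r + 1 : ℕ) : ℝ) := by
          have h5 : ((M * N : ℕ) : ℝ) ≤ r := by exact_mod_cast hr
          push_cast at h5 ⊢
          rw [hR]
          calc g * N ≤ (M * m) * N := mul_le_mul_of_nonneg_right hMm hN0.le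
            _ = m * (M * N) := by ring
            _ ≤ m * (r + 1) := mul_le_mul_of_nonneg_left (by linarith) hm0.le
        exact h4.trans h3
      have : 1 ≤ Z D γ a b (r + 1) x / R := by rw [le_div_iff₀ hR0]; linarith
      linarith
    rw [h1]; simp
  have htsum : (∑' r : ℕ, ∫ x in (0 : ℝ)..1, F r x) =
      ∑ r ∈ Finset.range K, ∫ x in (0 : ℝ)..1, F r x := by
    apply tsum_eq_sum
    intro r hr
    rw [Finset.mem_range, not_lt] at hr
    have : (fun x => F r x) = fun _ => 0 := by funext x; exact hvan r hr x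
    rw [this]; simp
  have hNK : N ≤ K := by
    have hM1' : 1 ≤ M := by exact_mod_cast hM1
    exact Nat.le_mul_of_pos_left N hM1'
  have hw1 : ∀ r ∈ Finset.range N, ((1 - ((r : ℝ) + 1) / N : ℝ) : ℂ) = ((w r : ℝ) : ℂ) := by
    intro r hr
    rw [Finset.mem_range] at hr
    have : ((r : ℝ) + 1) ≤ N := by exact_mod_cast hr
    rw [hw]
    simp only
    rw [max_eq_right]
    have : ((r : ℝ) + 1) / N ≤ 1 := by rw [div_le_one hN0]; exact this
    linarith
  have hw2 : ∀ r, N ≤ r → w r = 0 := by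
    intro r hr
    have : (N : ℝ) ≤ r := by exact_mod_cast hr
    simp only [hw]
    apply max_eq_left
    have : 1 ≤ ((r : ℝ) + 1) / N := by rw [le_div_iff₀ hN0]; linarith
    linarith
  have hsum2 : ∑ r ∈ Finset.range N, ((1 - ((r : ℝ) + 1) / N : ℝ) : ℂ) *
      ∫ x in (0 : ℝ)..1, EE D γ a b s (r + 1) x =
      ∑ r ∈ Finset.range K, ((w r : ℝ) : ℂ) * ∫ x in (0 : ℝ)..1, EE D γ a b s (r + 1) x := by
    rw [Finset.sum_congr rfl (fun r hr => by rw [hw1 r hr])]
    refine Finset.sum_subset (Finset.range_mono hNK) (fun r _ hr => ?_)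
    rw [Finset.mem_range, not_lt] at hr
    rw [hw2 r hr]; simp
  have hEi : ∀ r, IntervalIntegrable (EE D γ a b s r) volume 0 1 := fun r =>
    ii_of_bdd 2 (EE_meas D γ a b s r).aestronglyMeasurable (EE_norm D γ a b s r)
  have hcoef : ∀ r, Measurable (fun x => max 0 (1 - Z D γ a b (r + 1) x / R) / R) := fun r =>
    (measurable_const.max ((measurable_const.sub ((measurable_Z D γ a b (r + 1)).div_const R)))).div_const R
  have hFm : ∀ r, Measurable (F r) := by
    intro r
    have : F r = fun x => ((max 0 (1 - Z D γ a b (r + 1) x / R) / R : ℝ) : ℂ) *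
      EE D γ a b s (r + 1) x := by funext x; exact hFE r x
    rw [this]
    exact (Complex.measurable_ofReal.comp (hcoef r)).mul (EE_meas D γ a b s (r + 1))
  have hFi : ∀ r, IntervalIntegrable (F r) volume 0 1 := by
    intro r
    refine ii_of_bdd (1 / R * 2) (hFm r).aestronglyMeasurable (fun x => ?_)
    rw [hFE, norm_mul]
    refine mul_le_mul ?_ (EE_norm _ _ _ _ _ _ _) (norm_nonneg _) (by positivity)
    rw [Complex.norm_real, Real.norm_of_nonneg (by positivity)]
    apply div_le_div_of_nonneg_right _ hR0.le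
    apply max_le zero_le_one
    have hz : 0 ≤ Z D γ a b (r + 1) x := by
      have := Z_lower D γ a b (r + 1) x
      have h2 : 0 ≤ min a b * ((r + 1 : ℕ) : ℝ) := by positivity
      linarith
    have : 0 ≤ Z D γ a b (r + 1) x / R := by positivity
    linarith
  -- the difference
  have hdiff : AF D γ a b (tri R s) -
    (1 / (g : ℂ)) * (1 / ((R : ℝ) : ℂ)) *
      (1 + ∑ r ∈ Finset.range N, ((1 - ((r : ℝ) + 1) / N : ℝ) : ℂ) *
        ∫ x in (0 : ℝ)..1, EE D γ a b s (r + 1) x) =
      (1 / (g : ℂ)) * ∑ r ∈ Finset.range K, ∫ x in (0 : ℝ)..1,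
        (F r x - ((w r / R : ℝ) : ℂ) * EE D γ a b s (r + 1) x) := by
    have h0 : tri R s 0 = 1 / ((R : ℝ) : ℂ) := by
      simp [tri]
    unfold AF
    rw [hsum2, h0]
    have h1 : (∑' r : ℕ, ∫ x in (0 : ℝ)..1,
        (tri R s (Z D γ a b (r + 1) x) + tri R s (-(Z D γ a b (r + 1) x)))) =
        ∑ r ∈ Finset.range K, ∫ x in (0 : ℝ)..1, F r x := htsum
    rw [h1]
    have h2 : ∀ r, ∫ x in (0 : ℝ)..1, (F r x - ((w r / R : ℝ) : ℂ) * EE D γ a b s (r + 1) x) =
        (∫ x in (0 : ℝ)..1, F r x) - ((w r / R : ℝ) : ℂ) *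
          ∫ x in (0 : ℝ)..1, EE D γ a b s (r + 1) x := by
      intro r
      rw [intervalIntegral.integral_sub (hFi r) ((hEi (r + 1)).const_mul _),
        intervalIntegral.integral_const_mul]
    rw [Finset.sum_congr rfl (fun r _ => h2 r), Finset.sum_sub_distrib]
    have h3 : ∑ r ∈ Finset.range K, ((w r / R : ℝ) : ℂ) *
        ∫ x in (0 : ℝ)..1, EE D γ a b s (r + 1) x =
        (1 / ((R : ℝ) : ℂ)) * ∑ r ∈ Finset.range K, ((w r : ℝ) : ℂ) *
          ∫ x in (0 : ℝ)..1, EE D γ a b s (r + 1) x := by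
      rw [Finset.mul_sum]
      refine Finset.sum_congr rfl (fun r _ => ?_)
      push_cast; ring
    rw [h3]
    ring
  have hgoal : AF D γ a b (tri (g * N) s) -
    (1 / (g : ℂ)) * (1 / ((g * N : ℝ) : ℂ)) *
      (1 + ∑ r ∈ Finset.range N, ((1 - ((r : ℝ) + 1) / N : ℝ) : ℂ) *
        ∫ x in (0 : ℝ)..1,
          (Complex.exp (-(2 * Real.pi * s * Z D γ a b (r + 1) x : ℝ) * Complex.I) +
           Complex.exp ((2 * Real.pi * s * Z D γ a b (r + 1) x : ℝ) * Complex.I))) =
      (1 / (g : ℂ)) * ∑ r ∈ Finset.range K, ∫ x in (0 : ℝ)..1,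
        (F r x - ((w r / R : ℝ) : ℂ) * EE D γ a b s (r + 1) x) := hdiff
  rw [hgoal, norm_mul]
  have hn1 : ‖(1 / (g : ℂ))‖ = 1 / g := by
    rw [norm_div, norm_one, Complex.norm_real, Real.norm_of_nonneg hg0.le]
  rw [hn1]
  -- each term
  have hterm : ∀ r ∈ Finset.range K, ‖∫ x in (0 : ℝ)..1,
      (F r x - ((w r / R : ℝ) : ℂ) * EE D γ a b s (r + 1) x)‖ ≤
      (2 * |b - a| * (M * N) / R ^ 2) * θ (r + 1) := by
    intro r hr
    rw [Finset.mem_range] at hr
    have hrK : ((r : ℝ) + 1) ≤ M * N := by exact_mod_cast hr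
    refine (intervalIntegral.norm_integral_le_integral_norm (by norm_num)).trans ?_
    rw [hθ]
    simp only
    rw [← intervalIntegral.integral_const_mul]
    apply intervalIntegral.integral_mono_on (by norm_num)
    · exact ((hFi r).sub ((hEi (r + 1)).const_mul _)).norm
    · apply IntervalIntegrable.const_mul
      refine ii_of_bdd (1 + D) ?_ (fun x => ?_)
      · have h : Measurable (fun x => (S D γ (r + 1) x : ℝ)) :=
          (measurable_of_countable (fun n : ℕ => (n : ℝ))).comp (measurable_S D γ (r + 1))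
        exact ((h.div_const _).sub_const _).norm.aestronglyMeasurable
      · rw [Real.norm_eq_abs, abs_abs]
        have h1 : (S D γ (r + 1) x : ℝ) ≤ ((r + 1 : ℕ) : ℝ) := by exact_mod_cast S_le D γ (r + 1) x
        have h2 : (0 : ℝ) ≤ S D γ (r + 1) x := Nat.cast_nonneg _
        have h3 : (0 : ℝ) < ((r + 1 : ℕ) : ℝ) := by positivity
        have h4 : (S D γ (r + 1) x : ℝ) / ((r + 1 : ℕ) : ℝ) ≤ 1 := by rw [div_le_one h3]; exact h1
        have h5 : 0 ≤ (S D γ (r + 1) x : ℝ) / ((r + 1 : ℕ) : ℝ) := by positivity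
        rw [abs_le]; constructor <;> linarith
    · intro x _
      rw [hFE]
      have e1 : ((max 0 (1 - Z D γ a b (r + 1) x / R) / R : ℝ) : ℂ) * EE D γ a b s (r + 1) x -
          ((w r / R : ℝ) : ℂ) * EE D γ a b s (r + 1) x =
          (((max 0 (1 - Z D γ a b (r + 1) x / R) - w r) / R : ℝ) : ℂ) *
            EE D γ a b s (r + 1) x := by push_cast; ring
      rw [e1, norm_mul, Complex.norm_real, Real.norm_eq_abs, abs_div, abs_of_pos hR0]
      have e2 : w r = max 0 (1 - (g * ((r : ℝ) + 1)) / R) := by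
        simp only [hw]
        congr 2
        rw [hR]; field_simp
      have e3 : |max 0 (1 - Z D γ a b (r + 1) x / R) - w r| ≤
          |b - a| * ((r : ℝ) + 1) * |(S D γ (r + 1) x : ℝ) / ((r + 1 : ℕ) : ℝ) - D| / R := by
        rw [e2]
        refine (max_lip _ _).trans (le_of_eq ?_)
        have h3 : (((r + 1 : ℕ) : ℝ)) ≠ 0 := by positivity
        have e4 : Z D γ a b (r + 1) x / R - g * ((r : ℝ) + 1) / R =
            ((b - a) * (((r : ℝ) + 1)) * ((S D γ (r + 1) x : ℝ) / ((r + 1 : ℕ) : ℝ) - D)) / R := by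
          rw [← sub_div]
          congr 1
          rw [hg, gap, Z]
          push_cast at h3 ⊢
          field_simp
          ring
        rw [e4, abs_div, abs_mul, abs_mul, abs_of_pos hR0,
          abs_of_nonneg (by positivity : (0:ℝ) ≤ (r : ℝ) + 1)]
      have e5 := EE_norm D γ a b s (r + 1) x
      set Δ : ℝ := |(S D γ (r + 1) x : ℝ) / ((r + 1 : ℕ) : ℝ) - D| with hΔ
      have hΔ0 : 0 ≤ Δ := abs_nonneg _
      have e6 : |b - a| * ((r : ℝ) + 1) * Δ / R ≤ |b - a| * (M * N) * Δ / R := by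
        apply div_le_div_of_nonneg_right _ hR0.le
        apply mul_le_mul_of_nonneg_right _ hΔ0
        exact mul_le_mul_of_nonneg_left hrK (abs_nonneg _)
      calc |max 0 (1 - Z D γ a b (r + 1) x / R) - w r| / R * ‖EE D γ a b s (r + 1) x‖
          ≤ (|b - a| * (M * N) * Δ / R) / R * 2 := by
            apply mul_le_mul _ e5 (norm_nonneg _) (by positivity)
            exact div_le_div_of_nonneg_right (e3.trans e6) hR0.le
        _ = (2 * |b - a| * (M * N) / R ^ 2) * Δ := by field_simp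
  calc 1 / g * ‖∑ r ∈ Finset.range K, ∫ x in (0 : ℝ)..1,
        (F r x - ((w r / R : ℝ) : ℂ) * EE D γ a b s (r + 1) x)‖
      ≤ 1 / g * ∑ r ∈ Finset.range K, (2 * |b - a| * (M * N) / R ^ 2) * θ (r + 1) := by
        apply mul_le_mul_of_nonneg_left _ (by positivity)
        exact (norm_sum_le _ _).trans (Finset.sum_le_sum hterm)
    _ = (2 * |b - a| * M ^ 2 / g ^ 3) *
      ((((M * N : ℕ) : ℝ)⁻¹) * ∑ i ∈ Finset.range (M * N), θ (i + 1)) := by
        rw [← Finset.mul_sum, ← hK, hR, hK]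
        push_cast
        have : (M : ℝ) ≠ 0 := by linarith
        field_simp

end Pool.Agent.H212R4.Kes.ErrH632
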