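import Pool.Agent.H212R4.Kes.Stmts

/-!
Project KESTEN (MP_23b0f8_an Q1): task Eta (the autocorrelation as a measure).
-/

open MeasureTheory Filter Topology
open scoped ENNReal

noncomputable section

namespace Pool.Agent.H212R4.Kes

namespace EtaAux

lemma measurable_ind (D : ℝ) : Measurable (ind D) := by
  unfold ind
  exact Measurable.ite (measurableSet_lt measurable_fract measurable_const) measurable_const
    measurable_const

lemma measurable_S (D γ : ℝ) (r : ℕ) : Measurable (S D γ r) := by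
  unfold S
  exact Finset.measurable_fun_sum _ fun i _ => (measurable_ind D).comp (by fun_prop)

lemma measurable_Z (D γ a b : ℝ) (r : ℕ) : Measurable (Z D γ a b r) := by
  unfold Z
  have h : Measurable fun x => ((S D γ r x : ℕ) : ℝ) :=
    (measurable_from_nat (f := fun n : ℕ => (n : ℝ))).comp (measurable_S D γ r)
  exact (h.const_mul _).const_add _

lemma measurable_negZ (D γ a b : ℝ) (r : ℕ) : Measurable (fun x => -Z D γ a b r x) :=
  (measurable_Z D γ a b r).neg

lemma S_le (D γ : ℝ) (r : ℕ) (x : ℝ) : S D γ r x ≤ r := by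
  unfold S
  calc ∑ i ∈ Finset.range r, ind D (x + i * γ) ≤ ∑ _i ∈ Finset.range r, 1 := by
        refine Finset.sum_le_sum fun i _ => ?_
        unfold ind
        split_ifs <;> simp
    _ = r := by simp

lemma Z_ge {D γ a b : ℝ} {c : ℝ} (ha : c ≤ a) (hb : c ≤ b) (r : ℕ) (x : ℝ) :
    c * r ≤ Z D γ a b r x := by
  have h1 : ((S D γ r x : ℕ) : ℝ) ≤ r := by exact_mod_cast S_le D γ r x
  have h0 : (0 : ℝ) ≤ (S D γ r x : ℕ) := Nat.cast_nonneg _
  unfold Z
  nlinarith [mul_nonneg (sub_nonneg.mpr ha) (sub_nonneg.mpr h1), mul_nonneg (sub_nonneg.mpr hb) h0]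

/-- one term of the autocorrelation -/
def mr (D γ a b : ℝ) (r : ℕ) : Measure ℝ :=
  (volume.restrict (Set.Ioc (0 : ℝ) 1)).map (Z D γ a b (r + 1)) +
    (volume.restrict (Set.Ioc (0 : ℝ) 1)).map (fun x => -Z D γ a b (r + 1) x)

/-- the autocorrelation -/
def eta (D γ a b : ℝ) : Measure ℝ :=
  ENNReal.ofReal (1 / gap D a b) • (Measure.dirac 0 + Measure.sum (mr D γ a b))

/-- the weight -/
def wt (z : ℝ) : ℝ := 1 / (1 + z ^ 2)

lemma continuous_wt : Continuous wt := by
  unfold wt
  refine continuous_const.div (by fun_prop) fun z => by positivity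

lemma wt_le_one (z : ℝ) : wt z ≤ 1 := by
  unfold wt
  rw [div_le_one (by positivity)]
  nlinarith [sq_nonneg z]

lemma wt_pos (z : ℝ) : 0 < wt z := by
  unfold wt; positivity

lemma wt_le {c z : ℝ} (hc : 0 < c) {r : ℕ} (h : c * (r + 1) ≤ |z|) :
    wt z ≤ (1 / c ^ 2) * (1 / ((r : ℝ) + 1) ^ 2) := by
  unfold wt
  have h1 : (c * (r + 1)) ^ 2 ≤ z ^ 2 := by
    rw [← sq_abs z]
    exact pow_le_pow_left₀ (by positivity) h 2
  rw [one_div_mul_one_div]
  apply one_div_le_one_div_of_le (by positivity)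
  nlinarith

lemma lintegral_wt_mr {D γ a b c : ℝ} (hc : 0 < c) (ha : c ≤ a) (hb : c ≤ b) (r : ℕ) :
    ∫⁻ z, ENNReal.ofReal (wt z) ∂(mr D γ a b r) ≤
      ENNReal.ofReal (2 * ((1 / c ^ 2) * (1 / ((r : ℝ) + 1) ^ 2))) := by
  have hwm : Measurable fun z => ENNReal.ofReal (wt z) := continuous_wt.measurable.ennreal_ofReal
  have hB : (0 : ℝ) ≤ (1 / c ^ 2) * (1 / ((r : ℝ) + 1) ^ 2) := by positivity
  have hz : ∀ x, c * ((r : ℝ) + 1) ≤ Z D γ a b (r + 1) x := fun x => by
    have := Z_ge (D := D) (γ := γ) ha hb (r + 1) x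
    push_cast at this
    exact this
  have hz0 : ∀ x, 0 ≤ Z D γ a b (r + 1) x := fun x => le_trans (by positivity) (hz x)
  unfold mr
  rw [lintegral_add_measure, lintegral_map hwm (measurable_Z _ _ _ _ _),
    lintegral_map hwm (measurable_negZ _ _ _ _ _)]
  have h1 : ∫⁻ x in Set.Ioc (0 : ℝ) 1, ENNReal.ofReal (wt (Z D γ a b (r + 1) x)) ≤
      ENNReal.ofReal ((1 / c ^ 2) * (1 / ((r : ℝ) + 1) ^ 2)) := by
    calc _ ≤ ∫⁻ _x in Set.Ioc (0 : ℝ) 1,
          ENNReal.ofReal ((1 / c ^ 2) * (1 / ((r : ℝ) + 1) ^ 2)) := by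
          refine lintegral_mono fun x => ENNReal.ofReal_le_ofReal (wt_le hc ?_)
          rw [abs_of_nonneg (hz0 x)]
          exact hz x
      _ = _ := by simp
  have h2 : ∫⁻ x in Set.Ioc (0 : ℝ) 1, ENNReal.ofReal (wt (-Z D γ a b (r + 1) x)) ≤
      ENNReal.ofReal ((1 / c ^ 2) * (1 / ((r : ℝ) + 1) ^ 2)) := by
    calc _ ≤ ∫⁻ _x in Set.Ioc (0 : ℝ) 1,
          ENNReal.ofReal ((1 / c ^ 2) * (1 / ((r : ℝ) + 1) ^ 2)) := by
          refine lintegral_mono fun x => ENNReal.ofReal_le_ofReal (wt_le hc ?_)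
          rw [abs_neg, abs_of_nonneg (hz0 x)]
          exact hz x
      _ = _ := by simp
  calc _ ≤ ENNReal.ofReal ((1 / c ^ 2) * (1 / ((r : ℝ) + 1) ^ 2)) +
        ENNReal.ofReal ((1 / c ^ 2) * (1 / ((r : ℝ) + 1) ^ 2)) := add_le_add h1 h2
    _ = _ := by rw [← ENNReal.ofReal_add hB hB, two_mul]

lemma lintegral_wt_eta {D γ a b : ℝ} (hap : 0 < a) (hbp : 0 < b) :
    ∫⁻ z, ENNReal.ofReal (wt z) ∂(eta D γ a b) < ∞ := by
  set c := min a b with hcdef
  have hc : 0 < c := lt_min hap hbp
  unfold eta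
  rw [lintegral_smul_measure, lintegral_add_measure, lintegral_dirac, lintegral_sum_measure,
    smul_eq_mul]
  refine ENNReal.mul_lt_top ENNReal.ofReal_lt_top (ENNReal.add_lt_top.mpr
    ⟨ENNReal.ofReal_lt_top, ?_⟩)
  have hsum : Summable fun r : ℕ => 2 * ((1 / c ^ 2) * (1 / ((r : ℝ) + 1) ^ 2)) := by
    have h := (summable_nat_add_iff 1).mpr (Real.summable_one_div_nat_pow (p := 2) |>.mpr
      (by norm_num))
    refine (Summable.mul_left _ (Summable.mul_left _ ?_))
    simpa using h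
  calc _ ≤ ∑' r : ℕ, ENNReal.ofReal (2 * ((1 / c ^ 2) * (1 / ((r : ℝ) + 1) ^ 2))) :=
        ENNReal.tsum_le_tsum fun r => lintegral_wt_mr hc (min_le_left _ _) (min_le_right _ _) r
    _ = ENNReal.ofReal (∑' r : ℕ, 2 * ((1 / c ^ 2) * (1 / ((r : ℝ) + 1) ^ 2))) :=
        (ENNReal.ofReal_tsum_of_nonneg (fun r => by positivity) hsum).symm
    _ < ∞ := ENNReal.ofReal_lt_top

lemma integrable_wt {D γ a b : ℝ} (hap : 0 < a) (hbp : 0 < b) : Integrable wt (eta D γ a b) := by
  refine ⟨continuous_wt.aestronglyMeasurable, ?_⟩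
  rw [hasFiniteIntegral_iff_ofReal (Eventually.of_forall fun z => (wt_pos z).le)]
  exact lintegral_wt_eta hap hbp

lemma integrable_dec {D γ a b : ℝ} (hap : 0 < a) (hbp : 0 < b) {f : ℝ → ℂ} (hf : Dec f) :
    Integrable f (eta D γ a b) := by
  obtain ⟨hc, C, hC⟩ := hf
  refine ((integrable_wt (D := D) (γ := γ) hap hbp).const_mul C).mono' hc.aestronglyMeasurable
    (Eventually.of_forall fun z => ?_)
  have := hC z
  rwa [div_eq_mul_one_div] at this

end EtaAux

open EtaAux in
theorem eta : TaskEta := by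
  intro D γ a b hD0 hD1 hap hbp
  refine ⟨EtaAux.eta D γ a b, ⟨fun x => ?_⟩, fun f hf => ⟨integrable_dec hap hbp hf, ?_⟩⟩
  · refine ⟨Metric.ball x 1, Metric.ball_mem_nhds x one_pos, ?_⟩
    have hI := integrable_wt (D := D) (γ := γ) hap hbp
    have hδ : 0 < wt (|x| + 1) := wt_pos _
    refine lt_of_le_of_lt (measure_mono ?_) (hI.measure_norm_ge_lt_top hδ)
    intro z hz
    simp only [Set.mem_ofPred_eq]
    rw [Real.norm_of_nonneg (wt_pos z).le]
    unfold wt
    apply one_div_le_one_div_of_le (by positivity)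
    have hz1 : |z - x| < 1 := by simpa [Real.dist_eq] using hz
    have hz2 : |z| ≤ |x| + 1 := by
      have := abs_sub_abs_le_abs_sub z x
      linarith
    have : z ^ 2 ≤ (|x| + 1) ^ 2 := by
      rw [← sq_abs z]
      exact pow_le_pow_left₀ (abs_nonneg _) hz2 2
    linarith
  · have hI := integrable_dec (D := D) (γ := γ) hap hbp hf
    have hg : 0 < gap D a b := by
      unfold gap
      have : 0 < 1 - D := by linarith
      positivity
    have hg1 : ENNReal.ofReal (1 / gap D a b) ≠ 0 := by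
      have : 0 < 1 / gap D a b := by positivity
      simpa using this
    have hg2 : ENNReal.ofReal (1 / gap D a b) ≠ ∞ := ENNReal.ofReal_ne_top
    unfold EtaAux.eta at hI ⊢
    rw [integrable_smul_measure hg1 hg2] at hI
    have hI1 : Integrable f (Measure.dirac (0 : ℝ)) := hI.left_of_add_measure
    have hI2 : Integrable f (Measure.sum (mr D γ a b)) := hI.right_of_add_measure
    rw [integral_smul_measure, integral_add_measure hI1 hI2, integral_dirac,
      integral_sum_measure hI2, ENNReal.toReal_ofReal (by positivity)]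
    unfold AF
    rw [Complex.real_smul]
    push_cast
    congr 2
    refine tsum_congr fun r => ?_
    have hIr : Integrable f (mr D γ a b r) := hI2.mono_measure (Measure.le_sum _ r)
    unfold mr at hIr ⊢
    have hr1 := hIr.left_of_add_measure
    have hr2 := hIr.right_of_add_measure
    have hr1' := (integrable_map_measure hf.1.aestronglyMeasurable
      (measurable_Z D γ a b (r + 1)).aemeasurable).mp hr1
    have hr2' := (integrable_map_measure hf.1.aestronglyMeasurable
      (measurable_negZ D γ a b (r + 1)).aemeasurable).mp hr2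
    rw [integral_add_measure hr1 hr2,
      integral_map (measurable_Z D γ a b (r + 1)).aemeasurable hf.1.aestronglyMeasurable,
      integral_map (measurable_negZ D γ a b (r + 1)).aemeasurable hf.1.aestronglyMeasurable,
      intervalIntegral.integral_of_le zero_le_one]
    exact (integral_add hr1' hr2').symm

end Pool.Agent.H212R4.Kes
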