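import Mathlib
import Pool.Agent.H212R4.Kes.Stmts

/-!
Project KESTEN, task FOUR (helper766).
-/

open MeasureTheory Filter Topology Set
open scoped Real

noncomputable section

namespace Pool.Agent.H212R4.Kes

namespace Four

instance : Fact (0 < (1 : ℝ)) := ⟨one_pos⟩

/-- An essentially bounded measurable function on the circle with finitely many nonzero Fourier
coefficients is a.e. equal to a continuous function. -/
theorem ae_eq_cont (U : AddCircle (1 : ℝ) → ℂ) (hU : Measurable U) (C : ℝ)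
    (hC : ∀ t, ‖U t‖ ≤ C) (F : Finset ℤ) (hF : ∀ n, n ∉ F → fourierCoeff U n = 0) :
    ∃ P : C(AddCircle (1 : ℝ), ℂ), U =ᵐ[AddCircle.haarAddCircle] P := by
  have hmem : MemLp U 2 (AddCircle.haarAddCircle (T := (1 : ℝ))) :=
    MemLp.of_bound hU.aestronglyMeasurable C (Eventually.of_forall hC)
  set f : Lp ℂ 2 (AddCircle.haarAddCircle (T := (1 : ℝ))) := hmem.toLp U with hf
  have hfU : f =ᵐ[AddCircle.haarAddCircle] U := hmem.coeFn_toLp
  have hco : ∀ n, fourierCoeff (f : AddCircle (1 : ℝ) → ℂ) n = fourierCoeff U n := by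
    intro n
    exact congrFun (fourierCoeff_congr_ae hfU) n
  have hs := hasSum_fourier_series_L2 f
  have hs2 : HasSum (fun i => fourierCoeff f i • fourierLp (T := (1 : ℝ)) 2 i)
      (∑ i ∈ F, fourierCoeff f i • fourierLp (T := (1 : ℝ)) 2 i) := by
    apply hasSum_sum_of_ne_finset_zero
    intro b hb
    rw [hco b, hF b hb, zero_smul]
  have heq := hs.unique hs2
  refine ⟨∑ i ∈ F, fourierCoeff f i • fourier i, ?_⟩
  have h3 : ContinuousMap.toLp (E := ℂ) 2 (AddCircle.haarAddCircle (T := (1 : ℝ))) ℂ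
      (∑ i ∈ F, fourierCoeff f i • fourier i) = f := by
    rw [map_sum]
    conv_rhs => rw [heq]
    apply Finset.sum_congr rfl
    intro i _
    rw [map_smul]
  have h4 := ContinuousMap.coeFn_toLp (E := ℂ) (p := 2) (𝕜 := ℂ)
    (AddCircle.haarAddCircle (T := (1 : ℝ))) (∑ i ∈ F, fourierCoeff f i • fourier i)
  rw [h3] at h4
  exact hfU.symm.trans h4

/-- the `k`-th Fourier coefficient -/
def A (v : ℝ → ℝ) (k : ℤ) : ℂ :=
  ∫ x in (0 : ℝ)..1, Complex.exp (-(2 * Real.pi * k * x : ℝ) * Complex.I) * (v x : ℂ)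

theorem exp_per (k : ℤ) (x : ℝ) : Complex.exp (-(2 * Real.pi * k * (x + 1) : ℝ) * Complex.I) =
    Complex.exp (-(2 * Real.pi * k * x : ℝ) * Complex.I) := by
  rw [Complex.exp_eq_exp_iff_exists_int]
  exact ⟨-k, by push_cast; ring⟩

theorem exp_half (k : ℤ) (x : ℝ) : Complex.exp (-(2 * Real.pi * k * (x - 1 / 2) : ℝ) * Complex.I) =
    (-1) ^ k * Complex.exp (-(2 * Real.pi * k * x : ℝ) * Complex.I) := by
  have h1 : Complex.exp ((k : ℂ) * (Real.pi * Complex.I)) = (-1) ^ k := by
    rw [Complex.exp_int_mul, Complex.exp_pi_mul_I]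
  rw [← h1, ← Complex.exp_add]
  congr 1
  push_cast
  ring

theorem A_half (v : ℝ → ℝ) (hper : ∀ x, v (x + 1) = v x) (k : ℤ) :
    (∫ x in (0 : ℝ)..1, Complex.exp (-(2 * Real.pi * k * x : ℝ) * Complex.I) *
      (v (x + 1 / 2) : ℂ)) = (-1) ^ k * A v k := by
  have h1 : ∀ x : ℝ, Complex.exp (-(2 * Real.pi * k * x : ℝ) * Complex.I) * (v (x + 1 / 2) : ℂ) =
      (fun y : ℝ => (-1) ^ k * (Complex.exp (-(2 * Real.pi * k * y : ℝ) * Complex.I) * (v y : ℂ)))
        (x + 1 / 2) := by
    intro x
    have := exp_half k (x + 1 / 2)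
    rw [add_sub_cancel_right] at this
    simp only
    rw [this]
    ring
  simp_rw [h1]
  rw [intervalIntegral.integral_comp_add_right (fun y : ℝ => (-1 : ℂ) ^ k *
    (Complex.exp (-(2 * Real.pi * k * y : ℝ) * Complex.I) * (v y : ℂ))) (1 / 2 : ℝ)]
  rw [intervalIntegral.integral_const_mul]
  congr 1
  have hp : Function.Periodic (fun y : ℝ =>
      Complex.exp (-(2 * Real.pi * k * y : ℝ) * Complex.I) * (v y : ℂ)) 1 := by
    intro y
    simp only
    rw [exp_per, hper]
  have := hp.intervalIntegral_add_eq (0 + 1 / 2) 0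
  rw [zero_add, zero_add] at this
  rw [A, zero_add, add_comm (1 : ℝ) (1 / 2)]
  exact this

theorem meas_lift (u : ℝ → ℂ) (hum : Measurable u) (huper : Function.Periodic u 1) :
    Measurable (huper.lift : AddCircle (1 : ℝ) → ℂ) := by
  have h1 : (huper.lift : AddCircle (1 : ℝ) → ℂ) =
      fun t => u ((AddCircle.measurableEquivIco (1 : ℝ) 0 t : ℝ)) := by
    funext t
    have h2 : (((AddCircle.measurableEquivIco (1 : ℝ) 0 t : ℝ)) : AddCircle (1 : ℝ)) = t :=
      AddCircle.coe_equivIco (p := (1 : ℝ)) (a := 0) (y := t)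
    conv_lhs => rw [← h2]
    rw [huper.lift_coe]
  rw [h1]
  exact hum.comp (measurable_subtype_coe.comp (AddCircle.measurableEquivIco (1 : ℝ) 0).measurable)

theorem intg (v : ℝ → ℝ) (hv : Measurable v) (hpm : ∀ x, v x = 1 ∨ v x = -1) (n : ℤ) :
    IntervalIntegrable (fun x : ℝ => Complex.exp (-(2 * Real.pi * n * x : ℝ) * Complex.I) *
      (v x : ℂ)) volume 0 1 := by
  rw [intervalIntegrable_iff]
  apply Measure.integrableOn_of_bounded (M := 1)
  · simp
  · apply Measurable.aestronglyMeasurable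
    apply Measurable.mul
    · apply Continuous.measurable
      fun_prop
    · exact Complex.measurable_ofReal.comp hv
  · apply Eventually.of_forall
    intro x
    rw [norm_mul]
    have h1 : ‖Complex.exp (-(2 * Real.pi * n * x : ℝ) * Complex.I)‖ = 1 := by
      rw [← Complex.ofReal_neg, Complex.norm_exp_ofReal_mul_I]
    rw [h1]
    rcases hpm x with h | h <;> rw [h] <;> simp

/-- a 1-periodic function which vanishes a.e. on `(0, 1]` vanishes a.e. -/
theorem ae_of_period (u : ℝ → ℂ) (huper : Function.Periodic u 1)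
    (h : ∀ᵐ x ∂(volume.restrict (Ioc (0 : ℝ) 1)), u x = 0) : ∀ᵐ x : ℝ, u x = 0 := by
  rw [ae_restrict_iff' measurableSet_Ioc, ae_iff] at h
  rw [ae_iff]
  apply measure_mono_null (t := ⋃ n : ℤ, (fun x : ℝ => x + n) ⁻¹' {a | ¬(a ∈ Ioc (0 : ℝ) 1 → u a = 0)})
  · intro x hx
    rw [mem_iUnion]
    refine ⟨-(⌈x⌉ - 1), ?_⟩
    have h1 := Int.ceil_lt_add_one x
    have h2 := Int.le_ceil x
    have h3 : u (x + ((-(⌈x⌉ - 1) : ℤ) : ℝ)) = u x := by
      have := huper.int_mul (-(⌈x⌉ - 1)) x
      rw [mul_one] at this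
      exact this
    rw [mem_preimage, mem_ofPred_eq]
    intro h4
    apply hx
    rw [← h3]
    apply h4
    push_cast
    constructor <;> linarith
  · rw [measure_iUnion_null_iff]
    intro n
    rw [measure_preimage_add_right]
    exact h

theorem main : TaskFour := by
  intro γ D v hD1 hD2 hv hpm hper hae hfin
  -- the function `u`
  set u : ℝ → ℂ := fun x => (v x : ℂ) - (v (x + 1 / 2) : ℂ) with hu
  have hum : Measurable u := by
    apply Measurable.sub
    · exact Complex.measurable_ofReal.comp hv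
    · exact Complex.measurable_ofReal.comp (hv.comp (measurable_id.add_const _))
  have huper : Function.Periodic u 1 := by
    intro x
    simp only [hu]
    rw [hper, show x + 1 + 1 / 2 = (x + 1 / 2) + 1 by ring, hper]
  have huval : ∀ x, u x ∈ ({0, 2, -2} : Set ℂ) := by
    intro x
    simp only [hu, mem_insert_iff, mem_singleton_iff]
    rcases hpm x with h | h <;> rcases hpm (x + 1 / 2) with h' | h' <;> rw [h, h'] <;> push_cast
    · left; ring
    · right; left; ring
    · right; right; ring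
    · left; ring
  set U : AddCircle (1 : ℝ) → ℂ := huper.lift with hUdef
  have hUcoe : ∀ x : ℝ, U (x : AddCircle (1 : ℝ)) = u x := fun x => huper.lift_coe x
  have hUm : Measurable U := meas_lift u hum huper
  have hUval : ∀ t, U t ∈ ({0, 2, -2} : Set ℂ) := by
    intro t
    induction t using QuotientAddGroup.induction_on with
    | H x => exact (hUcoe x) ▸ huval x
  have hUb : ∀ t, ‖U t‖ ≤ 2 := by
    intro t
    have := hUval t
    simp only [mem_insert_iff, mem_singleton_iff] at this
    rcases this with h | h | h <;> rw [h] <;> norm_num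
  have hcoef : ∀ n : ℤ, fourierCoeff U n = A v n - (-1) ^ n * A v n := by
    intro n
    rw [fourierCoeff_eq_intervalIntegral U n 0, ← A_half v hper n, A]
    rw [zero_add, div_one, one_smul]
    rw [← intervalIntegral.integral_sub]
    · apply intervalIntegral.integral_congr
      intro x _
      simp only
      rw [hUcoe, fourier_coe_apply, smul_eq_mul]
      simp only [hu]
      rw [← mul_sub]
      congr 2
      push_cast
      ring
    · exact intg v hv hpm n
    · have h1 := intg (fun x => v (x + 1 / 2)) (hv.comp (measurable_id.add_const _))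
        (fun x => hpm _) n
      exact h1
  have hzero : ∀ n : ℤ, n ∉ hfin.toFinset → fourierCoeff U n = 0 := by
    intro n hn
    rw [hcoef]
    rcases Int.even_or_odd n with he | ho
    · rw [he.neg_one_zpow]; ring
    · have h1 : A v n = 0 := by
        by_contra hne
        apply hn
        rw [Set.Finite.mem_toFinset]
        exact ⟨ho, hne⟩
      rw [h1]; ring
  obtain ⟨P, hP⟩ := ae_eq_cont U hUm 2 hUb hfin.toFinset hzero
  have hPv : ∀ᵐ t : AddCircle (1 : ℝ), U t = P t := by
    rw [AddCircle.volume_eq_smul_haarAddCircle]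
    exact Measure.ae_smul_measure hP _
  have hPr : ∀ᵐ x ∂(volume.restrict (Ioc (0 : ℝ) 1)), u x = P (x : AddCircle (1 : ℝ)) := by
    have h1 := (AddCircle.measurePreserving_mk (1 : ℝ) 0).quasiMeasurePreserving.ae hPv
    rw [zero_add] at h1
    filter_upwards [h1] with x hx
    rw [← hUcoe, hx]
  set g : ℝ → ℂ := fun x => P (x : AddCircle (1 : ℝ)) with hg
  have hgc : Continuous g := P.continuous.comp (AddCircle.continuous_mk' 1)
  have hgval : ∀ x ∈ Ioo (0 : ℝ) 1, g x ∈ ({0, 2, -2} : Set ℂ) := by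
    intro x hx
    by_contra hne
    have hcl : IsClosed ({0, 2, -2} : Set ℂ) := (Set.toFinite _).isClosed
    have hop : IsOpen (g ⁻¹' ({0, 2, -2} : Set ℂ)ᶜ ∩ Ioo (0 : ℝ) 1) :=
      (hcl.isOpen_compl.preimage hgc).inter isOpen_Ioo
    have hpos := hop.measure_pos volume ⟨x, hne, hx⟩
    rw [ae_restrict_iff' measurableSet_Ioc, ae_iff] at hPr
    apply hpos.ne'
    apply measure_mono_null _ hPr
    intro y hy
    rw [mem_ofPred_eq]
    intro h1
    have h2 := h1 ⟨hy.2.1, hy.2.2.le⟩
    apply hy.1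
    show P (y : AddCircle (1 : ℝ)) ∈ _
    rw [← h2]
    exact huval y
  have hconst : ∀ x ∈ Ioo (0 : ℝ) 1, g x = g (1 / 2) := by
    intro x hx
    have hfi : Finite ({0, 2, -2} : Set ℂ) := (Set.toFinite _)
    have hdis : IsDiscrete ({0, 2, -2} : Set ℂ) := (Set.toFinite _).isDiscrete
    have h12 : (1 / 2 : ℝ) ∈ Ioo (0 : ℝ) 1 := ⟨by norm_num, by norm_num⟩
    exact isPreconnected_Ioo.constant_of_mapsTo hdis hgc.continuousOn hgval hx h12
  have hne1 : ∀ᵐ x : ℝ, x ≠ 1 := by
    rw [ae_iff]
    simp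
  have huc : ∀ᵐ x ∂(volume.restrict (Ioc (0 : ℝ) 1)), u x = g (1 / 2) := by
    filter_upwards [hPr, ae_restrict_of_ae hne1, ae_restrict_mem measurableSet_Ioc] with x h1 h2 h3
    rw [h1]
    exact hconst x ⟨h3.1, lt_of_le_of_ne h3.2 h2⟩
  have hc0 : g (1 / 2) = 0 := by
    have h1 : fourierCoeff U 0 = 0 := by
      rw [hcoef]; simp
    rw [fourierCoeff_eq_intervalIntegral U 0 0, zero_add, div_one, one_smul] at h1
    have h2 : ∫ x in (0 : ℝ)..1, (fourier (-0 : ℤ) (x : AddCircle (1 : ℝ))) • U (x : AddCircle (1 : ℝ)) =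
        ∫ x in (0 : ℝ)..1, g (1 / 2) := by
      apply intervalIntegral.integral_congr_ae
      rw [uIoc_of_le zero_le_one, ← ae_restrict_iff' measurableSet_Ioc]
      filter_upwards [huc] with x hx
      rw [hUcoe, hx]
      simp
    rw [h2] at h1
    simpa using h1
  have hu0 : ∀ᵐ x : ℝ, u x = 0 := by
    apply ae_of_period u huper
    filter_upwards [huc] with x hx
    rw [hx, hc0]
  have htr : ∀ (p : ℝ → Prop) (a : ℝ), (∀ᵐ x : ℝ, p x) → ∀ᵐ x : ℝ, p (x + a) := by
    intro p a hp
    exact (measurePreserving_add_right volume a).quasiMeasurePreserving.ae hp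
  have hall : ∀ᵐ x : ℝ, ¬ (x ∈ Ioo (D - 1 / 2) (1 / 2)) := by
    filter_upwards [hu0, htr _ γ hu0, hae, htr _ (1 / 2) hae] with x h1 h2 h3 h4 hx
    have e1 : v x = v (x + 1 / 2) := by
      simp only [hu] at h1
      exact_mod_cast sub_eq_zero.mp h1
    have e2 : v (x + γ) = v (x + γ + 1 / 2) := by
      simp only [hu] at h2
      exact_mod_cast sub_eq_zero.mp h2
    have f1 : Int.fract x = x := by
      rw [Int.fract_eq_self]
      constructor
      · linarith [hx.1]
      · linarith [hx.2]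
    have f2 : Int.fract (x + 1 / 2) = x + 1 / 2 := by
      rw [Int.fract_eq_self]
      constructor
      · linarith [hx.1]
      · linarith [hx.2]
    rw [f1, if_pos (by linarith [hx.2])] at h3
    rw [f2, if_neg (by linarith [hx.1])] at h4
    rw [e1, e2, show x + γ + 1 / 2 = x + 1 / 2 + γ by ring, h4] at h3
    norm_num at h3
  rw [ae_iff] at hall
  have hpos : 0 < volume (Ioo (D - 1 / 2) (1 / 2 : ℝ)) := by
    rw [Real.volume_Ioo, ENNReal.ofReal_pos]
    linarith
  apply hpos.ne'
  apply measure_mono_null _ hall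
  intro x hx
  simp only [mem_ofPred_eq, not_not]
  exact hx

end Four

theorem four : TaskFour := Four.main

end Pool.Agent.H212R4.Kes
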