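import Pool.Agent.H212R4.Kes.Stmts

set_option autoImplicit false

open MeasureTheory Filter Topology
open scoped FourierTransform

noncomputable section

namespace Pool.Agent.H212R4.Kes

/-- the Gaussian centred (up to a factor) at `τ` -/
def lbphi (τ : ℝ) (s : ℝ) : ℂ :=
  Complex.exp (-(Real.pi : ℂ) * (1 : ℂ) * (s : ℂ) ^ 2 + 2 * (Real.pi : ℂ) * (τ : ℂ) * (s : ℂ))

def lbE (τ s : ℝ) : ℝ := Real.exp (-Real.pi * s ^ 2 + 2 * Real.pi * τ * s)

lemma lbphi_eq (τ s : ℝ) : lbphi τ s = ((lbE τ s : ℝ) : ℂ) := by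
  unfold lbphi lbE
  push_cast
  congr 1
  ring

lemma lbphi_int (τ : ℝ) : Integrable (lbphi τ) := by
  have h := integrable_cexp_quadratic (b := (Real.pi : ℂ)) (by simpa using Real.pi_pos)
    (2 * (Real.pi : ℂ) * (τ : ℂ)) 0
  refine h.congr (ae_of_all _ fun s => ?_)
  simp only [lbphi]
  congr 1
  ring

lemma lbE_int (τ : ℝ) : Integrable (lbE τ) := by
  have h := (lbphi_int τ).re
  refine h.congr (ae_of_all _ fun s => ?_)
  simp [lbphi_eq]

lemma lbF (τ : ℝ) : 𝓕 (lbphi τ) = fun z : ℝ =>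
    1 / (1 : ℂ) ^ (1 / 2 : ℂ) * Complex.exp (-(Real.pi : ℂ) / 1 * ((z : ℂ) + Complex.I * τ) ^ 2) :=
  fourier_gaussian_pi' (b := (1 : ℂ)) (by simp) (τ : ℂ)

lemma lbF_norm (τ z : ℝ) : ‖𝓕 (lbphi τ) z‖ = Real.exp (Real.pi * τ ^ 2) * Real.exp (-Real.pi * z ^ 2) := by
  rw [lbF]
  simp only [Complex.one_cpow, div_one, one_mul]
  rw [Complex.norm_exp, ← Real.exp_add]
  congr 1
  simp [pow_two, Complex.mul_re, Complex.mul_im]
  ring

lemma lbF_bound (τ z : ℝ) : ‖𝓕 (lbphi τ) z‖ ≤ Real.exp (Real.pi * τ ^ 2) / (1 + z ^ 2) := by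
  rw [lbF_norm, div_eq_mul_inv]
  have h1 : 1 + z ^ 2 ≤ Real.exp (Real.pi * z ^ 2) := by
    have := Real.add_one_le_exp (Real.pi * z ^ 2)
    have h3 := Real.pi_gt_three
    nlinarith [sq_nonneg z]
  have h2 : Real.exp (-Real.pi * z ^ 2) ≤ (1 + z ^ 2)⁻¹ := by
    rw [neg_mul, Real.exp_neg]
    exact inv_anti₀ (by positivity) h1
  gcongr

lemma lbF_cont (τ : ℝ) : Continuous (𝓕 (lbphi τ)) := by
  rw [lbF]
  fun_prop

lemma dens_nonneg (x : ℤ → ℝ) (T s : ℝ) (hT : 0 < T) : 0 ≤ dens x T s := by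
  unfold dens
  positivity

theorem lb : TaskDens → TaskPS → TaskRB → TaskLB := by
  intro hD hPS hRB x c hc hx
  set K : ℝ := 1 + 2 * ∑' r : ℕ, 1 / (1 + (c * ((r + 1 : ℕ) : ℝ)) ^ 2) with hK
  have hsum : Summable (fun r : ℕ => 1 / (1 + (c * ((r + 1 : ℕ) : ℝ)) ^ 2)) := by
    have h1 : Summable (fun r : ℕ => (1 / c ^ 2) * (1 / (((r + 1 : ℕ) : ℝ)) ^ 2)) := by
      refine Summable.mul_left _ ?_
      exact (summable_nat_add_iff 1).mpr (Real.summable_one_div_nat_pow.mpr (by norm_num))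
    refine Summable.of_nonneg_of_le (fun r => by positivity) (fun r => ?_) h1
    rw [one_div_mul_one_div, ← mul_pow]
    exact one_div_le_one_div_of_le (by positivity) (by linarith)
  have hKnn : 0 ≤ K := by
    have : 0 ≤ ∑' r : ℕ, 1 / (1 + (c * ((r + 1 : ℕ) : ℝ)) ^ 2) := tsum_nonneg fun r => by positivity
    linarith
  refine ⟨Real.exp (Real.pi / 4) * ((1 / c + 1 / 2) * K), fun T hT t => ?_⟩
  have hT0 : 0 < T := by linarith
  obtain ⟨hcont, ⟨B, hB⟩, hpair⟩ := hD x c hc hx T hT0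
  set τ : ℝ := t + 1 / 2 with hτ
  set C : ℝ := Real.exp (Real.pi * τ ^ 2) with hC
  have hCpos : 0 < C := Real.exp_pos _
  -- bound of the pair sum
  have hdec : Dec (𝓕 (lbphi τ)) := ⟨lbF_cont τ, C, lbF_bound τ⟩
  have hps : ‖pairSum x (𝓕 (lbphi τ)) T‖ ≤ (2 * T / c + 1) * (C * K) := by
    obtain ⟨hs, he⟩ := hPS x c hc hx (𝓕 (lbphi τ)) hdec T
    rw [he]
    have b1 : ∀ r, ‖rsum x (𝓕 (lbphi τ)) r T‖ ≤ (2 * T / c + 1) * (C / (1 + (c * r) ^ 2)) :=
      fun r => hRB x c hc hx (𝓕 (lbphi τ)) C (lbF_bound τ) r T hT0.le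
    have b2 : ∀ r, ‖rsum x (fun z => (𝓕 (lbphi τ)) (-z)) r T‖ ≤
        (2 * T / c + 1) * (C / (1 + (c * r) ^ 2)) :=
      fun r => hRB x c hc hx (fun z => (𝓕 (lbphi τ)) (-z)) C
        (fun z => by simpa using lbF_bound τ (-z)) r T hT0.le
    have b3 : ∀ r : ℕ, ‖rsum x (𝓕 (lbphi τ)) (r + 1) T +
        rsum x (fun z => (𝓕 (lbphi τ)) (-z)) (r + 1) T‖ ≤
        (2 * T / c + 1) * C * 2 * (1 / (1 + (c * ((r + 1 : ℕ) : ℝ)) ^ 2)) := by
      intro r
      refine (norm_add_le _ _).trans ((add_le_add (b1 (r + 1)) (b2 (r + 1))).trans (le_of_eq ?_))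
      ring
    have b4 : ‖∑' r : ℕ, (rsum x (𝓕 (lbphi τ)) (r + 1) T +
        rsum x (fun z => (𝓕 (lbphi τ)) (-z)) (r + 1) T)‖ ≤
        (2 * T / c + 1) * C * 2 * ∑' r : ℕ, (1 / (1 + (c * ((r + 1 : ℕ) : ℝ)) ^ 2)) := by
      rw [← tsum_mul_left]
      exact tsum_of_norm_bounded (hsum.mul_left _).hasSum b3
    have b0 := b1 0
    simp only [Nat.cast_zero, mul_zero, ne_eq, OfNat.ofNat_ne_zero, not_false_eq_true, zero_pow,
      add_zero, div_one] at b0
    refine (norm_add_le _ _).trans ((add_le_add b0 b4).trans (le_of_eq ?_))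
    rw [hK]
    ring
  -- the integral against the Gaussian
  have hmain : ∫ s, lbE τ s * dens x T s ≤ (1 / c + 1 / 2) * (C * K) := by
    have h1 := hpair (lbphi τ) (lbphi_int τ)
    have h2 : ∫ s, lbphi τ s * (dens x T s : ℂ) = ((∫ s, lbE τ s * dens x T s : ℝ) : ℂ) := by
      rw [← integral_complex_ofReal]
      refine integral_congr_ae (ae_of_all _ fun s => ?_)
      simp only [lbphi_eq]
      push_cast
      rfl
    rw [h2] at h1
    have h3 : ‖((∫ s, lbE τ s * dens x T s : ℝ) : ℂ)‖ ≤ (2 * T / c + 1) * (C * K) / (2 * T) := by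
      rw [h1, norm_div]
      have : ‖((2 * T : ℝ) : ℂ)‖ = 2 * T := by
        rw [Complex.norm_real, Real.norm_of_nonneg (by positivity)]
      rw [this]
      gcongr
    rw [Complex.norm_real] at h3
    refine (le_abs_self _).trans (h3.trans ?_)
    have h4 : (2 * T / c + 1) / (2 * T) ≤ 1 / c + 1 / 2 := by
      rw [div_le_iff₀ (by positivity)]
      have : (1 / c + 1 / 2) * (2 * T) = 2 * T / c + T := by ring
      rw [this]
      linarith
    calc (2 * T / c + 1) * (C * K) / (2 * T) = ((2 * T / c + 1) / (2 * T)) * (C * K) := by ring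
      _ ≤ (1 / c + 1 / 2) * (C * K) := by gcongr
  have hEd : Integrable (fun s => lbE τ s * dens x T s) := by
    refine ((lbE_int τ).mul_const B).mono' ?_ (ae_of_all _ fun s => ?_)
    · exact ((lbE_int τ).aestronglyMeasurable).mul hcont.aestronglyMeasurable
    · have hE : 0 ≤ lbE τ s := (Real.exp_pos _).le
      rw [Real.norm_of_nonneg (mul_nonneg hE (dens_nonneg x T s hT0))]
      exact mul_le_mul_of_nonneg_left (hB s) hE
  have hk : ∀ s ∈ Set.Icc t (t + 1), dens x T s ≤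
      Real.exp (Real.pi / 4) / C * (lbE τ s * dens x T s) := by
    intro s hs
    have hd := dens_nonneg x T s hT0
    have h1 : 1 ≤ Real.exp (Real.pi / 4) / C * lbE τ s := by
      rw [hC, lbE, ← Real.exp_sub, ← Real.exp_add]
      apply Real.one_le_exp
      have h2 : (s - τ) ^ 2 ≤ 1 / 4 := by
        have := hs.1
        have := hs.2
        nlinarith
      have := Real.pi_pos
      nlinarith
    calc dens x T s = 1 * dens x T s := (one_mul _).symm
      _ ≤ (Real.exp (Real.pi / 4) / C * lbE τ s) * dens x T s := by gcongr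
      _ = _ := by ring
  calc ∫ s in Set.Icc t (t + 1), dens x T s
      ≤ ∫ s in Set.Icc t (t + 1), Real.exp (Real.pi / 4) / C * (lbE τ s * dens x T s) := by
        refine setIntegral_mono_on ?_ ?_ measurableSet_Icc hk
        · exact hcont.continuousOn.integrableOn_compact isCompact_Icc
        · exact (hEd.const_mul _).integrableOn
    _ ≤ ∫ s, Real.exp (Real.pi / 4) / C * (lbE τ s * dens x T s) := by
        refine setIntegral_le_integral (hEd.const_mul _) (ae_of_all _ fun s => ?_)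
        have hE : 0 ≤ lbE τ s := (Real.exp_pos _).le
        have hd := dens_nonneg x T s hT0
        positivity
    _ = Real.exp (Real.pi / 4) / C * ∫ s, lbE τ s * dens x T s := integral_const_mul _ _
    _ ≤ Real.exp (Real.pi / 4) / C * ((1 / c + 1 / 2) * (C * K)) := by gcongr
    _ = Real.exp (Real.pi / 4) * ((1 / c + 1 / 2) * K) := by
        field_simp

end Pool.Agent.H212R4.Kes
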