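import Pool.Agent.H212R4.Kes.Stmts

set_option autoImplicit false

/-!
Project KESTEN, task Mean (helper191).
-/

open MeasureTheory Filter Topology

noncomputable section

namespace Pool.Agent.H212R4.Kes

theorem measurable_ind' (D : ℝ) : Measurable (fun x : ℝ => ind D x) := by
  unfold ind
  exact Measurable.ite (measurableSet_lt measurable_fract measurable_const) measurable_const
    measurable_const

theorem ind_le_one' (D x : ℝ) : ind D x ≤ 1 := by
  unfold ind
  split_ifs <;> norm_num

theorem measurable_S' (D γ : ℝ) (r : ℕ) : Measurable (fun x : ℝ => S D γ r x) := by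
  unfold S
  exact Finset.measurable_sum _ fun i _ => (measurable_ind' D).comp (measurable_id.add_const _)

theorem S_le' (D γ : ℝ) (r : ℕ) (x : ℝ) : S D γ r x ≤ r := by
  unfold S
  calc ∑ i ∈ Finset.range r, ind D (x + i * γ) ≤ ∑ _i ∈ Finset.range r, 1 :=
        Finset.sum_le_sum fun i _ => ind_le_one' D _
    _ = r := by simp

theorem S_one' (D γ x : ℝ) : S D γ 1 x = ind D x := by
  simp [S]

theorem integral_ind' (D : ℝ) (h0 : 0 < D) (h1 : D < 1) :
    ∫ x in (0 : ℝ)..1, ((ind D x : ℕ) : ℂ) = (D : ℂ) := by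
  have h2 : ∀ x ∈ Set.Ioo (0 : ℝ) 1, ((ind D x : ℕ) : ℂ) =
      (Set.Iio D).indicator (fun _ => (1 : ℂ)) x := by
    intro x hx
    have h3 : Int.fract x = x := Int.fract_eq_self.2 ⟨hx.1.le, hx.2⟩
    unfold ind
    rw [h3]
    by_cases h : x < D
    · rw [if_pos h, Set.indicator_of_mem (show x ∈ Set.Iio D from h)]; simp
    · rw [if_neg h, Set.indicator_of_notMem (show x ∉ Set.Iio D from h)]; simp
  rw [intervalIntegral.integral_of_le zero_le_one, integral_Ioc_eq_integral_Ioo,
    setIntegral_congr_fun measurableSet_Ioo h2, setIntegral_indicator measurableSet_Iio]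
  have h4 : Set.Ioo (0 : ℝ) 1 ∩ Set.Iio D = Set.Ioo 0 D := by
    ext x
    simp only [Set.mem_inter_iff, Set.mem_Ioo, Set.mem_Iio]
    constructor
    · rintro ⟨⟨a, b⟩, c⟩; exact ⟨a, c⟩
    · rintro ⟨a, c⟩; exact ⟨⟨a, c.trans h1⟩, c⟩
  rw [h4]
  simp [h0.le]

theorem tendsto_S' (hW : TaskWeyl) (D γ : ℝ) (h0 : 0 < D) (h1 : D < 1) (hγ : Irrational γ)
    (x : ℝ) : Tendsto (fun r : ℕ => (S D γ r x : ℝ) / r) atTop (𝓝 D) := by
  have h2 := hW D γ γ x 1 (fun j => (j : ℂ)) h0 h1 hγ
  simp only [S_one'] at h2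
  rw [integral_ind' D h0 h1] at h2
  have h3 : (fun N : ℕ => (∑ n ∈ Finset.range N, ((ind D (x + n * γ) : ℕ) : ℂ)) / (N : ℂ)) =
      fun N : ℕ => ((((S D γ N x : ℝ) / N : ℝ)) : ℂ) := by
    funext N
    unfold S
    push_cast
    rfl
  rw [h3] at h2
  have h4 := (Complex.continuous_re.tendsto _).comp h2
  simpa [Function.comp_def] using h4

theorem mean : TaskWeyl → TaskMean := by
  intro hW D γ h0 h1 hγ
  have h2 : Tendsto (fun r : ℕ => ∫ x in (0 : ℝ)..1, |(S D γ r x : ℝ) / r - D|) atTop
      (𝓝 (∫ _x in (0 : ℝ)..1, (0 : ℝ))) := by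
    refine intervalIntegral.tendsto_integral_filter_of_dominated_convergence (fun _ => 2) ?_ ?_ ?_ ?_
    · refine Eventually.of_forall fun r => ?_
      refine Measurable.aestronglyMeasurable ?_
      have h3 : Measurable (fun x : ℝ => (S D γ r x : ℝ)) :=
        measurable_from_top.comp (measurable_S' D γ r)
      exact ((h3.div_const _).sub_const _).abs
    · refine Eventually.of_forall fun r => Eventually.of_forall fun x _ => ?_
      have h3 : (S D γ r x : ℝ) / r ≤ 1 := by
        apply div_le_one_of_le₀ _ (Nat.cast_nonneg _)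
        exact_mod_cast S_le' D γ r x
      have h4 : 0 ≤ (S D γ r x : ℝ) / r := by positivity
      rw [Real.norm_eq_abs, abs_abs, abs_le]
      constructor <;> linarith
    · exact intervalIntegrable_const
    · refine Eventually.of_forall fun x _ => ?_
      have h3 := (tendsto_S' hW D γ h0 h1 hγ x).sub_const D
      rw [sub_self] at h3
      have h4 := h3.abs
      rwa [abs_zero] at h4
  simpa using h2

end Pool.Agent.H212R4.Kes
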