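import Pool.Agent.H212R4.Kes.Stmts

/-!
Project KESTEN, task Mu: the diffraction measure as a limit of the finite volume densities.
-/

open MeasureTheory Filter Topology
open scoped FourierTransform NNReal ENNReal BoundedContinuousFunction

noncomputable section

namespace Pool.Agent.H212R4.Kes

/-- weighted density -/
def wd (x : ℤ → ℝ) (T s : ℝ) : ℝ := dens x T s / (1 + s ^ 2)

/-- the measure with the weighted density -/
def mN (x : ℤ → ℝ) (T : ℝ) : Measure ℝ := volume.withDensity (fun s => ENNReal.ofReal (wd x T s))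

theorem dens_nonneg (x : ℤ → ℝ) {T : ℝ} (hT : 0 ≤ T) (s : ℝ) : 0 ≤ dens x T s := by
  unfold dens
  positivity

theorem wd_nonneg (x : ℤ → ℝ) {T : ℝ} (hT : 0 ≤ T) (s : ℝ) : 0 ≤ wd x T s :=
  div_nonneg (dens_nonneg x hT s) (by positivity)

theorem mN_Icc {x : ℤ → ℝ} {T : ℝ} (hT : 0 < T) (hc : Continuous (dens x T)) {B t j : ℝ}
    (hB : ∫ s in Set.Icc t (t + 1), dens x T s ≤ B)
    (hj : ∀ s ∈ Set.Icc t (t + 1), j ^ 2 ≤ s ^ 2) :
    mN x T (Set.Icc t (t + 1)) ≤ ENNReal.ofReal (B / (1 + j ^ 2)) := by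
  unfold mN
  rw [withDensity_apply _ measurableSet_Icc]
  calc ∫⁻ s in Set.Icc t (t + 1), ENNReal.ofReal (wd x T s)
      ≤ ∫⁻ s in Set.Icc t (t + 1), ENNReal.ofReal (dens x T s) *
          ENNReal.ofReal (1 / (1 + j ^ 2)) := by
        apply setLIntegral_mono' measurableSet_Icc
        intro s hs
        rw [← ENNReal.ofReal_mul (dens_nonneg x hT.le s)]
        apply ENNReal.ofReal_le_ofReal
        unfold wd
        rw [div_eq_mul_one_div]
        apply mul_le_mul_of_nonneg_left _ (dens_nonneg x hT.le s)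
        apply one_div_le_one_div_of_le (by positivity)
        have := hj s hs
        linarith
    _ = (∫⁻ s in Set.Icc t (t + 1), ENNReal.ofReal (dens x T s)) *
          ENNReal.ofReal (1 / (1 + j ^ 2)) := by
        rw [lintegral_mul_const' _ _ ENNReal.ofReal_ne_top]
    _ = ENNReal.ofReal (∫ s in Set.Icc t (t + 1), dens x T s) *
          ENNReal.ofReal (1 / (1 + j ^ 2)) := by
        rw [ofReal_integral_eq_lintegral_ofReal]
        · exact hc.continuousOn.integrableOn_Icc
        · exact Eventually.of_forall fun s => dens_nonneg x hT.le s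
    _ ≤ ENNReal.ofReal B * ENNReal.ofReal (1 / (1 + j ^ 2)) := by
        gcongr
    _ = ENNReal.ofReal (B / (1 + j ^ 2)) := by
        rw [← ENNReal.ofReal_mul' (by positivity)]
        congr 1
        ring

/-- union of unit intervals covering `{n ≤ |s|}` -/
def Tn (n : ℕ) : Set ℝ := ⋃ j : ℕ, (Set.Icc ((j + n : ℕ) : ℝ) (((j + n : ℕ) : ℝ) + 1) ∪
  Set.Icc (-(((j + n : ℕ) : ℝ) + 1)) (-(((j + n : ℕ) : ℝ) + 1) + 1))

theorem mem_Tn (n : ℕ) (s : ℝ) (hs : (n : ℝ) ≤ |s|) : s ∈ Tn n := by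
  have hk : n ≤ ⌊|s|⌋₊ := Nat.le_floor hs
  have h1 : (⌊|s|⌋₊ : ℝ) ≤ |s| := Nat.floor_le (abs_nonneg s)
  have h2 : |s| < ⌊|s|⌋₊ + 1 := Nat.lt_floor_add_one |s|
  unfold Tn
  rw [Set.mem_iUnion]
  refine ⟨⌊|s|⌋₊ - n, ?_⟩
  rw [Nat.sub_add_cancel hk, Set.mem_union, Set.mem_Icc, Set.mem_Icc]
  rcases abs_cases s with ⟨h3, _⟩ | ⟨h3, _⟩
  · left
    constructor <;> linarith
  · right
    constructor <;> linarith

theorem summable_aux (B : ℝ) : Summable (fun j : ℕ => B / (1 + (j : ℝ) ^ 2)) := by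
  have h1 : Summable (fun j : ℕ => 1 / ((j : ℝ) + 1) ^ 2) := by
    have h := (summable_nat_add_iff 1).mpr (Real.summable_one_div_nat_pow.mpr (one_lt_two))
    simpa using h
  have h2 : Summable (fun j : ℕ => 1 / (1 + (j : ℝ) ^ 2)) := by
    apply Summable.of_nonneg_of_le (fun j => by positivity) (fun j => ?_) (h1.mul_left 2)
    rw [mul_one_div, div_le_div_iff₀ (by positivity) (by positivity)]
    nlinarith [sq_nonneg ((j : ℝ) - 1)]
  have h3 := h2.mul_left B
  refine h3.congr (fun j => ?_)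
  ring

theorem mu : TaskDens → TaskLB → TaskMu := by
  intro hD hL x c η hc hx hη
  obtain ⟨B, hB⟩ := hL x c hc hx
  set T : ℕ → ℝ := fun N => (N : ℝ) + 1 with hT
  have hT1 : ∀ N, 1 ≤ T N := fun N => by simp [hT]
  have hT0 : ∀ N, 0 < T N := fun N => lt_of_lt_of_le one_pos (hT1 N)
  have hcont : ∀ N, Continuous (dens x (T N)) := fun N => (hD x c hc hx (T N) (hT0 N)).1
  set a : ℕ → ℝ≥0 := fun j => 2 * (B / (1 + (j : ℝ) ^ 2)).toNNReal with ha
  have hsum : Summable a := (summable_aux B).toNNReal.mul_left 2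
  set u : ℕ → ℝ≥0 := fun n => ∑' j, a (j + n) with hu
  have hu0 : Tendsto u atTop (𝓝 0) := NNReal.tendsto_sum_nat_add a
  have hmass : ∀ (N n : ℕ) (S : Set ℝ), (∀ s ∈ S, (n : ℝ) ≤ |s|) →
      mN x (T N) S ≤ (u n : ℝ≥0∞) := by
    intro N n S hS
    have h1 : S ⊆ Tn n := fun s hs => mem_Tn n s (hS s hs)
    refine (measure_mono h1).trans ?_
    unfold Tn
    refine (measure_iUnion_le _).trans ?_
    have h2 : ∀ j : ℕ, mN x (T N) (Set.Icc ((j + n : ℕ) : ℝ) (((j + n : ℕ) : ℝ) + 1) ∪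
        Set.Icc (-(((j + n : ℕ) : ℝ) + 1)) (-(((j + n : ℕ) : ℝ) + 1) + 1)) ≤
        ((a (j + n) : ℝ≥0) : ℝ≥0∞) := by
      intro j
      refine (measure_union_le _ _).trans ?_
      have hk : (0:ℝ) ≤ ((j + n : ℕ) : ℝ) := Nat.cast_nonneg _
      have h3 := mN_Icc (hT0 N) (hcont N) (hB (T N) (hT1 N) ((j + n : ℕ) : ℝ))
        (j := ((j + n : ℕ) : ℝ)) (fun s hs => by
          have := hs.1
          nlinarith)
      have h4 := mN_Icc (hT0 N) (hcont N) (hB (T N) (hT1 N) (-(((j + n : ℕ) : ℝ) + 1)))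
        (j := ((j + n : ℕ) : ℝ)) (fun s hs => by
          have := hs.2
          nlinarith)
      refine (add_le_add h3 h4).trans (le_of_eq ?_)
      simp only [ha, ENNReal.ofReal]
      push_cast
      ring
    refine (ENNReal.tsum_le_tsum h2).trans (le_of_eq ?_)
    rw [hu]
    simp only
    rw [ENNReal.coe_tsum ((NNReal.summable_nat_add_iff n).mpr hsum)]
  have hfin : ∀ N, IsFiniteMeasure (mN x (T N)) := fun N =>
    ⟨(hmass N 0 Set.univ (fun s _ => by simp)).trans_lt ENNReal.coe_lt_top⟩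
  set ρ : ℕ → FiniteMeasure ℝ := fun N => ⟨mN x (T N), hfin N⟩ with hρ
  have hK := isCompact_setOfPred_finiteMeasure_mass_le_compl_isCompact_le (E := ℝ) (u := u)
    (K := fun n : ℕ => Set.Icc (-(n:ℝ)) n) (u 0) hu0 (fun n => isCompact_Icc)
    (Or.inl inferInstance)
  have hmem : ∀ N, ρ N ∈ {μ : FiniteMeasure ℝ | μ.mass ≤ u 0 ∧
      ∀ n, μ ((fun n : ℕ => Set.Icc (-(n:ℝ)) n) n)ᶜ ≤ u n} := by
    intro N
    refine ⟨?_, fun n => ?_⟩
    · have h1 := hmass N 0 Set.univ (fun s _ => by simp)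
      have h2 : ((ρ N).mass : ℝ≥0∞) ≤ u 0 := by
        rw [FiniteMeasure.ennreal_mass]
        exact h1
      exact_mod_cast h2
    · have h1 := hmass N n (Set.Icc (-(n:ℝ)) n)ᶜ (fun s hs => by
        by_contra hlt
        push Not at hlt
        apply hs
        exact ⟨by linarith [neg_abs_le s], by linarith [le_abs_self s]⟩)
      have h2 : (((ρ N) (Set.Icc (-(n:ℝ)) n)ᶜ : ℝ≥0) : ℝ≥0∞) ≤ u n := by
        rw [FiniteMeasure.ennreal_coeFn_eq_coeFn_toMeasure]
        exact h1
      exact_mod_cast h2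
  let F : Ultrafilter ℕ := Ultrafilter.of atTop
  have hF : (F : Filter ℕ) ≤ atTop := Ultrafilter.of_le _
  obtain ⟨ρ', _, hlim⟩ := hK.ultrafilter_le_nhds' (F.map ρ) (by
    rw [Ultrafilter.mem_map]
    exact Filter.univ_mem' hmem)
  have hlim' : Tendsto ρ (F : Filter ℕ) (𝓝 ρ') := hlim
  have hmeas : Measurable (fun s : ℝ => ENNReal.ofReal (1 + s ^ 2)) := by fun_prop
  refine ⟨(ρ' : Measure ℝ).withDensity (fun s => ENNReal.ofReal (1 + s ^ 2)), ?_, ?_⟩
  · exact IsLocallyFiniteMeasure.withDensity_ofReal (by fun_prop)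
  · intro φ hφ hφF
    obtain ⟨hφc, C, hC⟩ := hφ
    set g : ℝ → ℂ := fun s => ((1 + s ^ 2 : ℝ) : ℂ) * φ s with hg
    have hgc : Continuous g := by
      have : Continuous (fun s : ℝ => ((1 + s ^ 2 : ℝ) : ℂ)) := by fun_prop
      exact this.mul hφc
    have hgb : ∀ s, ‖g s‖ ≤ C := by
      intro s
      have h1 := hC s
      have h2 : (0:ℝ) < 1 + s ^ 2 := by positivity
      simp only [hg, norm_mul, Complex.norm_real, Real.norm_eq_abs, abs_of_pos h2]
      rw [le_div_iff₀ h2] at h1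
      linarith
    let G : ℝ →ᵇ ℂ := BoundedContinuousFunction.ofNormedAddCommGroup g hgc C hgb
    have hGi : Integrable g (ρ' : Measure ℝ) := G.integrable (ρ' : Measure ℝ)
    have htoReal : ∀ s : ℝ, (ENNReal.ofReal (1 + s ^ 2)).toReal • φ s = g s := by
      intro s
      rw [ENNReal.toReal_ofReal (by positivity), Complex.real_smul]
    have hlt : ∀ᵐ s ∂(ρ' : Measure ℝ), ENNReal.ofReal (1 + s ^ 2) < ∞ :=
      Eventually.of_forall fun s => ENNReal.ofReal_lt_top
    refine ⟨?_, ?_⟩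
    · rw [integrable_withDensity_iff_integrable_smul' hmeas hlt]
      simpa only [htoReal] using hGi
    · rw [integral_withDensity_eq_integral_toReal_smul hmeas hlt]
      simp only [htoReal]
      have hl1 := (FiniteMeasure.tendsto_iff_forall_integral_rclike_tendsto ℂ).mp hlim' G
      have hφi : Integrable φ := by
        apply Integrable.mono' (integrable_inv_one_add_sq.const_mul C) hφc.aestronglyMeasurable
        exact Eventually.of_forall fun s => by
          have := hC s
          rwa [div_eq_mul_inv] at this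
      have hl2 : ∀ N, ∫ s, G s ∂(ρ N : Measure ℝ) =
          pairSum x (𝓕 φ) (T N) / ((2 * T N : ℝ) : ℂ) := by
        intro N
        rw [← (hD x c hc hx (T N) (hT0 N)).2.2 φ hφi]
        have hm : Measurable (fun s => ENNReal.ofReal (wd x (T N) s)) := by
          have : Continuous (wd x (T N)) :=
            (hcont N).div (by fun_prop) (fun s => by positivity)
          exact this.measurable.ennreal_ofReal
        change ∫ s, g s ∂(mN x (T N)) = _
        unfold mN
        rw [integral_withDensity_eq_integral_toReal_smul hm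
          (Eventually.of_forall fun s => ENNReal.ofReal_lt_top)]
        congr 1
        funext s
        rw [ENNReal.toReal_ofReal (wd_nonneg x (hT0 N).le s), Complex.real_smul]
        simp only [hg, wd]
        have h2 : ((1 + s ^ 2 : ℝ) : ℂ) ≠ 0 := by
          have : (1 + s ^ 2 : ℝ) ≠ 0 := by positivity
          exact_mod_cast this
        rw [Complex.ofReal_div]
        field_simp
      have hTt : Tendsto T atTop atTop :=
        tendsto_atTop_add_const_right _ _ tendsto_natCast_atTop_atTop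
      have hl3 : Tendsto (fun N => ∫ s, G s ∂(ρ N : Measure ℝ)) (F : Filter ℕ)
          (𝓝 (∫ z, 𝓕 φ z ∂η)) := by
        simp only [hl2]
        exact ((hη _ hφF).2.comp hTt).mono_left hF
      exact tendsto_nhds_unique hl1 hl3

end Pool.Agent.H212R4.Kes
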