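import Pool.Agent.H212R4.Kes.Stmts

/-! Task Num (helper879): the number theoretic construction. -/

set_option autoImplicit false

open MeasureTheory Filter Topology

noncomputable section

namespace Pool.Agent.H212R4.Kes.Num

open Pool.Agent.H212R4.Kes

def DD (x : ℝ) : ℝ := (1 + 2 * x) / (1 + 4 * x)

def ee (K : ℕ) (L : ℤ) (x : ℝ) : ℝ := K * x - L - DD x

lemma ee_sub (K : ℕ) (L : ℤ) {x y : ℝ} (hx : 0 < x) (hy : 0 < y) :
    ee K L y - ee K L x = (y - x) * (K + 2 / ((1 + 4 * x) * (1 + 4 * y))) := by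
  have h1 : (1 + 4 * x) ≠ 0 := by positivity
  have h2 : (1 + 4 * y) ≠ 0 := by positivity
  unfold ee DD
  field_simp
  ring

lemma ee_lt (K : ℕ) (L : ℤ) {x y : ℝ} (hx : 0 < x) (h : x < y) : ee K L x < ee K L y := by
  have hy : 0 < y := hx.trans h
  have h1 := ee_sub K L hx hy
  have h2 : 0 < (y - x) * ((K : ℝ) + 2 / ((1 + 4 * x) * (1 + 4 * y))) := by
    have : 0 < y - x := sub_pos.mpr h
    positivity
  linarith

lemma ee_abs (K : ℕ) (L : ℤ) {x y : ℝ} (hx : 0 < x) (hy : 0 < y) :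
    |ee K L y - ee K L x| ≤ |y - x| * (K + 2) := by
  rw [ee_sub K L hx hy, abs_mul]
  refine mul_le_mul_of_nonneg_left ?_ (abs_nonneg _)
  rw [abs_of_pos (by positivity)]
  have : 2 / ((1 + 4 * x) * (1 + 4 * y)) ≤ 2 := by
    rw [div_le_iff₀ (by positivity)]
    nlinarith [mul_pos hx hy]
  linarith

lemma ee_cont (K : ℕ) (L : ℤ) : ContinuousOn (ee K L) (Set.Ioi 0) := by
  unfold ee DD
  refine ContinuousOn.sub (by fun_prop) ?_
  refine ContinuousOn.div (by fun_prop) (by fun_prop) ?_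
  intro x hx
  have : (0 : ℝ) < x := hx
  positivity

lemma ee_step (K Q : ℕ) (L P : ℤ) (x : ℝ) :
    ee (K + 4 * Q) (L + 4 * P) x = ee K L x + 4 * (Q * x - P) := by
  unfold ee
  push_cast
  ring

structure Valid (K : ℕ) (L : ℤ) (g δ : ℝ) : Prop where
  hK : K % 4 = 2
  hL : Even L
  hδ : 0 < δ
  lo : 1 / 4 < g - δ
  hi : g + δ < 1 / 2
  hg : ee K L g = 0

lemma no_rat (k l u w : ℤ) (hc : IsCoprime u w)
    (h : (2 * k + 1) * u ^ 2 + 2 * (k - 2 * l) * u * w - 2 * (2 * l + 1) * w ^ 2 = 0) : False := by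
  have hu : Even u := by
    have h1 : Even ((2 * k + 1) * u ^ 2) := ⟨(2 * l + 1) * w ^ 2 - (k - 2 * l) * u * w, by linarith⟩
    rcases Int.even_mul.mp h1 with h2 | h2
    · exact absurd h2 (by simp [parity_simps])
    · exact (Int.even_pow.mp h2).1
  obtain ⟨u', rfl⟩ := hu
  have hw : Even w := by
    have h1 : Even ((2 * l + 1) * w ^ 2) := ⟨(2 * k + 1) * u' ^ 2 + (k - 2 * l) * u' * w, by linarith⟩
    rcases Int.even_mul.mp h1 with h2 | h2
    · exact absurd h2 (by simp [parity_simps])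
    · exact (Int.even_pow.mp h2).1
  obtain ⟨w', rfl⟩ := hw
  obtain ⟨a, b, hab⟩ := hc
  have h2 : (2 : ℤ) ∣ 1 := ⟨a * u' + b * w', by linarith⟩
  norm_num at h2

lemma irr {K : ℕ} {L : ℤ} {g δ : ℝ} (h : Valid K L g δ) : Irrational g := by
  rintro ⟨q, hq⟩
  have hgpos : 0 < g := by have := h.lo; have := h.hδ; linarith
  obtain ⟨k, hk⟩ : ∃ k : ℤ, (K : ℤ) = 4 * k + 2 := ⟨(K : ℤ) / 4, by have := h.hK; omega⟩
  obtain ⟨l, hl⟩ := h.hL
  have hl' : L = 2 * l := by omega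
  have hkR : (K : ℝ) = 4 * (k : ℝ) + 2 := by exact_mod_cast hk
  have hlR : (L : ℝ) = 2 * (l : ℝ) := by exact_mod_cast hl'
  -- the equation for `y = 4 g`
  have h0 := h.hg
  unfold ee DD at h0
  have h1 : (1 + 4 * g) ≠ 0 := by positivity
  rw [sub_eq_zero, eq_div_iff h1] at h0
  have h2 : (2 * (k : ℝ) + 1) * (4 * g) ^ 2 + 2 * (k - 2 * l) * (4 * g) - 2 * (2 * l + 1) = 0 := by
    rw [hkR, hlR] at h0
    linarith
  set y : ℚ := 4 * q with hy
  have hyg : (y : ℝ) = 4 * g := by rw [hy, ← hq]; push_cast; ring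
  have h3 : (2 * (k : ℚ) + 1) * y ^ 2 + 2 * (k - 2 * l) * y - 2 * (2 * l + 1) = 0 := by
    rw [← hyg] at h2
    exact_mod_cast h2
  have h4 : (y.num : ℚ) / (y.den : ℚ) = y := Rat.num_div_den y
  have h5 : (y.den : ℚ) ≠ 0 := by exact_mod_cast y.den_nz
  have h6 : (2 * (k : ℚ) + 1) * (y.num : ℚ) ^ 2 + 2 * (k - 2 * l) * (y.num : ℚ) * (y.den : ℚ)
      - 2 * (2 * l + 1) * (y.den : ℚ) ^ 2 = 0 := by
    have : (y.num : ℚ) = y * y.den := by rw [eq_comm]; exact (div_eq_iff h5).mp h4 |>.symm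
    rw [this]
    have e : (2 * (k : ℚ) + 1) * (y * y.den) ^ 2 + 2 * (k - 2 * l) * (y * y.den) * (y.den : ℚ)
      - 2 * (2 * l + 1) * (y.den : ℚ) ^ 2 = ((2 * (k : ℚ) + 1) * y ^ 2 + 2 * (k - 2 * l) * y - 2 * (2 * l + 1)) * (y.den : ℚ) ^ 2 := by ring
    rw [e, h3, zero_mul]
  refine no_rat k l y.num y.den ?_ (by exact_mod_cast h6)
  rw [Int.isCoprime_iff_gcd_eq_one]
  simpa [Int.gcd] using y.reduced

lemma root_between {F : ℝ → ℝ} {g t : ℝ} (hF : ContinuousOn F (Set.Ioi 0)) (hg : 0 < g) (ht : 0 < t)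
    (h : (g < t ∧ F g < 0 ∧ 0 < F t) ∨ (t < g ∧ F t < 0 ∧ 0 < F g)) :
    ∃ g', F g' = 0 ∧ |g' - g| < |g - t| ∧ g' ≠ g := by
  rcases h with ⟨h1, h2, h3⟩ | ⟨h1, h2, h3⟩
  · have := intermediate_value_Ioo h1.le (hF.mono fun x hx => lt_of_lt_of_le hg hx.1)
    obtain ⟨g', hg', e⟩ := this ⟨h2, h3⟩
    refine ⟨g', e, ?_, hg'.1.ne'⟩
    rw [abs_of_pos (sub_pos.mpr hg'.1), abs_of_neg (sub_neg.mpr h1)]
    linarith [hg'.2]
  · have := intermediate_value_Ioo h1.le (hF.mono fun x hx => lt_of_lt_of_le ht hx.1)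
    obtain ⟨g', hg', e⟩ := this ⟨h2, h3⟩
    refine ⟨g', e, ?_, hg'.2.ne⟩
    rw [abs_of_neg (sub_neg.mpr hg'.2), abs_of_pos (sub_pos.mpr h1)]
    linarith [hg'.1]

lemma step {K : ℕ} {L : ℤ} {g δ : ℝ} (h : Valid K L g δ) (ε : ℝ) (hε : 0 < ε) (c : ℝ) :
    ∃ (Q : ℕ) (P : ℤ) (g' δ' : ℝ), 0 < Q ∧ Valid (K + 4 * Q) (L + 4 * P) g' δ' ∧
      Metric.closedBall g' δ' ⊆ Metric.closedBall g δ ∧
      ∀ x ∈ Metric.closedBall g' δ', (Q : ℝ) * |Q * x - P| ≤ ε ∧
        |ee (K + 4 * Q) (L + 4 * P) x| ≤ ε ∧ x ≠ c := by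
  have hirr := irr h
  have hlo := h.lo
  have hhi := h.hi
  have hδ := h.hδ
  have hgpos : 0 < g := by linarith
  obtain ⟨η, hη0, hη1, hη2, hη3⟩ : ∃ η : ℝ, 0 < η ∧ η ≤ δ / 2 ∧ η * (K + 2) ≤ ε ∧
      (c ≠ g → η ≤ |c - g|) := by
    by_cases hc : c = g
    · refine ⟨min (δ / 2) (ε / (K + 2)), by positivity, min_le_left _ _, ?_, fun h => absurd hc h⟩
      rw [← le_div_iff₀ (by positivity)]
      exact min_le_right _ _
    · have hc' : 0 < |c - g| := abs_pos.mpr (sub_ne_zero.mpr hc)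
      refine ⟨min (min (δ / 2) (ε / (K + 2))) |c - g|, by positivity,
        (min_le_left _ _).trans (min_le_left _ _), ?_, fun _ => min_le_right _ _⟩
      rw [← le_div_iff₀ (by positivity)]
      exact (min_le_left _ _).trans (min_le_right _ _)
  obtain ⟨n, hn⟩ := exists_nat_one_div_lt hη0
  obtain ⟨j, k, hk0, -, hjk⟩ := Real.exists_int_int_abs_mul_sub_le g (n := n + 1) (Nat.succ_pos n)
  have hjk' : |(k : ℝ) * g - j| < η := by
    refine lt_of_le_of_lt (hjk.trans ?_) hn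
    refine one_div_le_one_div_of_le (by positivity) ?_
    push_cast
    linarith
  obtain ⟨Q, rfl⟩ : ∃ Q : ℕ, (Q : ℤ) = k := ⟨k.toNat, Int.toNat_of_nonneg hk0.le⟩
  have hQ0 : 0 < Q := by exact_mod_cast hk0
  have hQR : (0 : ℝ) < Q := by exact_mod_cast hQ0
  have hQ1 : (1 : ℝ) ≤ Q := by exact_mod_cast hQ0
  have hjk2 : |(Q : ℝ) * g - j| < η := by simpa using hjk'
  have hne : (Q : ℝ) * g - j ≠ 0 := by
    intro h0
    apply hirr
    refine ⟨(j : ℚ) / Q, ?_⟩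
    push_cast
    rw [div_eq_iff hQR.ne']
    linarith
  set t : ℝ := j / Q with ht
  have htQ : (Q : ℝ) * t = j := by rw [ht]; field_simp
  have hgt : (Q : ℝ) * g - j = Q * (g - t) := by rw [← htQ]; ring
  have hQgt : Q * |g - t| = |(Q : ℝ) * g - j| := by rw [hgt, abs_mul, abs_of_pos hQR]
  have hgt2 : |g - t| < η := by
    have : |g - t| ≤ Q * |g - t| := by nlinarith [abs_nonneg (g - t)]
    linarith
  have htpos : 0 < t := by
    have := abs_lt.mp hgt2
    linarith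
  have hF := ee_cont (K + 4 * Q) (L + 4 * j)
  have hFg : ee (K + 4 * Q) (L + 4 * j) g = 4 * (Q * (g - t)) := by
    rw [ee_step, h.hg, zero_add, hgt]
  have hFt : ee (K + 4 * Q) (L + 4 * j) t = ee K L t := by
    rw [ee_step, htQ]; ring
  have hgt3 : g ≠ t := by
    intro h0
    apply hne
    rw [hgt, h0, sub_self, mul_zero]
  obtain ⟨g', hg'0, hg'1, hg'2⟩ := root_between hF hgpos htpos (by
    rcases lt_or_gt_of_ne hgt3 with hlt | hlt
    · left
      refine ⟨hlt, ?_, ?_⟩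
      · rw [hFg]; nlinarith
      · rw [hFt, ← h.hg]; exact ee_lt K L hgpos hlt
    · right
      refine ⟨hlt, ?_, ?_⟩
      · rw [hFt, ← h.hg]; exact ee_lt K L htpos hlt
      · rw [hFg]; nlinarith)
  have hg'η : |g' - g| < η := hg'1.trans hgt2
  have hg'pos : 0 < g' := by
    have := abs_lt.mp hg'η
    linarith
  have hc' : g' ≠ c := by
    intro hcc
    by_cases hcg : c = g
    · exact hg'2 (hcc.trans hcg)
    · have := hη3 hcg
      rw [← hcc] at this
      linarith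
  have hQg' : (Q : ℝ) * |Q * g' - j| < ε := by
    have e1 := ee_step K Q L j g'
    rw [hg'0] at e1
    have e2 := ee_abs K L hgpos hg'pos
    rw [h.hg, sub_zero] at e2
    have e3 : |ee K L g'| = 4 * |Q * g' - j| := by
      have : ee K L g' = -(4 * (Q * g' - j)) := by linarith
      rw [this, abs_neg, abs_mul, abs_of_pos (by norm_num : (0 : ℝ) < 4)]
    rw [e3] at e2
    have e4 : Q * |g' - g| ≤ |(Q : ℝ) * g - j| := by
      rw [← hQgt]
      exact mul_le_mul_of_nonneg_left hg'1.le hQR.le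
    have e5 : (0 : ℝ) < K + 2 := by positivity
    have e6 : Q * (4 * |Q * g' - j|) ≤ Q * (|g' - g| * (K + 2)) := mul_le_mul_of_nonneg_left e2 hQR.le
    have e7 : (Q * |g' - g|) * (K + 2) ≤ |(Q : ℝ) * g - j| * (K + 2) := mul_le_mul_of_nonneg_right e4 e5.le
    have e8 : |(Q : ℝ) * g - j| * (K + 2) < η * (K + 2) := mul_lt_mul_of_pos_right hjk2 e5
    have e9 : 0 ≤ Q * |Q * g' - j| := by positivity
    nlinarith
  have hcont : ContinuousAt (ee (K + 4 * Q) (L + 4 * j)) g' :=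
    hF.continuousAt (Ioi_mem_nhds hg'pos)
  have ev1 : ∀ᶠ x : ℝ in 𝓝 g', (Q : ℝ) * |Q * x - j| < ε := by
    have : ContinuousAt (fun x : ℝ => (Q : ℝ) * |Q * x - j|) g' := by fun_prop
    exact this.eventually_lt continuousAt_const hQg'
  have ev2 : ∀ᶠ x : ℝ in 𝓝 g', |ee (K + 4 * Q) (L + 4 * j) x| < ε := by
    refine hcont.abs.eventually_lt continuousAt_const ?_
    rw [hg'0, abs_zero]
    exact hε
  have ev3 : ∀ᶠ x : ℝ in 𝓝 g', x ≠ c := isOpen_ne.mem_nhds hc'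
  have ev4 : ∀ᶠ x : ℝ in 𝓝 g', x ∈ Metric.ball g δ := by
    refine Metric.isOpen_ball.mem_nhds ?_
    rw [Metric.mem_ball, Real.dist_eq]
    linarith
  obtain ⟨δ', hδ', hall⟩ := Metric.nhds_basis_closedBall.eventually_iff.mp
    (ev1.and (ev2.and (ev3.and ev4)))
  have hsub : Metric.closedBall g' δ' ⊆ Metric.closedBall g δ := fun x hx =>
    Metric.ball_subset_closedBall (hall hx).2.2.2
  refine ⟨Q, j, g', δ', hQ0, ?_, hsub, fun x hx => ⟨(hall hx).1.le, (hall hx).2.1.le, (hall hx).2.2.1⟩⟩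
  have m1 : g' - δ' ∈ Metric.closedBall g δ := hsub (by
    rw [Metric.mem_closedBall, Real.dist_eq]; simp [abs_of_pos hδ'])
  have m2 : g' + δ' ∈ Metric.closedBall g δ := hsub (by
    rw [Metric.mem_closedBall, Real.dist_eq]; simp [abs_of_pos hδ'])
  rw [Metric.mem_closedBall, Real.dist_eq, abs_le] at m1 m2
  exact {
    hK := by have := h.hK; omega
    hL := h.hL.add (by exact ⟨2 * j, by ring⟩)
    hδ := hδ'
    lo := by linarith [m1.1]
    hi := by linarith [m2.2]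
    hg := hg'0 }

lemma valid0 : Valid 2 0 (√2 / 4) (1 / 10) := by
  have h1 : (1.4 : ℝ) < √2 := by
    rw [Real.lt_sqrt (by norm_num)]; norm_num
  have h2 : √2 < (1.6 : ℝ) := by
    rw [Real.sqrt_lt' (by norm_num)]; norm_num
  have h3 : √2 * √2 = 2 := Real.mul_self_sqrt (by norm_num)
  refine ⟨by norm_num, ⟨0, rfl⟩, by norm_num, by linarith, by linarith, ?_⟩
  unfold ee DD
  have : (1 + 4 * (√2 / 4)) ≠ 0 := by positivity
  rw [sub_eq_zero, eq_div_iff this]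
  push_cast
  nlinarith

/-- states of the construction -/
def Stt : Type := {s : ℕ × ℤ × ℝ × ℝ // Valid s.1 s.2.1 s.2.2.1 s.2.2.2}

lemma next (c : ℕ → ℝ) (n : ℕ) (s : Stt) : ∃ (s' : Stt) (Q : ℕ) (P : ℤ), 0 < Q ∧
    s'.1.1 = s.1.1 + 4 * Q ∧ s'.1.2.1 = s.1.2.1 + 4 * P ∧
    Metric.closedBall s'.1.2.2.1 s'.1.2.2.2 ⊆ Metric.closedBall s.1.2.2.1 s.1.2.2.2 ∧
    ∀ x ∈ Metric.closedBall s'.1.2.2.1 s'.1.2.2.2, (Q : ℝ) * |Q * x - P| ≤ (1 / 2) ^ n ∧
        |ee s'.1.1 s'.1.2.1 x| ≤ (1 / 2) ^ n ∧ x ≠ c n := by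
  obtain ⟨Q, P, g', δ', h1, h2, h3, h4⟩ := step s.2 ((1 / 2) ^ n) (by positivity) (c n)
  exact ⟨⟨(s.1.1 + 4 * Q, s.1.2.1 + 4 * P, g', δ'), h2⟩, Q, P, h1, rfl, rfl, h3, h4⟩

theorem num : TaskNum := by
  have hcount : Set.Countable {x : ℝ | IsAlgebraic ℚ x} := Algebraic.countable ℚ ℝ
  obtain ⟨c, hc⟩ := hcount.exists_eq_range ⟨0, isAlgebraic_zero⟩
  choose nxt Qf Pf hQ0 hK hL hsub hall using next c
  let s0 : Stt := ⟨(2, 0, √2 / 4, 1 / 10), valid0⟩
  let s : ℕ → Stt := fun n => Nat.rec s0 (fun n s => nxt n s) n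
  have hs : ∀ n, s (n + 1) = nxt n (s n) := fun n => rfl
  let B : ℕ → Set ℝ := fun n => Metric.closedBall (s n).1.2.2.1 (s n).1.2.2.2
  have hBsub : ∀ n, B (n + 1) ⊆ B n := fun n => hsub n (s n)
  have hBne : ∀ n, (B n).Nonempty := fun n => Metric.nonempty_closedBall.mpr (s n).2.hδ.le
  obtain ⟨γ, hγ⟩ := IsCompact.nonempty_iInter_of_sequence_nonempty_isCompact_isClosed B hBsub hBne
    (isCompact_closedBall _ _) (fun n => Metric.isClosed_closedBall)
  have hγB : ∀ n, γ ∈ B n := fun n => Set.mem_iInter.mp hγ n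
  have hprop := fun n => hall n (s n) γ (hγB (n + 1))
  have htr : Transcendental ℚ γ := by
    intro halg
    have : γ ∈ {x : ℝ | IsAlgebraic ℚ x} := halg
    rw [hc] at this
    obtain ⟨n, hn⟩ := this
    exact (hprop n).2.2 hn.symm
  have h0 := hγB 0
  have hlo := valid0.lo
  have hhi := valid0.hi
  have h0' : |γ - √2 / 4| ≤ 1 / 10 := by
    have : γ ∈ Metric.closedBall (√2 / 4 : ℝ) (1 / 10) := h0
    rwa [Metric.mem_closedBall, Real.dist_eq] at this
  rw [abs_le] at h0'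
  have hγ0 : 0 < γ := by linarith [h0'.1]
  have hγ1 : γ < 1 := by linarith [h0'.2]
  refine ⟨γ, hγ0, hγ1, htr.irrational, ?_, ?_⟩
  · intro j m hjm
    have h1 : (1 + 4 * γ) ≠ 0 := by positivity
    rw [div_eq_iff h1] at hjm
    apply htr
    refine ⟨Polynomial.C (4 * j : ℚ) * Polynomial.X ^ 2 + Polynomial.C (j + 4 * m - 2 : ℚ) * Polynomial.X
      + Polynomial.C (m - 1 : ℚ), ?_, ?_⟩
    · intro hp
      have e1 : (Polynomial.C (4 * j : ℚ) * Polynomial.X ^ 2 + Polynomial.C (j + 4 * m - 2 : ℚ) * Polynomial.X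
        + Polynomial.C (m - 1 : ℚ)).coeff 1 = 0 := by rw [hp, Polynomial.coeff_zero]
      have e2 : (Polynomial.C (4 * j : ℚ) * Polynomial.X ^ 2 + Polynomial.C (j + 4 * m - 2 : ℚ) * Polynomial.X
        + Polynomial.C (m - 1 : ℚ)).coeff 2 = 0 := by rw [hp, Polynomial.coeff_zero]
      rw [Polynomial.coeff_add, Polynomial.coeff_add, Polynomial.coeff_C_mul, Polynomial.coeff_C_mul,
        Polynomial.coeff_X_pow, Polynomial.coeff_X, Polynomial.coeff_C] at e1 e2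
      norm_num at e1 e2
      rw [e2] at e1
      have e3 : (4 : ℤ) * m = 2 := by
        have : (4 : ℚ) * m = 2 := by push_cast at e1; linarith
        exact_mod_cast this
      omega
    · simp only [map_add, map_mul, Polynomial.aeval_C, map_pow, Polynomial.aeval_X, eq_ratCast]
      push_cast
      linarith
  · refine ⟨fun n => (s n).1.1, fun n => (s n).1.2.1, fun n => Pf n (s n), fun n => Qf n (s n),
      fun n => ?_, fun n => (s n).2.hL, fun n => hQ0 n (s n), fun n => hK n (s n),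
      fun n => hL n (s n), ?_, ?_⟩
    · have h5 := (s n).2.hK
      show Even (s n).1.1
      exact Nat.even_iff.mpr (by omega)
    · rw [← tendsto_add_atTop_iff_nat 1]
      have hlim : Tendsto (fun n : ℕ => ((1 : ℝ) / 2) ^ n) atTop (𝓝 0) :=
        tendsto_pow_atTop_nhds_zero_of_lt_one (by norm_num) (by norm_num)
      rw [tendsto_iff_norm_sub_tendsto_zero]
      refine squeeze_zero (fun n => norm_nonneg _) (fun n => ?_) hlim
      have := (hprop n).2.1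
      exact this
    · refine Summable.of_nonneg_of_le (fun n => by positivity) (fun n => (hprop n).1) ?_
      exact summable_geometric_of_lt_one (by norm_num) (by norm_num)

end Pool.Agent.H212R4.Kes.Num
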