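import Mathlib
import Pool.Agent.H212R4.Kes.Stmts

open MeasureTheory Filter Topology
open scoped FourierTransform

noncomputable section

namespace Pool.Agent.H212R4.Kes

namespace PSaux

lemma gap_ge {x : ℤ → ℝ} {c : ℝ} (hx : ∀ n, c ≤ x (n + 1) - x n) (r : ℕ) (n : ℤ) :
    c * r ≤ x (n + r) - x n := by
  induction r with
  | zero => simp
  | succ r ih =>
    have h := hx (n + r)
    have e : n + ((r + 1 : ℕ) : ℤ) = n + r + 1 := by push_cast; ring
    rw [e]
    push_cast
    linarith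

lemma gap_le {x : ℤ → ℝ} {c : ℝ} (hx : ∀ n, c ≤ x (n + 1) - x n) {m n : ℤ} (h : m ≤ n) :
    c * ((n : ℝ) - m) ≤ x n - x m := by
  obtain ⟨r, hr⟩ := Int.eq_ofNat_of_zero_le (sub_nonneg.2 h)
  have h1 := gap_ge hx r m
  have h2 : n = m + r := by linarith
  rw [h2]
  push_cast
  have : (m : ℝ) + r - m = r := by ring
  rw [this]; exact h1

lemma win_finite {x : ℤ → ℝ} {c : ℝ} (hc : 0 < c) (hx : ∀ n, c ≤ x (n + 1) - x n) (T : ℝ) :
    (win x T).Finite := by
  obtain ⟨M, hM⟩ := exists_nat_ge ((T + |x 0|) / c)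
  refine (Set.finite_Icc (-(M : ℤ)) M).subset ?_
  intro n hn
  simp only [win, Set.mem_setOf_eq] at hn
  have h0 := abs_le.1 hn
  have hx0 := abs_le.1 (le_refl |x 0|)
  rw [div_le_iff₀ hc] at hM
  rw [Set.mem_Icc]
  rcases le_total 0 n with h | h
  · have h1 := gap_le hx h
    have h2 : c * (n : ℝ) ≤ M * c := by
      push_cast at h1
      have : c * (n - 0 : ℝ) = c * n := by ring
      linarith [h0.2, hx0.1]
    have h3 : (n : ℝ) ≤ M := by
      by_contra hcon
      push Not at hcon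
      have := mul_lt_mul_of_pos_left hcon hc
      linarith
    have h4 : n ≤ M := by exact_mod_cast h3
    omega
  · have h1 := gap_le hx h
    have h2 : c * (-(n : ℝ)) ≤ M * c := by
      push_cast at h1
      have : c * (0 - n : ℝ) = c * -n := by ring
      linarith [h0.1, hx0.2]
    have h3 : -(n : ℝ) ≤ M := by
      by_contra hcon
      push Not at hcon
      have := mul_lt_mul_of_pos_left hcon hc
      linarith
    have h4 : -n ≤ M := by exact_mod_cast h3
    omega

lemma card_le {x : ℤ → ℝ} {c : ℝ} (hc : 0 < c) (hx : ∀ n, c ≤ x (n + 1) - x n) (T : ℝ)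
    (hT : 0 ≤ T) : ((win_finite hc hx T).toFinset.card : ℝ) ≤ 2 * T / c + 1 := by
  set F := (win_finite hc hx T).toFinset with hF
  rcases F.eq_empty_or_nonempty with h | h
  · rw [h]; simp; positivity
  · have hm := F.min'_mem h
    have hM := F.max'_mem h
    have hmM : F.min' h ≤ F.max' h := F.min'_le _ hM
    have h1 : F ⊆ Finset.Icc (F.min' h) (F.max' h) := by
      intro n hn
      exact Finset.mem_Icc.2 ⟨F.min'_le _ hn, F.le_max' _ hn⟩
    have h2 := Finset.card_le_card h1
    rw [Int.card_Icc] at h2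
    have h3 := gap_le hx hmM
    have hmem : ∀ n ∈ F, |x n| ≤ T := fun n hn =>
      (Set.Finite.mem_toFinset (win_finite hc hx T)).1 hn
    have e1 : |x (F.min' h)| ≤ T := hmem _ hm
    have e2 : |x (F.max' h)| ≤ T := hmem _ hM
    have h4 : c * ((F.max' h : ℝ) - F.min' h) ≤ 2 * T := by
      have := abs_le.1 e1; have := abs_le.1 e2; linarith
    have h5 : (F.max' h : ℝ) - F.min' h ≤ 2 * T / c := by
      rw [le_div_iff₀ hc]; linarith
    have h6 : (F.card : ℤ) ≤ F.max' h + 1 - F.min' h := by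
      have : ((F.max' h + 1 - F.min' h).toNat : ℤ) = F.max' h + 1 - F.min' h :=
        Int.toNat_of_nonneg (by linarith)
      rw [← this]; exact_mod_cast h2
    have h7 : (F.card : ℝ) ≤ F.max' h + 1 - F.min' h := by exact_mod_cast h6
    linarith

lemma rsum_eq {x : ℤ → ℝ} {T : ℝ} (hW : (win x T).Finite) (f : ℝ → ℂ) (r : ℕ) :
    rsum x f r T = ∑ n ∈ hW.toFinset.filter (fun n => n + (r : ℤ) ∈ hW.toFinset),
      f (x (n + r) - x n) := by
  unfold rsum
  have h := Finset.tsum_subtype (hW.toFinset.filter (fun n => n + (r : ℤ) ∈ hW.toFinset))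
    (fun n : ℤ => f (x (n + r) - x n))
  rw [← h]
  have hiff : ∀ n : ℤ, (|x n| ≤ T ∧ |x (n + r)| ≤ T) ↔
      n ∈ hW.toFinset.filter (fun n => n + (r : ℤ) ∈ hW.toFinset) := by
    intro n
    simp [win]
  exact (Equiv.subtypeEquivRight hiff).tsum_eq
    (fun n : {n // n ∈ hW.toFinset.filter (fun n => n + (r : ℤ) ∈ hW.toFinset)} =>
      f (x (n.1 + r) - x n.1))

lemma pairSum_eq {x : ℤ → ℝ} {T : ℝ} (hW : (win x T).Finite) (f : ℝ → ℂ) :
    pairSum x f T = ∑ p ∈ hW.toFinset ×ˢ hW.toFinset, f (x p.1 - x p.2) := by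
  unfold pairSum
  have : Fintype (win x T) := hW.fintype
  rw [tsum_fintype, Fintype.sum_prod_type, Finset.sum_product]
  have h1 : ∀ g : ℤ → ℂ, ∑ a : win x T, g a = ∑ a ∈ hW.toFinset, g a := by
    intro g
    rw [Finset.sum_subtype hW.toFinset (p := fun n => n ∈ win x T) (by simp)]
  rw [← h1 (fun a => ∑ b ∈ hW.toFinset, f (x a - x b))]
  refine Finset.sum_congr rfl fun a _ => ?_
  exact h1 (fun b => f (x a - x b))

end PSaux

open PSaux

theorem ps : TaskPS := by
  intro x c hc hx f _ T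
  have hW := win_finite hc hx T
  set F := hW.toFinset with hF
  let G : ℤ → ℂ := fun d => ∑ n ∈ F.filter (fun n => n + d ∈ F), f (x (n + d) - x n)
  -- fibre decomposition
  let D : Finset ℤ := (F ×ˢ F).image (fun p => p.1 - p.2)
  have hpair : pairSum x f T = ∑ d ∈ D, G d := by
    rw [pairSum_eq hW f, ← hF]
    rw [← Finset.sum_fiberwise_of_maps_to (s := F ×ˢ F) (t := D) (g := fun p : ℤ × ℤ => p.1 - p.2)
      (fun p hp => Finset.mem_image_of_mem _ hp)]
    refine Finset.sum_congr rfl fun d _ => ?_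
    simp only [G]
    refine Finset.sum_nbij' (fun p : ℤ × ℤ => p.2) (fun n => (n + d, n)) ?_ ?_ ?_ ?_ ?_
    · rintro ⟨p, q⟩ hp
      simp only [Finset.mem_filter, Finset.mem_product] at hp ⊢
      obtain ⟨⟨h1, h2⟩, h3⟩ := hp
      refine ⟨h2, ?_⟩
      have : q + d = p := by rw [← h3]; ring
      rw [this]; exact h1
    · intro n hn
      simp only [Finset.mem_filter, Finset.mem_product] at hn ⊢
      exact ⟨⟨hn.2, hn.1⟩, by ring⟩
    · rintro ⟨p, q⟩ hp
      simp only [Finset.mem_filter, Finset.mem_product] at hp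
      have : q + d = p := by rw [← hp.2]; ring
      simp only [this]
    · intro n _; rfl
    · rintro ⟨p, q⟩ hp
      simp only [Finset.mem_filter, Finset.mem_product] at hp
      have : q + d = p := by rw [← hp.2]; ring
      simp only [this]
  have hG0 : ∀ d, d ∉ D → G d = 0 := by
    intro d hd
    simp only [G]
    have : F.filter (fun n => n + d ∈ F) = ∅ := by
      rw [Finset.filter_eq_empty_iff]
      intro n hn hn2
      apply hd
      refine Finset.mem_image.2 ⟨(n + d, n), Finset.mem_product.2 ⟨hn2, hn⟩, ?_⟩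
      simp
    rw [this, Finset.sum_empty]
  have hsum : HasSum G (∑ d ∈ D, G d) := hasSum_sum_of_ne_finset_zero (fun d hd => hG0 d hd)
  have h1 := hsum.nat_add_neg
  have h2 := (hasSum_nat_add_iff' 1).2 h1
  have e0 : rsum x f 0 T = G 0 := by
    rw [rsum_eq hW f 0]; rfl
  have e1 : ∀ r : ℕ, rsum x f (r + 1) T = G ((r + 1 : ℕ) : ℤ) := by
    intro r; rw [rsum_eq hW f (r + 1)]
  have e2 : ∀ r : ℕ, rsum x (fun z => f (-z)) (r + 1) T = G (-((r + 1 : ℕ) : ℤ)) := by
    intro r
    rw [rsum_eq hW _ (r + 1)]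
    simp only [G, ← hF]
    refine Finset.sum_nbij' (fun n => n + ((r + 1 : ℕ) : ℤ)) (fun n => n + -((r + 1 : ℕ) : ℤ))
      ?_ ?_ ?_ ?_ ?_
    · intro n hn
      simp only [Finset.mem_filter] at hn ⊢
      refine ⟨hn.2, ?_⟩
      rw [add_neg_cancel_right]; exact hn.1
    · intro n hn
      simp only [Finset.mem_filter] at hn ⊢
      refine ⟨hn.2, ?_⟩
      rw [neg_add_cancel_right]; exact hn.1
    · intro n _; ring
    · intro n _; ring
    · intro n _
      congr 1
      have : n + ((r + 1 : ℕ) : ℤ) + -((r + 1 : ℕ) : ℤ) = n := by ring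
      rw [this]; ring
  have h3 : HasSum (fun r : ℕ => rsum x f (r + 1) T + rsum x (fun z => f (-z)) (r + 1) T)
      (pairSum x f T - rsum x f 0 T) := by
    rw [hpair, e0]
    have h4 : (∑ d ∈ D, G d) - G 0 = (∑ d ∈ D, G d) + G 0 - ∑ i ∈ Finset.range 1,
        (G (i : ℤ) + G (-(i : ℤ))) := by
      rw [Finset.sum_range_one, Nat.cast_zero, neg_zero]; ring
    rw [h4]
    have h5 : (fun r : ℕ => rsum x f (r + 1) T + rsum x (fun z => f (-z)) (r + 1) T) =
        fun r : ℕ => (G ((r + 1 : ℕ) : ℤ) + G (-((r + 1 : ℕ) : ℤ))) := by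
      funext r; rw [e1, e2]
    rw [h5]
    exact h2
  refine ⟨h3.summable, ?_⟩
  rw [h3.tsum_eq]; ring

theorem rb : TaskRB := by
  intro x c hc hx f C hf r T hT
  have hW := win_finite hc hx T
  rw [rsum_eq hW f r]
  have hC : 0 ≤ C := by
    have h := hf 0
    have := norm_nonneg (f 0)
    simp at h
    linarith
  have h1 : ∀ n ∈ hW.toFinset.filter (fun n => n + (r : ℤ) ∈ hW.toFinset),
      ‖f (x (n + r) - x n)‖ ≤ C / (1 + (c * r) ^ 2) := by
    intro n _
    refine (hf _).trans ?_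
    have h2 := gap_ge hx r n
    have h3 : 0 ≤ c * r := by positivity
    have h4 : (c * r) ^ 2 ≤ (x (n + r) - x n) ^ 2 := pow_le_pow_left₀ h3 h2 2
    gcongr
  refine (Finset.sum_le_sum h1 |> (norm_sum_le _ _).trans).trans ?_
  rw [Finset.sum_const, nsmul_eq_mul]
  have h5 : ((hW.toFinset.filter (fun n => n + (r : ℤ) ∈ hW.toFinset)).card : ℝ) ≤ 2 * T / c + 1 := by
    refine le_trans ?_ (card_le hc hx T hT)
    exact_mod_cast Finset.card_le_card (Finset.filter_subset _ _)
  exact mul_le_mul_of_nonneg_right h5 (by positivity)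

end Pool.Agent.H212R4.Kes
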