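import Pool.Agent.H212R4.Kes.Stmts

/-! Task Tri of project H212-KESTEN (written by helper885). -/

set_option autoImplicit false

open MeasureTheory Filter Topology
open scoped FourierTransform

noncomputable section

namespace Pool.Agent.H212R4.Kes.TriW

open Pool.Agent.H212R4.Kes

/-- the triangle -/
def T (R z : ℝ) : ℝ := max 0 (1 - |z| / R) / R

theorem T_nonneg {R : ℝ} (hR : 0 < R) (z : ℝ) : 0 ≤ T R z := by
  unfold T; positivity

theorem T_cont (R : ℝ) : Continuous (T R) := by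
  unfold T
  fun_prop

theorem T_zero {R : ℝ} (hR : 0 < R) {z : ℝ} (hz : R ≤ |z|) : T R z = 0 := by
  unfold T
  have : 1 ≤ |z| / R := (one_le_div hR).2 hz
  rw [max_eq_left (by linarith), zero_div]

theorem T_le {R : ℝ} (hR : 0 < R) (z : ℝ) : T R z ≤ 1 / R := by
  unfold T
  have : 0 ≤ |z| / R := by positivity
  gcongr
  exact max_le zero_le_one (by linarith)

theorem T_pos_side {R : ℝ} (hR : 0 < R) {z : ℝ} (h0 : 0 ≤ z) (h1 : z ≤ R) :
    T R z = (1 - z / R) / R := by
  unfold T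
  have : z / R ≤ 1 := (div_le_one hR).2 h1
  rw [abs_of_nonneg h0, max_eq_right (by linarith)]

theorem T_neg_side {R : ℝ} (hR : 0 < R) {z : ℝ} (h0 : z ≤ 0) (h1 : -R ≤ z) :
    T R z = (1 + z / R) / R := by
  unfold T
  have : -z / R ≤ 1 := (div_le_one hR).2 (by linarith)
  rw [abs_of_nonpos h0, max_eq_right (by linarith), neg_div, sub_neg_eq_add]

/-- Fourier transform of the triangle -/
def K (R v : ℝ) : ℂ := ∫ z : ℝ, (T R z : ℂ) * Complex.exp ((-(2 * Real.pi * v) * z : ℝ) * Complex.I)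

theorem K_int {R : ℝ} (hR : 0 < R) (v : ℝ) :
    K R v = ∫ z in (-R)..R, (T R z : ℂ) * Complex.exp ((-(2 * Real.pi * v) * z : ℝ) * Complex.I) := by
  rw [intervalIntegral.integral_of_le (by linarith), K]
  symm
  apply setIntegral_eq_integral_of_forall_compl_eq_zero
  intro z hz
  have : R ≤ |z| := by
    by_contra h
    push Not at h
    rw [abs_lt] at h
    exact hz ⟨h.1, h.2.le⟩
  rw [T_zero hR this]
  simp

theorem K_cont {R : ℝ} (hR : 0 < R) : Continuous (K R) := by
  have h : K R = fun v => ∫ z in (-R)..R,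
      (T R z : ℂ) * Complex.exp ((-(2 * Real.pi * v) * z : ℝ) * Complex.I) := by
    funext v; exact K_int hR v
  rw [h]
  have hc := T_cont R
  apply intervalIntegral.continuous_parametric_intervalIntegral_of_continuous'
  simp only [Function.uncurry_def]
  fun_prop

theorem K_split {R : ℝ} (hR : 0 < R) (v : ℝ) (c : ℂ)
    (hc : c = ((-(2 * Real.pi * v) : ℝ) : ℂ) * Complex.I) :
    K R v = (∫ z in (-R)..0, ((1 + (z : ℂ) / R) / R) * Complex.exp (c * z)) +
      ∫ z in (0 : ℝ)..R, ((1 - (z : ℂ) / R) / R) * Complex.exp (c * z) := by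
  have hcont := T_cont R
  rw [K_int hR, ← intervalIntegral.integral_add_adjacent_intervals (b := 0)
    (Continuous.intervalIntegrable (by fun_prop) _ _)
    (Continuous.intervalIntegrable (by fun_prop) _ _)]
  congr 1
  · apply intervalIntegral.integral_congr
    intro z hz
    rw [Set.uIcc_of_le (by linarith)] at hz
    simp only
    rw [T_neg_side hR hz.2 hz.1, hc]
    push_cast
    congr 2
    ring
  · apply intervalIntegral.integral_congr
    intro z hz
    rw [Set.uIcc_of_le (by linarith)] at hz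
    simp only
    rw [T_pos_side hR hz.1 hz.2, hc]
    push_cast
    congr 2
    ring

theorem K_mul {R : ℝ} (hR : 0 < R) (v : ℝ) (c : ℂ)
    (hc : c = ((-(2 * Real.pi * v) : ℝ) : ℂ) * Complex.I) :
    c ^ 2 * K R v = (Complex.exp (c * R) + Complex.exp (-(c * R)) - 2) / R ^ 2 := by
  have hR' : (R : ℂ) ≠ 0 := by exact_mod_cast hR.ne'
  have hexp : ∀ z : ℝ, HasDerivAt (fun z : ℝ => Complex.exp (c * z)) (Complex.exp (c * z) * c) z := by
    intro z
    have h1 : HasDerivAt (fun z : ℝ => c * (z : ℂ)) (c * 1) z :=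
      (Complex.ofRealCLM.hasDerivAt (x := z)).const_mul c
    rw [mul_one] at h1
    exact h1.cexp
  have hid : ∀ z : ℝ, HasDerivAt (fun z : ℝ => (z : ℂ)) 1 z := fun z =>
    Complex.ofRealCLM.hasDerivAt (x := z)
  rw [K_split hR v c hc, mul_add, ← intervalIntegral.integral_const_mul,
    ← intervalIntegral.integral_const_mul]
  have hG : ∫ z in (0 : ℝ)..R, c ^ 2 * (((1 - (z : ℂ) / R) / R) * Complex.exp (c * z)) =
      (c * ((1 - ((R : ℝ) : ℂ) / R) / R) * Complex.exp (c * (R : ℝ)) +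
        1 / R ^ 2 * Complex.exp (c * (R : ℝ))) -
      (c * ((1 - ((0 : ℝ) : ℂ) / R) / R) * Complex.exp (c * (0 : ℝ)) +
        1 / R ^ 2 * Complex.exp (c * (0 : ℝ))) := by
    apply intervalIntegral.integral_eq_sub_of_hasDerivAt
      (f := fun z : ℝ => c * ((1 - (z : ℂ) / R) / R) * Complex.exp (c * z) +
        1 / R ^ 2 * Complex.exp (c * z))
    · intro z _
      have h1 : HasDerivAt (fun z : ℝ => c * ((1 - (z : ℂ) / R) / R)) (c * ((-(1 / R)) / R)) z := by
        have := (((hid z).div_const (R : ℂ)).const_sub 1).div_const (R : ℂ)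
        exact this.const_mul c
      have h2 := (h1.mul (hexp z)).add ((hexp z).const_mul (1 / (R : ℂ) ^ 2))
      refine h2.congr_deriv ?_
      field_simp
      ring
    · exact Continuous.intervalIntegrable (by fun_prop) _ _
  have hH : ∫ z in (-R)..0, c ^ 2 * (((1 + (z : ℂ) / R) / R) * Complex.exp (c * z)) =
      (c * ((1 + ((0 : ℝ) : ℂ) / R) / R) * Complex.exp (c * (0 : ℝ)) -
        1 / R ^ 2 * Complex.exp (c * (0 : ℝ))) -
      (c * ((1 + ((-R : ℝ) : ℂ) / R) / R) * Complex.exp (c * (-R : ℝ)) -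
        1 / R ^ 2 * Complex.exp (c * (-R : ℝ))) := by
    apply intervalIntegral.integral_eq_sub_of_hasDerivAt
      (f := fun z : ℝ => c * ((1 + (z : ℂ) / R) / R) * Complex.exp (c * z) -
        1 / R ^ 2 * Complex.exp (c * z))
    · intro z _
      have h1 : HasDerivAt (fun z : ℝ => c * ((1 + (z : ℂ) / R) / R)) (c * ((1 / R) / R)) z := by
        have := (((hid z).div_const (R : ℂ)).const_add 1).div_const (R : ℂ)
        exact this.const_mul c
      have h2 := (h1.mul (hexp z)).sub ((hexp z).const_mul (1 / (R : ℂ) ^ 2))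
      refine h2.congr_deriv ?_
      field_simp
      ring
    · exact Continuous.intervalIntegrable (by fun_prop) _ _
  rw [hG, hH]
  push_cast
  rw [mul_zero, Complex.exp_zero, mul_neg, neg_div, div_self hR']
  ring

theorem K_formula {R : ℝ} (hR : 0 < R) (v : ℝ) :
    K R v * ((2 * Real.pi ^ 2 * R ^ 2 * v ^ 2 : ℝ) : ℂ) =
      ((1 - Real.cos (2 * Real.pi * R * v) : ℝ) : ℂ) := by
  have hR' : (R : ℂ) ≠ 0 := by exact_mod_cast hR.ne'
  set c : ℂ := ((-(2 * Real.pi * v) : ℝ) : ℂ) * Complex.I with hc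
  have h := K_mul hR v c hc
  have h1 : c ^ 2 = -(4 * (Real.pi : ℂ) ^ 2 * (v : ℂ) ^ 2) := by
    rw [hc, mul_pow, Complex.I_sq]
    push_cast
    ring
  have h2 : Complex.exp (c * R) + Complex.exp (-(c * R)) =
      2 * ((Real.cos (2 * Real.pi * R * v) : ℝ) : ℂ) := by
    rw [Complex.ofReal_cos, Complex.cos]
    have h3 : c * R = -(((2 * Real.pi * R * v : ℝ) : ℂ) * Complex.I) := by
      rw [hc]; push_cast; ring
    rw [h3, neg_neg, neg_mul]
    ring
  rw [h1, h2, eq_div_iff (pow_ne_zero 2 hR')] at h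
  push_cast at h ⊢
  linear_combination (-1 / 2 : ℂ) * h

theorem K_zero {R : ℝ} (hR : 0 < R) : K R 0 = 1 := by
  have hR' : (R : ℂ) ≠ 0 := by exact_mod_cast hR.ne'
  have hid : ∀ z : ℝ, HasDerivAt (fun z : ℝ => (z : ℂ)) 1 z := fun z =>
    Complex.ofRealCLM.hasDerivAt (x := z)
  rw [K_split hR 0 0 (by simp)]
  simp only [zero_mul, Complex.exp_zero, mul_one]
  have hG : ∫ z in (0 : ℝ)..R, ((1 - (z : ℂ) / R) / R) =
      ((((R : ℝ) : ℂ) - ((R : ℝ) : ℂ) ^ 2 / (2 * R)) / R) -
        ((((0 : ℝ) : ℂ) - ((0 : ℝ) : ℂ) ^ 2 / (2 * R)) / R) := by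
    apply intervalIntegral.integral_eq_sub_of_hasDerivAt
      (f := fun z : ℝ => ((z : ℂ) - (z : ℂ) ^ 2 / (2 * R)) / R)
    · intro z _
      have h2 := ((hid z).sub (((hid z).pow 2).div_const (2 * (R : ℂ)))).div_const (R : ℂ)
      refine h2.congr_deriv ?_
      field_simp
      ring
    · exact Continuous.intervalIntegrable (by fun_prop) _ _
  have hH : ∫ z in (-R)..0, ((1 + (z : ℂ) / R) / R) =
      ((((0 : ℝ) : ℂ) + ((0 : ℝ) : ℂ) ^ 2 / (2 * R)) / R) -
        ((((-R : ℝ) : ℂ) + ((-R : ℝ) : ℂ) ^ 2 / (2 * R)) / R) := by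
    apply intervalIntegral.integral_eq_sub_of_hasDerivAt
      (f := fun z : ℝ => ((z : ℂ) + (z : ℂ) ^ 2 / (2 * R)) / R)
    · intro z _
      have h2 := ((hid z).add (((hid z).pow 2).div_const (2 * (R : ℂ)))).div_const (R : ℂ)
      refine h2.congr_deriv ?_
      field_simp
      ring
    · exact Continuous.intervalIntegrable (by fun_prop) _ _
  rw [hG, hH]
  push_cast
  field_simp
  ring

theorem K_norm_le {R : ℝ} (hR : 0 < R) (v : ℝ) : ‖K R v‖ ≤ 1 := by
  have h1 : ‖K R v‖ ≤ ∫ z : ℝ, T R z := by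
    unfold K
    refine (norm_integral_le_integral_norm _).trans (le_of_eq ?_)
    congr 1
    funext z
    rw [norm_mul, Complex.norm_exp_ofReal_mul_I, mul_one, Complex.norm_real,
      Real.norm_of_nonneg (T_nonneg hR z)]
  have h2 : ((∫ z : ℝ, T R z : ℝ) : ℂ) = K R 0 := by
    unfold K
    rw [← integral_complex_ofReal]
    congr 1
    funext z
    simp
  rw [K_zero hR] at h2
  have h3 : ∫ z : ℝ, T R z = 1 := by exact_mod_cast h2
  rwa [h3] at h1

theorem K_norm_mul {R : ℝ} (hR : 0 < R) (v : ℝ) :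
    ‖K R v‖ * (Real.pi ^ 2 * R ^ 2 * v ^ 2) = Real.sin (Real.pi * R * v) ^ 2 := by
  have h := congrArg norm (K_formula hR v)
  rw [norm_mul, Complex.norm_real, Complex.norm_real,
    Real.norm_of_nonneg (by positivity : (0 : ℝ) ≤ 2 * Real.pi ^ 2 * R ^ 2 * v ^ 2),
    Real.norm_of_nonneg (by linarith [Real.cos_le_one (2 * Real.pi * R * v)])] at h
  have h2 : Real.cos (2 * Real.pi * R * v) = 1 - 2 * Real.sin (Real.pi * R * v) ^ 2 := by
    have h3 : 2 * Real.pi * R * v = 2 * (Real.pi * R * v) := by ring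
    rw [h3, Real.cos_two_mul, Real.cos_sq']
    ring
  rw [h2] at h
  linarith

theorem one_le_pi_sq : 1 ≤ Real.pi ^ 2 := by nlinarith [Real.pi_gt_three]

theorem K_decay {R : ℝ} (hR : 1 ≤ R) (v : ℝ) : ‖K R v‖ * (1 + v ^ 2) ≤ 2 := by
  have hR0 : 0 < R := by linarith
  have h1 := K_norm_le hR0 v
  have h2 := K_norm_mul hR0 v
  have h3 : Real.sin (Real.pi * R * v) ^ 2 ≤ 1 := Real.sin_sq_le_one _
  have h4 : ‖K R v‖ * v ^ 2 ≤ ‖K R v‖ * (Real.pi ^ 2 * R ^ 2 * v ^ 2) := by
    gcongr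
    have : 1 ≤ Real.pi ^ 2 * R ^ 2 := by nlinarith [one_le_pi_sq]
    nlinarith [sq_nonneg v]
  linarith

theorem K_decay' {R : ℝ} (hR : 0 < R) : ∃ C : ℝ, ∀ v, ‖K R v‖ ≤ C / (1 + v ^ 2) := by
  refine ⟨1 + 1 / (Real.pi ^ 2 * R ^ 2), fun v => ?_⟩
  rw [le_div_iff₀ (by positivity)]
  have h1 := K_norm_le hR v
  have h2 := K_norm_mul hR v
  have h3 : Real.sin (Real.pi * R * v) ^ 2 ≤ 1 := Real.sin_sq_le_one _
  have h4 : ‖K R v‖ * v ^ 2 ≤ 1 / (Real.pi ^ 2 * R ^ 2) := by
    rw [le_div_iff₀ (by positivity)]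
    linarith
  linarith

theorem tri_eq (R s z : ℝ) : tri R s z =
    (T R z : ℂ) * Complex.exp ((-(2 * Real.pi * s) * z : ℝ) * Complex.I) := by
  unfold tri T
  congr 3
  push_cast
  ring

theorem four_tri (R s w : ℝ) : 𝓕 (tri R s) w = K R (s + w) := by
  rw [Real.fourier_real_eq_integral_exp_smul]
  unfold K
  congr 1
  funext z
  rw [tri_eq, smul_eq_mul, mul_left_comm, ← Complex.exp_add]
  congr 2
  push_cast
  ring

theorem fourInv_tri (R s w : ℝ) : 𝓕⁻ (tri R s) w = K R (s - w) := by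
  rw [Real.fourierInv_eq_fourier_neg, four_tri, sub_eq_add_neg]

theorem tri_cont (R s : ℝ) : Continuous (tri R s) := by
  have : tri R s = fun z => (T R z : ℂ) *
      Complex.exp ((-(2 * Real.pi * s) * z : ℝ) * Complex.I) := by
    funext z; exact tri_eq R s z
  rw [this]
  have hc := T_cont R
  fun_prop

theorem tri_norm {R : ℝ} (hR : 0 < R) (s z : ℝ) : ‖tri R s z‖ = T R z := by
  rw [tri_eq, norm_mul, Complex.norm_exp_ofReal_mul_I, mul_one, Complex.norm_real,
      Real.norm_of_nonneg (T_nonneg hR z)]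

theorem tri_dec {R : ℝ} (hR : 0 < R) (s : ℝ) : Dec (tri R s) := by
  refine ⟨tri_cont R s, (1 + R ^ 2) / R, fun z => ?_⟩
  rw [tri_norm hR]
  rcases le_or_gt R |z| with h | h
  · rw [T_zero hR h]; positivity
  · rw [le_div_iff₀ (by positivity)]
    have h1 := T_le hR z
    have h2 : z ^ 2 ≤ R ^ 2 := by
      rw [← sq_abs z]
      gcongr
    calc T R z * (1 + z ^ 2) ≤ (1 / R) * (1 + R ^ 2) := by
          gcongr
      _ = (1 + R ^ 2) / R := by ring

theorem dec_integrable {f : ℝ → ℂ} (h : Dec f) : Integrable f := by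
  obtain ⟨hc, C, hC⟩ := h
  have h1 : Integrable (fun z : ℝ => C * (1 + z ^ 2)⁻¹) := integrable_inv_one_add_sq.const_mul C
  refine h1.mono' hc.aestronglyMeasurable (Eventually.of_forall fun z => ?_)
  simpa [div_eq_mul_inv] using hC z

/-- the shifted kernel -/
def φ (R s w : ℝ) : ℂ := K R (s - w)

theorem phi_dec {R : ℝ} (hR : 0 < R) (s : ℝ) : Dec (φ R s) := by
  refine ⟨(K_cont hR).comp (continuous_const.sub continuous_id), ?_⟩
  obtain ⟨C, hC⟩ := K_decay' hR
  have hC0 : 0 ≤ C := by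
    have := (norm_nonneg _).trans (hC 0)
    simpa using this
  refine ⟨C * (2 * (1 + s ^ 2)), fun z => ?_⟩
  unfold φ
  refine (hC (s - z)).trans ?_
  rw [div_le_div_iff₀ (by positivity) (by positivity), mul_assoc]
  apply mul_le_mul_of_nonneg_left _ hC0
  nlinarith [sq_nonneg (s - z), sq_nonneg (s * (s - z)), sq_nonneg (2 * s - z), sq_nonneg z, sq_nonneg s]

theorem four_phi {R : ℝ} (hR : 0 < R) (s : ℝ) : 𝓕 (φ R s) = tri R s := by
  have h1 : φ R s = 𝓕⁻ (tri R s) := by
    funext w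
    exact (fourInv_tri R s w).symm
  rw [h1]
  apply Continuous.fourier_fourierInv_eq (tri_cont R s) (dec_integrable (tri_dec hR s))
  have h2 : 𝓕 (tri R s) = fun w => φ R s (-w) := by
    funext w
    rw [four_tri, φ, sub_neg_eq_add]
  rw [h2]
  exact (dec_integrable (phi_dec hR s)).comp_neg

theorem tri_ok' : TaskTri := by
  intro η μ hμ hF s
  have hphi : ∀ R : ℝ, 0 < R → ∀ s : ℝ, Integrable (φ R s) μ ∧ ∫ w, φ R s w ∂μ = ∫ z, tri R s z ∂η := by
    intro R hR s
    have h := hF (φ R s) (phi_dec hR s) (by rw [four_phi hR]; exact tri_dec hR s)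
    rwa [four_phi hR] at h
  -- the dominating function
  have hdom : Integrable (fun w => 4 * Real.pi ^ 2 * (‖φ 1 s w‖ + ‖φ 1 (s - 1 / 2) w‖)) μ :=
    (((hphi 1 one_pos s).1.norm).add ((hphi 1 one_pos (s - 1 / 2)).1.norm)).const_mul _
  have hkey : ∀ v : ℝ, 1 ≤ (2 * Real.pi ^ 2 * (‖K 1 v‖ + ‖K 1 (v - 1 / 2)‖)) * (1 + v ^ 2) := by
    intro v
    have h1 := K_norm_mul one_pos v
    have h2 := K_norm_mul one_pos (v - 1 / 2)
    have h3 : Real.sin (Real.pi * 1 * (v - 1 / 2)) = -Real.cos (Real.pi * 1 * v) := by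
      rw [show Real.pi * 1 * (v - 1 / 2) = Real.pi * 1 * v - Real.pi / 2 by ring,
        Real.sin_sub_pi_div_two]
    rw [h3, neg_sq] at h2
    have h4 := Real.sin_sq_add_cos_sq (Real.pi * 1 * v)
    have hpi : 0 ≤ Real.pi ^ 2 := by positivity
    have hA : 0 ≤ ‖K 1 v‖ * Real.pi ^ 2 := by positivity
    have hB : 0 ≤ ‖K 1 (v - 1 / 2)‖ * Real.pi ^ 2 := by positivity
    have h5 : (v - 1 / 2) ^ 2 ≤ 2 * (1 + v ^ 2) := by nlinarith [sq_nonneg (v + 1 / 2)]
    have h6 : v ^ 2 ≤ 2 * (1 + v ^ 2) := by nlinarith [sq_nonneg v]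
    have h7 := mul_le_mul_of_nonneg_left h5 hB
    have h8 := mul_le_mul_of_nonneg_left h6 hA
    nlinarith
  have hlim : Tendsto (fun R : ℝ => ∫ w, φ R s w ∂μ) atTop
      (𝓝 (∫ w, ({s} : Set ℝ).indicator (fun _ => (1 : ℂ)) w ∂μ)) := by
    apply tendsto_integral_filter_of_dominated_convergence
      (fun w => 4 * Real.pi ^ 2 * (‖φ 1 s w‖ + ‖φ 1 (s - 1 / 2) w‖))
    · filter_upwards [eventually_gt_atTop 0] with R hR
      exact (phi_dec hR s).1.aestronglyMeasurable
    · filter_upwards [eventually_ge_atTop 1] with R hR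
      refine Eventually.of_forall fun w => ?_
      have h1 := K_decay hR (s - w)
      have h2 := hkey (s - w)
      have h3 : s - w - 1 / 2 = s - 1 / 2 - w := by ring
      rw [h3] at h2
      unfold φ
      have h4 : 0 < 1 + (s - w) ^ 2 := by positivity
      have h5 : ‖K R (s - w)‖ * (1 + (s - w) ^ 2) ≤
          (4 * Real.pi ^ 2 * (‖K 1 (s - w)‖ + ‖K 1 (s - 1 / 2 - w)‖)) * (1 + (s - w) ^ 2) := by
        linarith
      exact le_of_mul_le_mul_right h5 h4
    · exact hdom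
    · refine Eventually.of_forall fun w => ?_
      by_cases hw : w = s
      · subst hw
        rw [Set.indicator_of_mem (Set.mem_singleton _)]
        refine tendsto_const_nhds.congr' ?_
        filter_upwards [eventually_gt_atTop 0] with R hR
        rw [φ, sub_self, K_zero hR]
      · rw [Set.indicator_of_notMem (by simpa using hw)]
        have hv : 0 < (s - w) ^ 2 := by
          have : s - w ≠ 0 := sub_ne_zero.2 (Ne.symm hw)
          positivity
        rw [tendsto_zero_iff_norm_tendsto_zero]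
        have h1 : Tendsto (fun R : ℝ => (1 / (Real.pi ^ 2 * (s - w) ^ 2)) * (R ^ 2)⁻¹) atTop (𝓝 0) := by
          have h2 : Tendsto (fun R : ℝ => (R ^ 2)⁻¹) atTop (𝓝 0) :=
            tendsto_inv_atTop_zero.comp (tendsto_pow_atTop two_ne_zero)
          have h3 := h2.const_mul (1 / (Real.pi ^ 2 * (s - w) ^ 2))
          rwa [mul_zero] at h3
        refine squeeze_zero' (Eventually.of_forall fun _ => norm_nonneg _) ?_ h1
        filter_upwards [eventually_gt_atTop 0] with R hR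
        have h3 := K_norm_mul hR (s - w)
        have h4 : Real.sin (Real.pi * R * (s - w)) ^ 2 ≤ 1 := Real.sin_sq_le_one _
        unfold φ
        rw [← h3] at h4
        rw [one_div, ← mul_inv, ← one_div, le_div_iff₀ (by positivity)]
        calc ‖K R (s - w)‖ * (Real.pi ^ 2 * (s - w) ^ 2 * R ^ 2)
            = ‖K R (s - w)‖ * (Real.pi ^ 2 * R ^ 2 * (s - w) ^ 2) := by ring
          _ ≤ 1 := h4
  have hI : ∫ w, ({s} : Set ℝ).indicator (fun _ => (1 : ℂ)) w ∂μ = (((μ {s}).toReal : ℝ) : ℂ) := by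
    rw [integral_indicator (measurableSet_singleton s)]
    simp [Measure.real]
  rw [hI] at hlim
  refine hlim.congr' ?_
  filter_upwards [eventually_gt_atTop 0] with R hR
  exact (hphi R hR s).2

end TriW

theorem tri_ok : TaskTri := TriW.tri_ok'

end Pool.Agent.H212R4.Kes
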