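import Pool.Agent.H212R4.Kes.Stmts

/-! Task V of project H212-KESTEN (helper220). -/

set_option autoImplicit false

open MeasureTheory Filter Topology Finset

noncomputable section

namespace Pool.Agent.H212R4.Kes.V

open Pool.Agent.H212R4.Kes

/-- sign of an integer parity -/
def sg (m : ℤ) : ℝ := if Even m then 1 else -1

lemma sg_add (a b : ℤ) : sg (a + b) = sg a * sg b := by
  unfold sg
  by_cases ha : Even a <;> by_cases hb : Even b <;> simp [Int.even_add, ha, hb]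

lemma sg_pm (a : ℤ) : sg a = 1 ∨ sg a = -1 := by
  unfold sg
  split_ifs
  · exact Or.inl rfl
  · exact Or.inr rfl

lemma sg_of_even {a : ℤ} (h : Even a) : sg a = 1 := if_pos h

lemma sg_add_even (a : ℤ) {b : ℤ} (h : Even b) : sg (a + b) = sg a := by
  rw [sg_add, sg_of_even h, mul_one]

/-- the exponent -/
def EE (γ : ℝ) (K : ℕ) (x : ℝ) : ℤ := ∑ j ∈ range K, ⌊x - ((j : ℝ) + 1) * γ⌋

/-- the approximations -/
def W (γ : ℝ) (K : ℕ) (x : ℝ) : ℝ := sg (EE γ K x)

lemma W_pm (γ : ℝ) (K : ℕ) (x : ℝ) : W γ K x = 1 ∨ W γ K x = -1 := sg_pm _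

lemma W_per (γ : ℝ) {K : ℕ} (hK : Even K) (x : ℝ) : W γ K (x + 1) = W γ K x := by
  have h : EE γ K (x + 1) = EE γ K x + K := by
    unfold EE
    have : ∀ j ∈ range K, ⌊x + 1 - ((j : ℝ) + 1) * γ⌋ = ⌊x - ((j : ℝ) + 1) * γ⌋ + 1 := by
      intro j _
      rw [← Int.floor_add_one]
      congr 1
      ring
    rw [sum_congr rfl this, sum_add_distrib, sum_const, card_range]
    simp
  unfold W
  rw [h, sg_add_even]
  exact_mod_cast hK

lemma W_shift (γ : ℝ) (K : ℕ) (L : ℤ) (hL : Even L) (x : ℝ) :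
    W γ K (x + γ) * W γ K x = sg (⌊x - (K * γ - L)⌋ - ⌊x⌋) := by
  unfold W
  rw [← sg_add]
  set f : ℕ → ℤ := fun j => ⌊x - (j : ℝ) * γ⌋ with hf
  have h1 : EE γ K (x + γ) = ∑ j ∈ range K, f j := by
    unfold EE
    refine sum_congr rfl fun j _ => ?_
    rw [hf]
    dsimp only
    congr 1
    ring
  have h2 : EE γ K x = ∑ j ∈ range K, f (j + 1) := by
    unfold EE
    refine sum_congr rfl fun j _ => ?_
    rw [hf]
    dsimp only
    push_cast
    rfl
  have h3 : ∑ j ∈ range K, f (j + 1) + f 0 = ∑ j ∈ range K, f j + f K := by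
    rw [← sum_range_succ', ← sum_range_succ]
  have h4 : f 0 = ⌊x⌋ := by
    rw [hf]
    simp
  have h5 : f K = ⌊x - (K * γ - L)⌋ - L := by
    rw [hf, ← Int.floor_sub_intCast]
    dsimp only
    congr 1
    ring
  have h6 : EE γ K (x + γ) + EE γ K x =
      (⌊x - (K * γ - L)⌋ - ⌊x⌋) + (2 * (∑ j ∈ range K, f j) - L) := by
    rw [h1, h2]
    linarith
  rw [h6, sg_add_even]
  exact (even_two_mul _).sub hL

/-- values at the rational points -/
lemma even_sum (x : ℝ) (P : ℤ) (Q : ℕ) (hQ : 0 < Q) :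
    Even (∑ i ∈ range (4 * Q), ⌊x - (i : ℝ) * ((P : ℝ) / Q)⌋) := by
  have hQ' : (Q : ℝ) ≠ 0 := by positivity
  have e : 4 * Q = 2 * Q + 2 * Q := by ring
  rw [e, sum_range_add]
  have h : ∀ i ∈ range (2 * Q), ⌊x - ((2 * Q + i : ℕ) : ℝ) * ((P : ℝ) / Q)⌋ =
      ⌊x - (i : ℝ) * ((P : ℝ) / Q)⌋ - 2 * P := by
    intro i _
    have e2 : x - ((2 * Q + i : ℕ) : ℝ) * ((P : ℝ) / Q) =
        x - (i : ℝ) * ((P : ℝ) / Q) - ((2 * P : ℤ) : ℝ) := by
      push_cast
      field_simp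
      ring
    rw [e2, Int.floor_sub_intCast]
  rw [sum_congr rfl h, sum_sub_distrib, sum_const, card_range]
  have e3 : ∑ i ∈ range (2 * Q), ⌊x - (i : ℝ) * ((P : ℝ) / Q)⌋ +
      (∑ i ∈ range (2 * Q), ⌊x - (i : ℝ) * ((P : ℝ) / Q)⌋ - (2 * Q) • (2 * P)) =
      2 * (∑ i ∈ range (2 * Q), ⌊x - (i : ℝ) * ((P : ℝ) / Q)⌋ - Q * (2 * P)) := by
    rw [nsmul_eq_mul]
    push_cast
    ring
  rw [e3]
  exact even_two_mul _

lemma floor_close (x γ : ℝ) (P : ℤ) (Q : ℕ) (hQ : 0 < Q)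
    (hx : ∀ m : ℤ, 4 * ((Q : ℝ) * |Q * γ - P|) < |(Q : ℝ) * x - m|) (i : ℕ) (hi : i < 4 * Q) :
    ⌊x - (i : ℝ) * γ⌋ = ⌊x - (i : ℝ) * ((P : ℝ) / Q)⌋ := by
  have hQ' : (0 : ℝ) < Q := by positivity
  set y : ℝ := x - (i : ℝ) * ((P : ℝ) / Q) with hy
  set δ : ℝ := |(Q : ℝ) * γ - P| with hδ
  have hδ0 : 0 ≤ δ := abs_nonneg _
  -- distance from y to integers
  have hd : ∀ m : ℤ, 4 * δ < |y - m| := by
    intro m
    have h1 := hx ((i : ℤ) * P + Q * m)
    have h2 : (Q : ℝ) * x - (((i : ℤ) * P + Q * m : ℤ) : ℝ) = Q * (y - m) := by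
      rw [hy]
      push_cast
      field_simp
      ring
    rw [h2, abs_mul, abs_of_pos hQ'] at h1
    have h3 : (Q : ℝ) * (4 * δ) < Q * |y - m| := by linarith
    exact lt_of_mul_lt_mul_left h3 hQ'.le
  have hz : |(x - (i : ℝ) * γ) - y| ≤ 4 * δ := by
    have h1 : (x - (i : ℝ) * γ) - y = -((i : ℝ) / Q * ((Q : ℝ) * γ - P)) := by
      rw [hy]
      field_simp
      ring
    rw [h1, abs_neg, abs_mul, ← hδ, abs_of_nonneg (by positivity)]
    apply mul_le_mul_of_nonneg_right _ hδ0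
    rw [div_le_iff₀ hQ']
    have : (i : ℝ) ≤ ((4 * Q : ℕ) : ℝ) := by exact_mod_cast hi.le
    push_cast at this
    exact this
  rw [Int.floor_eq_iff]
  have hk1 := Int.floor_le y
  have hk2 := Int.lt_floor_add_one y
  have hd1 := hd ⌊y⌋
  have hd2 := hd (⌊y⌋ + 1)
  rw [abs_of_nonneg (by linarith)] at hd1
  push_cast at hd2
  rw [abs_of_neg (by linarith)] at hd2
  have h3 := abs_le.1 hz
  constructor
  · linarith [h3.1]
  · linarith [h3.2]

lemma W_succ (γ : ℝ) (K : ℕ) (P : ℤ) (Q : ℕ) (hQ : 0 < Q) (x : ℝ)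
    (hx : ∀ m : ℤ, 4 * ((Q : ℝ) * |Q * γ - P|) < |(Q : ℝ) * (x - (K + 1) * γ) - m|) :
    W γ (K + 4 * Q) x = W γ K x := by
  have h : EE γ (K + 4 * Q) x = EE γ K x +
      ∑ i ∈ range (4 * Q), ⌊(x - (K + 1) * γ) - (i : ℝ) * ((P : ℝ) / Q)⌋ := by
    unfold EE
    rw [sum_range_add]
    congr 1
    refine sum_congr rfl fun i hi => ?_
    rw [← floor_close (x - (K + 1) * γ) γ P Q hQ hx i (mem_range.1 hi)]
    congr 1
    push_cast
    ring
  unfold W
  rw [h, sg_add_even _ (even_sum _ P Q hQ)]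

/-- the bad sets -/
def bad (c δ : ℝ) (Q : ℕ) : Set ℝ := {x | ∃ m : ℤ, |(Q : ℝ) * (x - c) - m| ≤ δ}

lemma bad_meas (c δ u : ℝ) (hδ : 0 ≤ δ) (Q : ℕ) (hQ : 0 < Q) :
    volume (bad c δ Q ∩ Set.Ico u (u + 1)) ≤ ENNReal.ofReal (2 * δ * (2 + 2 * δ)) := by
  have hQ' : (0 : ℝ) < Q := by positivity
  have hQ1 : (1 : ℝ) ≤ Q := by exact_mod_cast hQ
  set a : ℤ := ⌈(Q : ℝ) * (u - c) - δ⌉ with ha
  set b : ℤ := ⌊(Q : ℝ) * (u + 1 - c) + δ⌋ with hb
  have hsub : bad c δ Q ∩ Set.Ico u (u + 1) ⊆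
      ⋃ m ∈ Finset.Icc a b, Set.Icc ((m - δ) / Q + c) ((m + δ) / Q + c) := by
    rintro x ⟨⟨m, hm⟩, hx1, hx2⟩
    rw [abs_le] at hm
    have h1 : (Q : ℝ) * (u - c) ≤ Q * (x - c) := mul_le_mul_of_nonneg_left (by linarith) hQ'.le
    have h2 : (Q : ℝ) * (x - c) ≤ Q * (u + 1 - c) :=
      mul_le_mul_of_nonneg_left (by linarith) hQ'.le
    rw [Set.mem_iUnion₂]
    refine ⟨m, Finset.mem_Icc.2 ⟨?_, ?_⟩, ?_, ?_⟩
    · rw [ha, Int.ceil_le]; linarith [hm.2]
    · rw [hb, Int.le_floor]; linarith [hm.1]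
    · have : (m - δ) / Q ≤ x - c := by
        rw [div_le_iff₀ hQ']; nlinarith [hm.1, hm.2]
      linarith
    · have : x - c ≤ (m + δ) / Q := by
        rw [le_div_iff₀ hQ']; nlinarith [hm.1, hm.2]
      linarith
  refine (measure_mono hsub).trans ?_
  refine (measure_biUnion_finset_le _ _).trans ?_
  have hv : ∀ m ∈ Finset.Icc a b, volume (Set.Icc (((m : ℝ) - δ) / Q + c) ((m + δ) / Q + c)) ≤
      ENNReal.ofReal (2 * δ / Q) := by
    intro m _
    rw [Real.volume_Icc]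
    apply ENNReal.ofReal_le_ofReal
    apply le_of_eq
    field_simp
    ring
  refine (Finset.sum_le_sum hv).trans ?_
  rw [Finset.sum_const, nsmul_eq_mul, ← ENNReal.ofReal_natCast, ← ENNReal.ofReal_mul (by positivity)]
  apply ENNReal.ofReal_le_ofReal
  have hcard : (((Finset.Icc a b).card : ℕ) : ℝ) ≤ Q + 2 * δ + 1 := by
    rw [Int.card_Icc]
    rcases le_total (b + 1 - a) 0 with h | h
    · rw [Int.toNat_of_nonpos h]
      push_cast
      positivity
    · have h1 : (((b + 1 - a).toNat : ℕ) : ℝ) = ((b + 1 - a : ℤ) : ℝ) := by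
        have : (((b + 1 - a).toNat : ℕ) : ℤ) = b + 1 - a := Int.toNat_of_nonneg h
        exact_mod_cast this
      rw [h1]
      push_cast
      have h2 : (b : ℝ) ≤ (Q : ℝ) * (u + 1 - c) + δ := Int.floor_le _
      have h3 : (Q : ℝ) * (u - c) - δ ≤ a := Int.le_ceil _
      nlinarith
  calc (((Finset.Icc a b).card : ℕ) : ℝ) * (2 * δ / Q) ≤ (Q + 2 * δ + 1) * (2 * δ / Q) :=
        mul_le_mul_of_nonneg_right hcard (by positivity)
    _ = 2 * δ * (1 + (2 * δ + 1) / Q) := by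
        field_simp
        ring
    _ ≤ 2 * δ * (2 + 2 * δ) := by
        apply mul_le_mul_of_nonneg_left _ (by positivity)
        have : (2 * δ + 1) / Q ≤ 2 * δ + 1 := div_le_self (by positivity) hQ1
        linarith

/-- Borel-Cantelli -/
lemma ae_good (c δ : ℕ → ℝ) (Q : ℕ → ℕ) (hQ : ∀ n, 0 < Q n) (hδ : ∀ n, 0 ≤ δ n)
    (hs : Summable δ) : ∀ᵐ x : ℝ, ∀ᶠ n in atTop, x ∉ bad (c n) (δ n) (Q n) := by
  set M : ℝ := ∑' n, δ n with hM
  have hM0 : 0 ≤ M := tsum_nonneg hδ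
  have hle : ∀ n, δ n ≤ M := fun n => hs.le_tsum n (fun j _ => hδ j)
  have hnull : ∀ u : ℤ, volume (limsup (fun n => bad (c n) (δ n) (Q n) ∩ Set.Ico (u : ℝ) (u + 1))
      atTop) = 0 := by
    intro u
    apply measure_limsup_atTop_eq_zero
    have h1 : Summable (fun n => (4 + 4 * M) * δ n) := hs.mul_left _
    refine ne_top_of_le_ne_top h1.tsum_ofReal_ne_top (ENNReal.tsum_le_tsum fun n => ?_)
    refine (bad_meas (c n) (δ n) u (hδ n) (Q n) (hQ n)).trans ?_
    apply ENNReal.ofReal_le_ofReal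
    have := hle n
    have := hδ n
    nlinarith
  have hall : volume (⋃ u : ℤ, limsup (fun n => bad (c n) (δ n) (Q n) ∩
      Set.Ico (u : ℝ) (u + 1)) atTop) = 0 := measure_iUnion_null hnull
  rw [ae_iff]
  refine measure_mono_null ?_ hall
  intro x hx
  rw [Set.mem_ofPred_eq, not_eventually] at hx
  rw [Set.mem_iUnion]
  refine ⟨⌊x⌋, ?_⟩
  rw [mem_limsup_iff_frequently_mem]
  refine hx.mono fun n hn => ?_
  rw [not_not] at hn
  exact ⟨hn, Int.floor_le x, Int.lt_floor_add_one x⟩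

lemma W_meas (γ : ℝ) (K : ℕ) : Measurable (W γ K) := by
  have h1 : Measurable (EE γ K) := by
    unfold EE
    apply Finset.measurable_sum
    intro j _
    exact Int.measurable_floor.comp (by fun_prop)
  have h2 : Measurable sg := measurable_from_top
  exact h2.comp h1

theorem v_ok : TaskV := by
  intro γ D hD0 hD1 hA
  obtain ⟨K, L, P, Q, hK, hL, hQ, hKs, hLs, hlim, hsum⟩ := hA
  set V : ℕ → ℝ → ℝ := fun n => W γ (K n) with hV
  set v : ℝ → ℝ := fun x => by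
    classical exact if ∃ᶠ n in atTop, V n x = 1 then 1 else -1 with hv
  have hvdef : ∀ x, (∃ᶠ n in atTop, V n x = 1) → v x = 1 := by
    intro x hx
    rw [hv]
    exact if_pos hx
  have hvdef' : ∀ x, ¬ (∃ᶠ n in atTop, V n x = 1) → v x = -1 := by
    intro x hx
    rw [hv]
    exact if_neg hx
  have hconst : ∀ x s, (s = 1 ∨ s = -1) → (∀ᶠ n in atTop, V n x = s) → v x = s := by
    intro x s hs hx
    rcases hs with rfl | rfl
    · exact hvdef x hx.frequently
    · apply hvdef'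
      rw [not_frequently]
      filter_upwards [hx] with n hn
      rw [hn]
      norm_num
  have hvm : Measurable v := by
    have hset : MeasurableSet {x | ∃ᶠ n in atTop, V n x = 1} := by
      have e : {x | ∃ᶠ n in atTop, V n x = 1} = ⋂ N : ℕ, ⋃ n : ℕ, ⋃ _ : N ≤ n, {x | V n x = 1} := by
        ext x
        rw [Set.mem_ofPred_eq, frequently_atTop, Set.mem_iInter]
        refine forall_congr' fun N => ?_
        simp only [Set.mem_iUnion, Set.mem_ofPred_eq, exists_prop]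
      rw [e]
      refine MeasurableSet.iInter fun N => MeasurableSet.iUnion fun n => MeasurableSet.iUnion fun _ => ?_
      exact W_meas γ (K n) (measurableSet_singleton 1)
    rw [hv]
    exact Measurable.ite hset measurable_const measurable_const
  have hvpm : ∀ x, v x = 1 ∨ v x = -1 := by
    intro x
    by_cases h : ∃ᶠ n in atTop, V n x = 1
    · exact Or.inl (hvdef x h)
    · exact Or.inr (hvdef' x h)
  have hvper : ∀ x, v (x + 1) = v x := by
    intro x
    have h : ∀ n, V n (x + 1) = V n x := fun n => W_per γ (hK n) x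
    by_cases h1 : ∃ᶠ n in atTop, V n x = 1
    · rw [hvdef x h1]
      apply hvdef
      refine h1.mono fun n hn => ?_
      rw [h, hn]
    · rw [hvdef' x h1]
      apply hvdef'
      intro h2
      apply h1
      refine h2.mono fun n hn => ?_
      rw [← h, hn]
  -- almost everywhere convergence
  have hev : ∀ᵐ x : ℝ, ∃ s : ℝ, (s = 1 ∨ s = -1) ∧ ∀ᶠ n in atTop, V n x = s := by
    have h1 := ae_good (fun n => ((K n : ℝ) + 1) * γ)
      (fun n => 4 * ((Q n : ℝ) * |Q n * γ - P n|)) Q hQ (fun n => by positivity)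
      (hsum.mul_left 4)
    filter_upwards [h1] with x hx
    obtain ⟨N, hN⟩ := eventually_atTop.1 hx
    refine ⟨V N x, W_pm _ _ _, ?_⟩
    rw [eventually_atTop]
    refine ⟨N, fun n hn => ?_⟩
    induction n, hn using Nat.le_induction with
    | base => rfl
    | succ n hn ih =>
      rw [← ih]
      have h2 := hN n hn
      have h3 : ∀ m : ℤ, 4 * ((Q n : ℝ) * |Q n * γ - P n|) <
          |(Q n : ℝ) * (x - ((K n : ℝ) + 1) * γ) - m| := by
        intro m
        by_contra hcon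
        push Not at hcon
        exact h2 ⟨m, hcon⟩
      have h4 := W_succ γ (K n) (P n) (Q n) (hQ n) x h3
      change W γ (K (n + 1)) x = W γ (K n) x
      rw [hKs n]
      exact h4
  have hev2 : ∀ᵐ x : ℝ, ∃ s : ℝ, (s = 1 ∨ s = -1) ∧ ∀ᶠ n in atTop, V n (x + γ) = s :=
    (measurePreserving_add_right volume γ).quasiMeasurePreserving.ae hev
  have hint : ∀ᵐ x : ℝ, ∀ m : ℤ, x - D ≠ m := by
    rw [ae_all_iff]
    intro m
    have : ∀ᵐ x : ℝ, x ≠ m + D := by
      rw [ae_iff]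
      simp
    filter_upwards [this] with x hx h
    apply hx
    linarith
  refine ⟨v, hvm, hvpm, hvper, ?_⟩
  filter_upwards [hev, hev2, hint] with x h1 h2 h3
  obtain ⟨s, hs, hs'⟩ := h1
  obtain ⟨s', hs1, hs1'⟩ := h2
  rw [hconst x s hs hs', hconst (x + γ) s' hs1 hs1']
  -- floors stabilise
  have hfl : ∀ᶠ n in atTop, ⌊x - (K n * γ - L n)⌋ = ⌊x - D⌋ := by
    have hk1 : (⌊x - D⌋ : ℝ) < x - D := lt_of_le_of_ne (Int.floor_le _) (fun h => h3 _ h.symm)
    have hk2 := Int.lt_floor_add_one (x - D)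
    have hc : Tendsto (fun n => x - (K n * γ - L n)) atTop (𝓝 (x - D)) :=
      tendsto_const_nhds.sub hlim
    filter_upwards [hc.eventually (lt_mem_nhds hk1), hc.eventually (gt_mem_nhds hk2)] with n a1 a2
    rw [Int.floor_eq_iff]
    exact ⟨a1.le, a2⟩
  obtain ⟨n, hn1, hn2, hn3⟩ := (hs'.and (hs1'.and hfl)).exists
  rw [← hn1, ← hn2]
  change W γ (K n) (x + γ) * W γ (K n) x = _
  rw [W_shift γ (K n) (L n) (hL n) x, hn3]
  -- final computation
  have hx := Int.self_sub_fract x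
  have hf0 := Int.fract_nonneg x
  have hf1 := Int.fract_lt_one x
  have hxx : x = ⌊x⌋ + Int.fract x := (Int.floor_add_fract x).symm
  split_ifs with hlt
  · have : ⌊x - D⌋ = ⌊x⌋ - 1 := by
      rw [Int.floor_eq_iff]
      push_cast
      constructor <;> linarith
    rw [this]
    have e : ⌊x⌋ - 1 - ⌊x⌋ = -1 := by ring
    rw [e]
    unfold sg
    rw [if_neg (by decide)]
  · push Not at hlt
    have : ⌊x - D⌋ = ⌊x⌋ := by
      rw [Int.floor_eq_iff]
      constructor <;> linarith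
    rw [this, sub_self]
    exact sg_of_even (by decide)

end Pool.Agent.H212R4.Kes.V
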