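import Pool.Agent.H212R4.Kes.Stmts
import Pool.Agent.H705R2.Weyl

/-!
Task WEYL of the project KESTEN: Weyl equidistribution for functions of the visit counts.
-/

set_option autoImplicit false

open MeasureTheory Filter Topology Set

namespace Pool.Agent.H212R4.Kes.WeylT

open Pool.Agent.H705R2 Pool.Agent.H212R4.Kes

/-- Weyl equidistribution for bounded functions which are continuous off a closed null set. -/
theorem weyl_ae {a : Circ} (ha : addOrderOf a = 0) (s : Circ) (F : Circ → ℂ) (C : ℝ)
    (hC : ∀ x, ‖F x‖ ≤ C) (N : Set Circ) (hN : IsClosed N) (hN0 : volume N = 0)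
    (hF : ∀ x, x ∉ N → ContinuousAt F x) :
    Tendsto (fun M => avg a s F M) atTop (𝓝 (∫ x : Circ, F x)) := by
  have hC0 : 0 ≤ C := (norm_nonneg _).trans (hC 0)
  have hFm : AEStronglyMeasurable F (volume : Measure Circ) := by
    have h1 : (volume : Measure Circ).restrict Nᶜ = volume :=
      Measure.restrict_eq_self_of_ae_mem (measure_eq_zero_iff_ae_notMem.1 hN0)
    rw [← h1]
    apply ContinuousOn.aestronglyMeasurable _ hN.measurableSet.compl
    intro x hx
    exact (hF x hx).continuousWithinAt
  have hFi : Integrable F (volume : Measure Circ) :=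
    Integrable.of_bound hFm C (Eventually.of_forall hC)
  rw [Metric.tendsto_atTop]
  intro ε hε
  obtain ⟨U, hNU, hUo, hUv⟩ : ∃ U ⊇ N, IsOpen U ∧
      volume U < ENNReal.ofReal (ε / (4 * (C + 1))) :=
    N.exists_isOpen_lt_of_lt _ (by rw [hN0]; exact ENNReal.ofReal_pos.2 (by positivity))
  obtain ⟨g, hg0, hg1, hg01⟩ := exists_continuous_zero_one_of_isClosed hUo.isClosed_compl hN
    (by rw [disjoint_compl_left_iff_subset]; exact hNU)
  let gc : C(Circ, ℂ) := ⟨fun x => (g x : ℂ), by fun_prop⟩
  have hgn : ∀ x, ‖(g x : ℂ)‖ = g x := fun x => by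
    rw [Complex.norm_real, Real.norm_eq_abs, abs_of_nonneg (hg01 x).1]
  let h : C(Circ, ℂ) := ⟨fun x => F x * (1 - (g x : ℂ)), by
    rw [continuous_iff_continuousAt]
    intro x
    by_cases hx : x ∈ N
    · have h1 : g x = 1 := hg1 hx
      rw [ContinuousAt]
      rw [h1]
      simp only [Complex.ofReal_one, sub_self, mul_zero]
      rw [tendsto_zero_iff_norm_tendsto_zero]
      have h2 : Tendsto (fun y => C * ‖(1 : ℂ) - (g y : ℂ)‖) (𝓝 x) (𝓝 0) := by
        have : Continuous fun y => C * ‖(1 : ℂ) - (g y : ℂ)‖ := by fun_prop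
        have h3 := this.tendsto x
        simp only [h1, Complex.ofReal_one, sub_self, norm_zero, mul_zero] at h3
        exact h3
      refine squeeze_zero (fun _ => norm_nonneg _) (fun y => ?_) h2
      rw [norm_mul]
      exact mul_le_mul_of_nonneg_right (hC y) (norm_nonneg _)
    · have h2 : ContinuousAt (fun y => (1 : ℂ) - (g y : ℂ)) x := by fun_prop
      exact (hF x hx).mul h2⟩
  have hgi : Integrable (fun x => g x) (volume : Measure Circ) :=
    g.continuous.integrable_of_hasCompactSupport (HasCompactSupport.of_compactSpace _)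
  have hhi : Integrable (fun x => h x) (volume : Measure Circ) :=
    h.continuous.integrable_of_hasCompactSupport (HasCompactSupport.of_compactSpace _)
  have hint : ∫ x : Circ, g x ≤ ε / (4 * (C + 1)) := by
    have h2 : ∫ x : Circ, g x ≤ ∫ x : Circ, U.indicator (fun _ => (1 : ℝ)) x := by
      apply integral_mono hgi
      · exact (integrable_indicator_iff hUo.measurableSet).2 (integrableOn_const (by simp))
      · intro x
        by_cases hx : x ∈ U
        · simp only [hx, indicator_of_mem]; exact (hg01 x).2
        · simp only [hx, not_false_eq_true, indicator_of_notMem]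
          exact le_of_eq (hg0 hx)
    rw [integral_indicator hUo.measurableSet] at h2
    simp only [integral_const, MeasurableSet.univ, measureReal_restrict_apply, univ_inter,
      smul_eq_mul, mul_one] at h2
    refine h2.trans ?_
    rw [Measure.real]
    exact ENNReal.toReal_le_of_le_ofReal (by positivity) hUv.le
  have hsmall : C * (ε / (4 * (C + 1))) ≤ ε / 4 := by
    rw [show C * (ε / (4 * (C + 1))) = (ε / 4) * (C / (C + 1)) by field_simp]
    have : C / (C + 1) ≤ 1 := by
      rw [div_le_one (by positivity)]; linarith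
    nlinarith
  have hw1 := Metric.tendsto_atTop.1 (weyl ha s h) (ε / 8) (by positivity)
  have hw2 := Metric.tendsto_atTop.1 (weyl ha s gc) (ε / (8 * (C + 1))) (by positivity)
  obtain ⟨M1, hM1⟩ := hw1
  obtain ⟨M2, hM2⟩ := hw2
  refine ⟨max M1 M2, fun M hM => ?_⟩
  have e1 := hM1 M (le_trans (le_max_left _ _) hM)
  have e2 := hM2 M (le_trans (le_max_right _ _) hM)
  -- the average of `g`
  have hgav : avg a s gc M = (((∑ m ∈ Finset.range M, g (s + m • a)) / M : ℝ) : ℂ) := by
    unfold avg
    simp [gc]
  have hgint : (∫ x : Circ, gc x) = ((∫ x : Circ, g x : ℝ) : ℂ) := by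
    simp only [gc, ContinuousMap.coe_mk]
    exact integral_ofReal
  have hAle : (∑ m ∈ Finset.range M, g (s + m • a)) / (M : ℝ) ≤
      ε / (4 * (C + 1)) + ε / (8 * (C + 1)) := by
    rw [hgav, hgint, dist_eq_norm, ← Complex.ofReal_sub, Complex.norm_real, Real.norm_eq_abs]
      at e2
    have := (abs_lt.1 e2).2
    linarith
  have hdiff : ‖avg a s F M - avg a s h M‖ ≤
      C * ((∑ m ∈ Finset.range M, g (s + m • a)) / (M : ℝ)) := by
    unfold avg
    rw [← sub_div, ← Finset.sum_sub_distrib, norm_div, Complex.norm_natCast, ← mul_div_assoc]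
    apply div_le_div_of_nonneg_right _ (by positivity)
    refine (norm_sum_le _ _).trans ?_
    rw [Finset.mul_sum]
    apply Finset.sum_le_sum
    intro m _
    have : F (s + m • a) - h (s + m • a) = F (s + m • a) * (g (s + m • a) : ℂ) := by
      simp only [h, ContinuousMap.coe_mk]; ring
    rw [this, norm_mul, hgn]
    exact mul_le_mul_of_nonneg_right (hC _) (hg01 _).1
  have hid : ‖(∫ x : Circ, h x) - ∫ x : Circ, F x‖ ≤ C * ∫ x : Circ, g x := by
    rw [norm_sub_rev, ← integral_sub hFi hhi, ← integral_const_mul]
    apply norm_integral_le_of_norm_le (hgi.const_mul C)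
    filter_upwards with x
    have : F x - h x = F x * (g x : ℂ) := by
      simp only [h, ContinuousMap.coe_mk]; ring
    rw [this, norm_mul, hgn]
    exact mul_le_mul_of_nonneg_right (hC _) (hg01 _).1
  have h8 : C * (ε / (8 * (C + 1))) ≤ ε / 8 := by
    rw [show C * (ε / (8 * (C + 1))) = (ε / 8) * (C / (C + 1)) by field_simp]
    have : C / (C + 1) ≤ 1 := by
      rw [div_le_one (by positivity)]; linarith
    nlinarith
  have hdiff' : ‖avg a s F M - avg a s h M‖ ≤ ε / 4 + ε / 8 := by
    refine hdiff.trans ((mul_le_mul_of_nonneg_left hAle hC0).trans ?_)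
    rw [mul_add]
    exact add_le_add hsmall h8
  have hid' : ‖(∫ x : Circ, h x) - ∫ x : Circ, F x‖ ≤ ε / 4 :=
    hid.trans ((mul_le_mul_of_nonneg_left hint hC0).trans hsmall)
  calc dist (avg a s F M) (∫ x : Circ, F x)
      ≤ dist (avg a s F M) (avg a s h M) + dist (avg a s h M) (∫ x : Circ, h x)
        + dist (∫ x : Circ, h x) (∫ x : Circ, F x) := dist_triangle4 _ _ _ _
    _ ≤ (ε / 4 + ε / 8) + ε / 8 + ε / 4 := by
        refine add_le_add (add_le_add ?_ e1.le) ?_
        · rw [dist_eq_norm]; exact hdiff'
        · rw [dist_eq_norm]; exact hid'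
    _ < ε := by linarith

lemma S_periodic (D γ : ℝ) (r : ℕ) : Function.Periodic (S D γ r) 1 := by
  intro x
  unfold S ind
  apply Finset.sum_congr rfl
  intro i _
  rw [show x + 1 + (i : ℝ) * γ = x + i * γ + 1 by ring, Int.fract_add_one]

/-- the indicator is locally constant away from the end points -/
lemma ind_eventually {D x : ℝ} (h0 : Int.fract x ≠ 0) (hD : Int.fract x ≠ D) :
    ∀ᶠ y in 𝓝 x, ind D y = ind D x := by
  have hc : ContinuousAt (Int.fract : ℝ → ℝ) x := by
    apply continuousAt_fract
    intro hn
    apply h0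
    rw [Int.fract]
    linarith
  unfold ind
  rcases lt_or_gt_of_ne hD with h | h
  · have := hc.eventually_lt_const h
    filter_upwards [this] with y hy
    rw [if_pos hy, if_pos h]
  · have := hc.eventually_const_lt h
    filter_upwards [this] with y hy
    rw [if_neg (not_lt.2 (le_of_lt hy)), if_neg (not_lt.2 (le_of_lt h))]

lemma coe_int (z : ℤ) : (((z : ℤ) : ℝ) : Circ) = 0 :=
  (AddCircle.coe_eq_zero_iff 1).2 ⟨z, by simp⟩

theorem weyl : TaskWeyl := by
  intro D γ θ x₀ r g hD0 hD1 hθ
  have hper : Function.Periodic (fun x => g (S D γ r x)) 1 := fun x => by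
    simp only [S_periodic D γ r x]
  set F : Circ → ℂ := hper.lift with hFdef
  have hFc : ∀ x : ℝ, F (x : Circ) = g (S D γ r x) := fun x => hper.lift_coe x
  set bad : Set Circ := ⋃ i ∈ Finset.range r,
    ({((-(i * γ) : ℝ) : Circ)} ∪ {((D - i * γ : ℝ) : Circ)}) with hbad
  have hfin : bad.Finite := by
    rw [hbad]
    apply Set.Finite.biUnion (Finset.finite_toSet _)
    intro i _
    exact (Set.finite_singleton _).union (Set.finite_singleton _)
  have hcont : ∀ x, x ∉ bad → ContinuousAt F x := by
    intro x
    induction x using QuotientAddGroup.induction_on with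
    | H x =>
      intro hx
      have hS : ∀ᶠ y in 𝓝 x, S D γ r y = S D γ r x := by
        have h1 : ∀ i ∈ Finset.range r, ∀ᶠ y in 𝓝 x, ind D (y + i * γ) = ind D (x + i * γ) := by
          intro i hi
          have hx' : ¬ ((x : Circ) = ((-(i * γ) : ℝ) : Circ) ∨ (x : Circ) = ((D - i * γ : ℝ) : Circ)) := by
            intro hcon
            apply hx
            rw [hbad]
            simp only [Set.mem_iUnion]
            exact ⟨i, hi, hcon⟩
          push Not at hx'
          have h0 : Int.fract (x + i * γ) ≠ 0 := by
            intro h0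
            apply hx'.1
            have h5 : x = -(i * γ) + ((⌊x + i * γ⌋ : ℤ) : ℝ) := by
              rw [Int.fract] at h0; linarith
            rw [h5, AddCircle.coe_add, coe_int, add_zero]
          have h2 : Int.fract (x + i * γ) ≠ D := by
            intro h0
            apply hx'.2
            have h5 : x = (D - i * γ) + ((⌊x + i * γ⌋ : ℤ) : ℝ) := by
              rw [Int.fract] at h0; linarith
            rw [h5, AddCircle.coe_add, coe_int, add_zero]
          have h3 := ind_eventually h0 h2
          have h4 : Tendsto (fun y : ℝ => y + i * γ) (𝓝 x) (𝓝 (x + i * γ)) := by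
            exact (continuous_id.add continuous_const).tendsto x
          exact h4.eventually h3
        have h2 := (Finset.eventually_all (Finset.range r)).2 h1
        filter_upwards [h2] with y hy
        unfold S
        exact Finset.sum_congr rfl hy
      rw [ContinuousAt]
      have ho : IsOpenMap ((↑) : ℝ → Circ) := QuotientAddGroup.isOpenMap_coe
      refine Tendsto.mono_left ?_ (ho.nhds_le x)
      rw [tendsto_map'_iff]
      apply tendsto_nhds_of_eventually_eq
      filter_upwards [hS] with y hy
      simp only [Function.comp_apply, hFc, hy]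
  have hbound : ∀ x, ‖F x‖ ≤ ∑ j ∈ Finset.range (r + 1), ‖g j‖ := by
    intro x
    induction x using QuotientAddGroup.induction_on with
    | H x =>
      have h1 : S D γ r x ≤ r := by
        unfold S ind
        calc ∑ i ∈ Finset.range r, (if Int.fract (x + i * γ) < D then 1 else 0)
            ≤ ∑ i ∈ Finset.range r, 1 := by
              apply Finset.sum_le_sum
              intro i _
              split_ifs <;> simp
          _ = r := by simp
      have h2 : F (x : Circ) = g (S D γ r x) := hFc x
      rw [show ((QuotientAddGroup.mk x : Circ)) = (x : Circ) from rfl, h2]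
      exact Finset.single_le_sum (f := fun j => ‖g j‖) (fun j _ => norm_nonneg _)
        (Finset.mem_range.2 (Nat.lt_succ_of_le h1))
  have ha : addOrderOf ((θ : ℝ) : Circ) = 0 := by
    rw [addOrderOf_eq_zero_iff, AddCircle.not_isOfFinAddOrder_iff_forall_rat_ne_div]
    intro q hq
    apply hθ
    refine ⟨q, ?_⟩
    simpa using hq
  have hnull : volume bad = 0 := by
    have h1 : ∀ x : Circ, volume ({x} : Set Circ) = 0 := by
      intro x
      rw [← Metric.closedBall_zero, AddCircle.volume_closedBall]
      simp
    rw [← Set.biUnion_of_singleton bad]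
    exact (measure_biUnion_null_iff hfin.countable).2 (fun x _ => h1 x)
  have hmain := weyl_ae ha (x₀ : Circ) F _ hbound bad hfin.isClosed hnull hcont
  have hint : (∫ x : Circ, F x) = ∫ x in (0 : ℝ)..1, g (S D γ r x) := by
    rw [← AddCircle.intervalIntegral_preimage 1 0 F, zero_add]
    simp only [hFc]
  rw [hint] at hmain
  refine hmain.congr (fun N => ?_)
  unfold avg
  congr 1
  apply Finset.sum_congr rfl
  intro n _
  have h5 : (x₀ : Circ) + n • (θ : Circ) = ((x₀ + n * θ : ℝ) : Circ) := by
    rw [AddCircle.coe_add, ← nsmul_eq_mul, AddCircle.coe_nsmul]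
  rw [h5, hFc]

end Pool.Agent.H212R4.Kes.WeylT
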